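import Pool.Agent.SND.Base

set_option autoImplicit false

namespace Pool.SND

open MagRad Set

universe u v

variable {κ k : Ordinal.{u}}
variable {o : Ordinal.{u} → Ordinal.{u}} {U : Ordinal.{u} → Ordinal.{u} → Ultrafilter Ordinal.{u}}

variable {W : Ultrafilter Ordinal.{u}}

theorem nm_omega (hW : IsNormalMeasure κ W) : Ordinal.omega0.{u} < κ := by
  by_contra hcon
  push Not at hcon
  have h0 : {z : Ordinal.{u} | Ordinal.pred z < z} ∈ W := by
    refine um_mono (um_inter hW.conc (hW.tail 0 (theta_pos hW))) ?_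
    rintro z ⟨hz1, hz2⟩
    have hz3 : z < Ordinal.omega0 := lt_of_lt_of_le hz1 hcon
    obtain ⟨n, rfl⟩ := Ordinal.lt_omega0.1 hz3
    have hn : n ≠ 0 := by
      rintro rfl
      simp at hz2
    obtain ⟨m, rfl⟩ := Nat.exists_eq_succ_of_ne_zero hn
    have e : ((m.succ : ℕ) : Ordinal.{u}) = (m : Ordinal.{u}) + 1 := by
      simp
    simp only [mem_ofPred_eq]
    rw [e, Ordinal.pred_add_one]
    exact Order.lt_add_one_iff.2 le_rfl
  obtain ⟨ξ, hξ, h1⟩ := press hW h0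
  have h2 : {z : Ordinal.{u} | z = Order.succ ξ} ∈ W := by
    refine um_mono (um_inter h1 (um_inter hW.conc (hW.tail 0 (theta_pos hW)))) ?_
    rintro z ⟨hz0, hz1, hz2⟩
    have hz3 : z < Ordinal.omega0 := lt_of_lt_of_le hz1 hcon
    obtain ⟨n, rfl⟩ := Ordinal.lt_omega0.1 hz3
    have hn : n ≠ 0 := by
      rintro rfl
      simp at hz2
    obtain ⟨m, rfl⟩ := Nat.exists_eq_succ_of_ne_zero hn
    have e : ((m.succ : ℕ) : Ordinal.{u}) = (m : Ordinal.{u}) + 1 := by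
      simp
    simp only [mem_ofPred_eq] at hz0 ⊢
    rw [e, Ordinal.pred_add_one] at hz0
    rw [e, hz0, Order.succ_eq_add_one]
  obtain ⟨z, hz1, hz2⟩ := um_ne (um_inter h2 hW.conc)
  have hs : Order.succ ξ < κ := by
    have : z = Order.succ ξ := hz1
    rw [← this]
    exact hz2
  obtain ⟨y, hy1, hy2⟩ := um_ne (um_inter h2 (hW.tail _ hs))
  have hy3 : y = Order.succ ξ := hy1
  rw [hy3] at hy2
  exact lt_irrefl _ (show Order.succ ξ < Order.succ ξ from hy2)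

theorem nm_succ (hW : IsNormalMeasure κ W) {ξ : Ordinal.{u}} (hξ : ξ < κ) : Order.succ ξ < κ := by
  obtain ⟨z, hz1, hz2⟩ := um_ne (um_inter (hW.tail ξ hξ) hW.conc)
  exact lt_of_le_of_lt (Order.succ_le_of_lt hz1) hz2

theorem nm_complete (hW : IsNormalMeasure κ W) {δ : Ordinal.{u}} (hδ : δ < κ) {ι : Type v}
    (e : ι → Ordinal.{u}) (he : Function.Injective e) (hδe : ∀ i, e i < δ)
    {Q : ι → Ordinal.{u} → Prop} (h : ∀ i, {z | Q i z} ∈ W) : {z | ∀ i, Q i z} ∈ W := by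
  have h1 : {z | ∀ ξ ≤ δ, ∀ i, e i = ξ → Q i z} ∈ W := by
    refine complete_le hW hδ (Q := fun ξ z => ∀ i, e i = ξ → Q i z) fun ξ _ => ?_
    by_cases hex : ∃ i, e i = ξ
    · obtain ⟨i, hi⟩ := hex
      refine um_mono (h i) fun z hz j hj => ?_
      have : i = j := he (hi.trans hj.symm)
      rw [← this]
      exact hz
    · exact um_mono W.univ_mem fun z _ i hi => absurd ⟨i, hi⟩ hex
  exact um_mono h1 fun z hz i => hz (e i) (hδe i).le i rfl

theorem nm_reg (hW : IsNormalMeasure κ W) {δ : Ordinal.{u}} (hδ : δ < κ)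
    (f : Ordinal.{u} → Ordinal.{u}) (hf : ∀ ξ < δ, f ξ < κ) : ∃ γ < κ, ∀ ξ < δ, f ξ < γ := by
  have h1 : {z | ∀ ξ ≤ δ, ξ < δ → f ξ < z} ∈ W := by
    refine complete_le hW hδ (Q := fun ξ z => ξ < δ → f ξ < z) fun ξ _ => ?_
    by_cases hξ : ξ < δ
    · exact um_mono (hW.tail _ (hf ξ hξ)) fun z hz _ => hz
    · exact um_mono W.univ_mem fun z _ h => absurd h hξ
  obtain ⟨z, hz1, hz2⟩ := um_ne (um_inter h1 hW.conc)
  exact ⟨z, hz2, fun ξ hξ => hz1 ξ hξ.le hξ⟩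

theorem nm_pow (hW : IsNormalMeasure κ W) {δ : Ordinal.{u}} (hδ : δ < κ) :
    ∃ η < κ, ∃ e : Set Ordinal.{u} → Ordinal.{u}, (∀ X ⊆ Iio δ, e X < η) ∧
      ∀ X ⊆ Iio δ, ∀ Y ⊆ Iio δ, e X = e Y → X = Y := by
  classical
  let T : Type u := δ.ToType
  let r : Set T → Set T → Prop := WellOrderingRel
  let c : Set Ordinal.{u} → Set T := fun X => {a | ((Ordinal.ToType.mk.symm a : Iio δ) : Ordinal.{u}) ∈ X}
  have hc : ∀ X ⊆ Iio δ, ∀ Y ⊆ Iio δ, c X = c Y → X ⊆ Y := by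
    intro X hX Y _ h ξ hξ
    have h1 : Ordinal.ToType.mk ⟨ξ, hX hξ⟩ ∈ c X := by
      change ((Ordinal.ToType.mk.symm (Ordinal.ToType.mk ⟨ξ, hX hξ⟩) : Iio δ) : Ordinal.{u}) ∈ X
      rw [OrderIso.symm_apply_apply]
      exact hξ
    rw [h] at h1
    change ((Ordinal.ToType.mk.symm (Ordinal.ToType.mk ⟨ξ, hX hξ⟩) : Iio δ) : Ordinal.{u}) ∈ Y at h1
    rw [OrderIso.symm_apply_apply] at h1
    exact h1
  refine ⟨Ordinal.type r, ?_, fun X => Ordinal.typein r (c X), ?_, ?_⟩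
  · by_contra hcon
    push Not at hcon
    have hA : ∀ z : Ordinal.{u}, ∃ A : Set T, z < κ → Ordinal.typein r A = z := by
      intro z
      by_cases hz : z < κ
      · obtain ⟨A, hA⟩ := Ordinal.typein_surj r (lt_of_lt_of_le hz hcon)
        exact ⟨A, fun _ => hA⟩
      · exact ⟨∅, fun h => absurd h hz⟩
    choose A hA using hA
    have hs : ∀ ξ : Ordinal.{u}, ∃ d : Prop,
        {z | (∃ h : ξ < δ, Ordinal.ToType.mk ⟨ξ, h⟩ ∈ A z) ↔ d} ∈ W := fun ξ => decided _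
    choose s hs using hs
    have h1 : {z | ∀ ξ ≤ δ, ((∃ h : ξ < δ, Ordinal.ToType.mk ⟨ξ, h⟩ ∈ A z) ↔ s ξ)} ∈ W :=
      complete_le hW hδ (Q := fun ξ z => ((∃ h : ξ < δ, Ordinal.ToType.mk ⟨ξ, h⟩ ∈ A z) ↔ s ξ))
        fun ξ _ => hs ξ
    obtain ⟨z0, hz0, hz0κ⟩ := um_ne (um_inter h1 hW.conc)
    obtain ⟨z1, hz1, hz1κ, hz01⟩ := um_ne (um_inter h1 (um_inter hW.conc (hW.tail z0 hz0κ)))
    have hAA : A z0 = A z1 := by
      ext a
      have e1 : Ordinal.ToType.mk (Ordinal.ToType.mk.symm a) = a := OrderIso.apply_symm_apply _ _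
      have hlt : ((Ordinal.ToType.mk.symm a : Iio δ) : Ordinal.{u}) < δ :=
        (Ordinal.ToType.mk.symm a).2
      have k0 := hz0 _ hlt.le
      have k1 := hz1 _ hlt.le
      constructor
      · intro ha
        have := k1.2 (k0.1 ⟨hlt, by rw [← e1] at ha; exact ha⟩)
        obtain ⟨_, h⟩ := this
        rw [← e1]
        exact h
      · intro ha
        have := k0.2 (k1.1 ⟨hlt, by rw [← e1] at ha; exact ha⟩)
        obtain ⟨_, h⟩ := this
        rw [← e1]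
        exact h
    have h2 : z0 = z1 := by
      rw [← hA z0 hz0κ, ← hA z1 hz1κ, hAA]
    have h3 : z0 < z1 := hz01
    rw [h2] at h3
    exact lt_irrefl _ h3
  · intro X _
    exact Ordinal.typein_lt_type r _
  · intro X hX Y hY h
    have h1 : c X = c Y := (Ordinal.typein_inj r).1 h
    exact Subset.antisymm (hc X hX Y hY h1) (hc Y hY X hX h1.symm)

end Pool.SND
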