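import Pool.Agent.SND.ScP
import Pool.Agent.SND.Cnt

set_option autoImplicit false

namespace Pool.SND

open MagRad Set

universe u v

variable {κ lam : Ordinal.{u}} {W : Ultrafilter (Set Ordinal.{u})}

/-- comparison of functions modulo the measure -/
private def ScH_r (W : Ultrafilter (Set Ordinal.{u}))
    (f g : Set Ordinal.{u} → Ordinal.{u}) : Prop := {x | f x < g x} ∈ W

private theorem ScH_wf (hW : IsSupercompactMeasure κ lam W) (hκ : κ ≤ lam) :
    IsWellFounded _ (ScH_r W) := by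
  refine ⟨wellFounded_iff_isEmpty_descending_chain.2 ⟨?_⟩⟩
  rintro ⟨f, hf⟩
  have hω : Ordinal.omega0.{u} < κ := nm_omega (dm_normal hW hκ)
  have h1 := hW.complete _ hω
    (fun ξ => {x | ∀ n : ℕ, ξ = (n : Ordinal.{u}) → f (n + 1) x < f n x}) (by
      intro ξ hξ
      obtain ⟨m, rfl⟩ := Ordinal.lt_omega0.1 hξ
      refine Filter.mem_of_superset (hf m) ?_
      intro x hx n hn
      have h2 : m = n := by exact_mod_cast hn
      subst h2
      exact hx)
  obtain ⟨x, hx⟩ := W.nonempty_of_mem h1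
  have h2 : ∀ n : ℕ, f (n + 1) x < f n x := fun n => hx n (Ordinal.natCast_lt_omega0 n) n rfl
  exact not_strictAnti_of_wellFoundedLT (fun n => f n x) (strictAnti_nat_of_succ_lt h2)

private theorem ScH_tri (f g : Set Ordinal.{u} → Ordinal.{u}) :
    ScH_r W f g ∨ {x | f x = g x} ∈ W ∨ ScH_r W g f := by
  by_contra hcon
  push Not at hcon
  obtain ⟨h1, h2, h3⟩ := hcon
  have k1 := Ultrafilter.compl_mem_iff_notMem.2 h1
  have k2 := Ultrafilter.compl_mem_iff_notMem.2 h2
  have k3 := Ultrafilter.compl_mem_iff_notMem.2 h3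
  obtain ⟨x, hx1, hx2, hx3⟩ := W.nonempty_of_mem (Filter.inter_mem k1 (Filter.inter_mem k2 k3))
  rcases lt_trichotomy (f x) (g x) with h | h | h
  · exact hx1 h
  · exact hx2 h
  · exact hx3 h

private theorem ScH_irr (f : Set Ordinal.{u} → Ordinal.{u}) : ¬ ScH_r W f f := by
  intro h
  obtain ⟨x, hx⟩ := W.nonempty_of_mem h
  exact lt_irrefl _ (show f x < f x from hx)

section

variable [hwf : IsWellFounded _ (ScH_r W)]

private theorem ScH_rank_eq {f g : Set Ordinal.{u} → Ordinal.{u}} (h : {x | f x = g x} ∈ W) :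
    IsWellFounded.rank (ScH_r W) f = IsWellFounded.rank (ScH_r W) g := by
  have h1 : (fun b => ScH_r W b f) = (fun b => ScH_r W b g) := by
    funext b
    apply propext
    constructor
    · intro hb
      refine Filter.mem_of_superset (Filter.inter_mem hb h) ?_
      rintro x ⟨hx1, hx2⟩
      have e1 : b x < f x := hx1
      have e2 : f x = g x := hx2
      exact e1.trans_eq e2
    · intro hb
      refine Filter.mem_of_superset (Filter.inter_mem hb h) ?_
      rintro x ⟨hx1, hx2⟩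
      have e1 : b x < g x := hx1
      have e2 : f x = g x := hx2
      exact e1.trans_eq e2.symm
  rw [IsWellFounded.rank_eq, IsWellFounded.rank_eq]
  exact congrArg (fun P : (Set Ordinal.{u} → Ordinal.{u}) → Prop =>
    ⨆ b : {b // P b}, Order.succ (IsWellFounded.rank (ScH_r W) b)) h1

private theorem ScH_rel {f g : Set Ordinal.{u} → Ordinal.{u}}
    (h : IsWellFounded.rank (ScH_r W) f < IsWellFounded.rank (ScH_r W) g) : ScH_r W f g := by
  rcases ScH_tri (W := W) f g with h1 | h1 | h1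
  · exact h1
  · exact absurd (ScH_rank_eq h1) h.ne
  · exact absurd (IsWellFounded.rank_lt_of_rel h1) h.asymm

private theorem ScH_eq {f g : Set Ordinal.{u} → Ordinal.{u}}
    (h : IsWellFounded.rank (ScH_r W) f = IsWellFounded.rank (ScH_r W) g) :
    {x | f x = g x} ∈ W := by
  rcases ScH_tri (W := W) f g with h1 | h1 | h1
  · exact absurd h (IsWellFounded.rank_lt_of_rel h1).ne
  · exact h1
  · exact absurd h.symm (IsWellFounded.rank_lt_of_rel h1).ne

end

/-- an increasing sequence of functions that represents an initial segment of the ordinals of the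
ultrapower -/
theorem exists_seq (hW : IsSupercompactMeasure κ lam W) (hκ : κ ≤ lam)
    (H : Set Ordinal.{u} → Ordinal.{u}) {μ : Ordinal.{u}} (hμ : μ.card ≤ lam.card)
    (hn : ∀ h : Ordinal.{u} → Set Ordinal.{u} → Ordinal.{u},
      ¬ ∀ g : Set Ordinal.{u} → Ordinal.{u}, {x | g x < H x} ∈ W →
        ∃ ξ < lam, {x | g x = h ξ x} ∈ W) :
    ∃ h : Ordinal.{u} → Set Ordinal.{u} → Ordinal.{u},
      (∀ γ < μ, {x | h γ x < H x} ∈ W) ∧
      (∀ i γ, i < γ → γ < μ → {x | h i x < h γ x} ∈ W) ∧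
      ∀ γ < μ, ∀ g : Set Ordinal.{u} → Ordinal.{u}, {x | g x < h γ x} ∈ W →
        ∃ i < γ, {x | g x = h i x} ∈ W := by
  classical
  have hwf : IsWellFounded _ (ScH_r W) := ScH_wf hW hκ
  have hrange : ∀ (o : Ordinal.{u + 1}), o ≤ IsWellFounded.rank (ScH_r W) H →
      ∃ f, IsWellFounded.rank (ScH_r W) f = o := fun o ho =>
    IsWellFounded.mem_range_rank_of_le ho
  have hH : Ordinal.lift.{u + 1} μ ≤ IsWellFounded.rank (ScH_r W) H := by
    by_contra hcon
    push Not at hcon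
    obtain ⟨ν, hν, hνH⟩ := Ordinal.lt_lift_iff.1 hcon
    have h1 : ∀ i : Ordinal.{u}, ∃ f : Set Ordinal.{u} → Ordinal.{u},
        i < ν → IsWellFounded.rank (ScH_r W) f = Ordinal.lift.{u + 1} i := by
      intro i
      by_cases hi : i < ν
      · obtain ⟨f, hf⟩ := hrange (Ordinal.lift.{u + 1} i) (by
          rw [← hνH]
          exact (Ordinal.lift_lt.2 hi).le)
        exact ⟨f, fun _ => hf⟩
      · exact ⟨fun _ => 0, fun h => absurd h hi⟩
    choose F hF using h1
    have h2 : Nonempty (Iio ν ↪ Iio lam) := by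
      rw [← Cardinal.le_def, Cardinal.mk_Iio_ordinal, Cardinal.mk_Iio_ordinal, Cardinal.lift_le]
      exact (Ordinal.card_le_card hν.le).trans hμ
    obtain ⟨e⟩ := h2
    refine hn (fun ξ => if hξ : ∃ i : Iio ν, (e i : Ordinal.{u}) = ξ then F hξ.choose else
      fun _ => 0) ?_
    intro g hg
    have h3 : IsWellFounded.rank (ScH_r W) g < Ordinal.lift.{u + 1} ν := by
      rw [hνH]
      exact IsWellFounded.rank_lt_of_rel hg
    obtain ⟨i, hi, hig⟩ := Ordinal.lt_lift_iff.1 h3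
    have hex : ∃ j : Iio ν, (e j : Ordinal.{u}) = (e ⟨i, hi⟩ : Ordinal.{u}) := ⟨⟨i, hi⟩, rfl⟩
    refine ⟨(e ⟨i, hi⟩ : Ordinal.{u}), (e ⟨i, hi⟩).2, ?_⟩
    have h4 : hex.choose = ⟨i, hi⟩ := e.injective (Subtype.ext hex.choose_spec)
    have h5 : (if hξ : ∃ j : Iio ν, (e j : Ordinal.{u}) = (e ⟨i, hi⟩ : Ordinal.{u}) then
        F hξ.choose else fun _ => 0) = F i := by
      rw [dif_pos hex, h4]
    show {x | g x = (if hξ : ∃ j : Iio ν, (e j : Ordinal.{u}) = (e ⟨i, hi⟩ : Ordinal.{u}) then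
        F hξ.choose else fun _ => 0) x} ∈ W
    rw [h5]
    refine ScH_eq ?_
    rw [hF i hi, hig]
  have h1 : ∀ γ : Ordinal.{u}, ∃ f : Set Ordinal.{u} → Ordinal.{u},
      γ < μ → IsWellFounded.rank (ScH_r W) f = Ordinal.lift.{u + 1} γ := by
    intro γ
    by_cases hγ : γ < μ
    · obtain ⟨f, hf⟩ := hrange (Ordinal.lift.{u + 1} γ) ((Ordinal.lift_lt.2 hγ).le.trans hH)
      exact ⟨f, fun _ => hf⟩
    · exact ⟨fun _ => 0, fun h => absurd h hγ⟩
  choose h hh using h1
  refine ⟨h, fun γ hγ => ?_, fun i γ hi hγ => ?_, fun γ hγ g hg => ?_⟩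
  · refine ScH_rel (lt_of_lt_of_le ?_ hH)
    rw [hh γ hγ]
    exact Ordinal.lift_lt.2 hγ
  · refine ScH_rel ?_
    rw [hh γ hγ, hh i (hi.trans hγ)]
    exact Ordinal.lift_lt.2 hi
  · have h3 : IsWellFounded.rank (ScH_r W) g < Ordinal.lift.{u + 1} γ := by
      rw [← hh γ hγ]
      exact IsWellFounded.rank_lt_of_rel hg
    obtain ⟨i, hi, hig⟩ := Ordinal.lt_lift_iff.1 h3
    refine ⟨i, hi, ScH_eq ?_⟩
    rw [hh i (hi.trans hγ), hig]

end Pool.SND
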