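import Pool.Agent.SND.ScM
import Pool.Agent.SND.Cnt

set_option autoImplicit false

namespace Pool.SND

open MagRad Set

universe u v

variable {κ : Ordinal.{u}} {o : Ordinal.{u} → Ordinal.{u}}
  {U : Ordinal.{u} → Ordinal.{u} → Ultrafilter Ordinal.{u}}

/-- there is no injection of `κ` into a smaller ordinal -/
private theorem scB_inj {D : Ultrafilter Ordinal.{u}} (hD : IsNormalMeasure κ D)
    {η : Ordinal.{u}} (hη : η < κ) (f : Ordinal.{u} → Ordinal.{u}) (hf : ∀ z < κ, f z < η)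
    (hinj : ∀ z < κ, ∀ z' < κ, f z = f z' → z = z') : False := by
  have h1 : ∀ j : {j // j < η}, {z | f z ≠ j.1} ∈ D := by
    intro j
    by_contra hcon
    have h2 : {z | ¬ f z ≠ j.1} ∈ D := um_not_setOf hcon
    obtain ⟨z0, hz0, hz0κ⟩ := um_ne (um_inter h2 hD.conc)
    obtain ⟨z1, hz1, hz1κ, hz01⟩ := um_ne (um_inter h2 (um_inter hD.conc (hD.tail z0 hz0κ)))
    have e0 : f z0 = j.1 := not_not.1 hz0
    have e1 : f z1 = j.1 := not_not.1 hz1
    have h3 : z0 = z1 := hinj z0 hz0κ z1 hz1κ (e0.trans e1.symm)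
    exact absurd (show z0 < z1 from hz01) h3.not_lt
  have h2 : {z | ∀ j : {j // j < η}, f z ≠ j.1} ∈ D :=
    nm_complete hD hη (fun j : {j // j < η} => j.1) Subtype.val_injective (fun j => j.2)
      (Q := fun j z => f z ≠ j.1) h1
  obtain ⟨z, hz, hzκ⟩ := um_ne (um_inter h2 hD.conc)
  exact hz ⟨f z, hf z hzκ⟩ rfl

/-- below a measurable cardinal the lengths are bounded -/
theorem maxCoh_lt (hU : IsMaxCoh o U) {D : Ultrafilter Ordinal.{u}} (hD : IsNormalMeasure κ D)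
    {ν : Ordinal.{u}} (hν : ν < κ) : o ν < κ := by
  by_contra hcon
  push Not at hcon
  obtain ⟨η₁, hη₁, e₁, h₁, i₁⟩ := nm_pow hD hν
  obtain ⟨η₂, hη₂, e₂, h₂, i₂⟩ := nm_pow hD hη₁
  let S : Ordinal.{u} → Set Ordinal.{u} := fun β => {ξ | ∃ X ⊆ Iio ν, X ∈ U ν β ∧ e₁ X = ξ}
  have hS : ∀ β, S β ⊆ Iio η₁ := by
    rintro β ξ ⟨X, hX, _, rfl⟩
    exact h₁ X hX
  refine scB_inj hD hη₂ (fun β => e₂ (S β)) (fun β _ => h₂ _ (hS β)) fun β hβ β' hβ' he => ?_
  have hSS : S β = S β' := i₂ _ (hS β) _ (hS β') he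
  have hβo : β < o ν := hβ.trans_le hcon
  have hβo' : β' < o ν := hβ'.trans_le hcon
  have hE := hU.ext ν β hβo
  have hE' := hU.ext ν β' hβo'
  have hle : ∀ X, X ∈ U ν β → X ∈ U ν β' := by
    intro X hX
    have h3 : X ∩ Iio ν ∈ U ν β := um_inter hX hE.1.conc
    have h4 : e₁ (X ∩ Iio ν) ∈ S β := ⟨_, inter_subset_right, h3, rfl⟩
    rw [hSS] at h4
    obtain ⟨X', hX', h5, h6⟩ := h4
    have h7 : X' = X ∩ Iio ν := i₁ _ hX' _ inter_subset_right h6
    rw [h7] at h5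
    exact um_mono h5 inter_subset_left
  have hUU : U ν β = U ν β' := by
    refine Ultrafilter.ext fun X => ⟨hle X, fun hX => ?_⟩
    by_contra hn
    have h3 : Xᶜ ∈ U ν β' := hle _ (um_not hn)
    exact (um_iff.1 h3) hX
  rw [← hUU] at hE'
  exact hE.length hE'

end Pool.SND
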