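import Pool.Agent.SND.ScP
import Pool.Agent.SND.ScB

set_option autoImplicit false

namespace Pool.SND

open MagRad Set

universe u v

variable {κ lam : Ordinal.{u}} {W : Ultrafilter (Set Ordinal.{u})}

variable {o : Ordinal.{u} → Ordinal.{u}} {U : Ordinal.{u} → Ordinal.{u} → Ultrafilter Ordinal.{u}}

private theorem scU_mem {h : Set Ordinal.{u} → Ordinal.{u}} {A : Set Ordinal.{u}} :
    A ∈ W.bind (fun x => U (kx x) (h x)) ↔ {x | A ∈ U (kx x) (h x)} ∈ W :=
  Iff.rfl

private theorem scU_iff {p q : Set Ordinal.{u} → Prop} (h : {x | p x ↔ q x} ∈ W) :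
    {x | p x} ∈ W ↔ {x | q x} ∈ W := by
  constructor
  · intro hp
    filter_upwards [h, hp] with x h1 h2 using h1.1 h2
  · intro hq
    filter_upwards [h, hq] with x h1 h2 using h1.2 h2

/-- the measure `D_β` is normal -/
private theorem scU_normal (hU : IsMaxCoh o U) (hW : IsSupercompactMeasure κ lam W)
    (hκ : κ ≤ lam) {h : Set Ordinal.{u} → Ordinal.{u}} (h1 : {x | h x < o (kx x)} ∈ W) :
    IsNormalMeasure κ (W.bind fun x => U (kx x) (h x)) where
  conc := by
    refine scU_mem.2 ?_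
    filter_upwards [h1, kx_lt hW hκ] with x hx hk
    exact Filter.mem_of_superset (hU.ext _ _ hx).1.conc fun ν hν => lt_trans hν hk
  tail := by
    intro ξ hξ
    refine scU_mem.2 ?_
    filter_upwards [h1, kx_tail hW hκ hξ] with x hx hk
    exact (hU.ext _ _ hx).1.tail ξ hk
  diag := by
    intro X hX
    refine scU_mem.2 ?_
    have h2 := diag_k hW hκ (fun ξ => {x | X ξ ∈ U (kx x) (h x)}) fun ξ hξ => hX ξ hξ
    filter_upwards [h1, h2] with x hx hk
    exact (hU.ext _ _ hx).1.diag X hk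

/-- the limit measures continue the coherent sequence below `κ` -/
theorem lim_ext (hU : IsMaxCoh o U) (hW : IsSupercompactMeasure κ lam W) (hκ : κ ≤ lam)
    {μ : Ordinal.{u}} {h : Ordinal.{u} → Set Ordinal.{u} → Ordinal.{u}}
    (h1 : ∀ γ < μ, {x | h γ x < o (kx x)} ∈ W)
    (h2 : ∀ i γ, i < γ → γ < μ → {x | h i x < h γ x} ∈ W)
    (h3 : ∀ γ < μ, ∀ g : Set Ordinal.{u} → Ordinal.{u}, {x | g x < h γ x} ∈ W →
      ∃ i < γ, {x | g x = h i x} ∈ W) :
    ∀ β < μ, ExtC κ β o U (fun γ => W.bind fun x => U (kx x) (h γ x))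
      (W.bind fun x => U (kx x) (h β x)) := by
  classical
  intro β hβ
  refine ⟨scU_normal hU hW hκ (h1 β hβ), ?_⟩
  -- the functions of the coherent sequence below
  have hc : ∀ x : Set Ordinal.{u}, ∃ F : Ordinal.{u} → Ordinal.{u} → Ordinal.{u},
      h β x < o (kx x) →
      (∀ i < h β x, {ν | F i ν < o ν} ∈ U (kx x) (h β x)) ∧
      (∀ i j, i < j → j < h β x → {ν | F i ν < F j ν} ∈ U (kx x) (h β x)) ∧
      (∀ g : Ordinal.{u} → Ordinal.{u}, {ν | g ν < o ν} ∈ U (kx x) (h β x) →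
        ∃ i < h β x, {ν | g ν = F i ν} ∈ U (kx x) (h β x)) ∧
      (∀ i < h β x, ∀ X : Set Ordinal.{u}, X ∈ U (kx x) i ↔
        {ν | X ∈ U ν (F i ν)} ∈ U (kx x) (h β x)) ∧ ∀ i ν, F i ν ≤ o ν := by
    intro x
    by_cases hx : h β x < o (kx x)
    · obtain ⟨F, hF1, hF2, hF3, hF4⟩ := (hU.ext _ _ hx).2
      refine ⟨fun i ν => min (F i ν) (o ν), fun _ => ⟨?_, ?_, ?_, ?_, ?_⟩⟩
      · intro i hi
        filter_upwards [hF1 i hi] with ν hν
        exact lt_of_le_of_lt (min_le_left _ _) hν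
      · intro i j hij hj
        filter_upwards [hF1 i (hij.trans hj), hF1 j hj, hF2 i j hij hj] with ν h4 h5 h6
        rw [min_eq_left (le_of_lt h4), min_eq_left (le_of_lt h5)]
        exact h6
      · intro g hg
        obtain ⟨i, hi, hgi⟩ := hF3 g hg
        refine ⟨i, hi, ?_⟩
        filter_upwards [hgi, hF1 i hi] with ν h4 h5
        rw [min_eq_left (le_of_lt h5)]
        exact h4
      · intro i hi X
        rw [hF4 i hi X]
        constructor
        · intro h4
          filter_upwards [h4, hF1 i hi] with ν h5 h6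
          rw [min_eq_left (le_of_lt h6)]
          exact h5
        · intro h4
          filter_upwards [h4, hF1 i hi] with ν h5 h6
          rw [min_eq_left (le_of_lt h6)] at h5
          exact h5
      · exact fun i ν => min_le_right _ _
    · exact ⟨fun _ _ => 0, fun hx' => absurd hx' hx⟩
  choose Fx hFx using hc
  -- their limits
  have hlim : ∀ i : Ordinal.{u}, ∃ G : Ordinal.{u} → Ordinal.{u},
      {x | ∀ ν < kx x, Fx x (h i x) ν = G ν} ∈ W := by
    intro i
    refine lim_fun hW hκ (fun x ν => Fx x (h i x) ν) o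
      (fun ν hν => maxCoh_lt hU (dm_normal hW hκ) hν) ?_
    filter_upwards [h1 β hβ] with x hx
    exact fun ν _ => (hFx x hx).2.2.2.2 _ ν
  choose F hF using hlim
  refine ⟨F, ?_, ?_, ?_, ?_⟩
  · intro i hi
    refine scU_mem.2 ?_
    filter_upwards [h1 β hβ, h2 i β hi hβ, hF i] with x hx hxi hxF
    filter_upwards [(hFx x hx).1 _ hxi, (hU.ext _ _ hx).1.conc] with ν h4 h5
    rw [← hxF ν h5]
    exact h4
  · intro i j hij hj
    refine scU_mem.2 ?_
    filter_upwards [h1 β hβ, h2 i j hij (hj.trans hβ), h2 j β hj hβ, hF i, hF j]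
      with x hx hxij hxj hxF hxF'
    filter_upwards [(hFx x hx).2.1 _ _ hxij hxj, (hU.ext _ _ hx).1.conc] with ν h4 h5
    rw [← hxF ν h5, ← hxF' ν h5]
    exact h4
  · intro g hg
    have hj : ∀ x : Set Ordinal.{u}, ∃ j : Ordinal.{u},
        h β x < o (kx x) → {ν | g ν < o ν} ∈ U (kx x) (h β x) →
          j < h β x ∧ {ν | g ν = Fx x j ν} ∈ U (kx x) (h β x) := by
      intro x
      by_cases hx : h β x < o (kx x) ∧ {ν | g ν < o ν} ∈ U (kx x) (h β x)
      · obtain ⟨i, hi, hgi⟩ := (hFx x hx.1).2.2.1 g hx.2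
        exact ⟨i, fun _ _ => ⟨hi, hgi⟩⟩
      · exact ⟨0, fun h4 h5 => absurd ⟨h4, h5⟩ hx⟩
    choose j hj using hj
    have hg' : {x | {ν | g ν < o ν} ∈ U (kx x) (h β x)} ∈ W := scU_mem.1 hg
    have hjW : {x | j x < h β x} ∈ W := by
      filter_upwards [h1 β hβ, hg'] with x hx hxg
      exact (hj x hx hxg).1
    obtain ⟨i, hi, hij⟩ := h3 β hβ j hjW
    refine ⟨i, hi, scU_mem.2 ?_⟩
    filter_upwards [h1 β hβ, hg', hij, hF i] with x hx hxg hxj hxF
    filter_upwards [(hj x hx hxg).2, (hU.ext _ _ hx).1.conc] with ν h4 h5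
    have hxj' : j x = h i x := hxj
    rw [← hxF ν h5, ← hxj']
    exact h4
  · intro i hi X
    show {x | X ∈ U (kx x) (h i x)} ∈ W ↔
      {x | {ν | X ∈ U ν (F i ν)} ∈ U (kx x) (h β x)} ∈ W
    refine scU_iff ?_
    filter_upwards [h1 β hβ, h2 i β hi hβ, hF i] with x hx hxi hxF
    have h7 := (hFx x hx).2.2.2.1 _ hxi X
    refine h7.trans ?_
    constructor
    · intro h4
      filter_upwards [h4, (hU.ext _ _ hx).1.conc] with ν h5 h6
      rw [← hxF ν h6]
      exact h5
    · intro h4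
      filter_upwards [h4, (hU.ext _ _ hx).1.conc] with ν h5 h6
      rw [hxF ν h6]
      exact h5

end Pool.SND
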