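import Pool.Agent.SND.ScN
import Pool.Agent.SND.ScH
import Pool.Agent.SND.ScU

set_option autoImplicit false

namespace Pool.SND

open MagRad Set

universe u v

variable {κ lam : Ordinal.{u}} {W : Ultrafilter (Set Ordinal.{u})}

/-- if `κ` is `2 ^ κ`-supercompact, then there are coherent sequences of normal measures with
`o κ = μ` for all `μ` of size at most `2 ^ κ` -/
theorem exists_coherent (hW : IsSupercompactMeasure κ lam W) (hκ : κ ≤ lam)
    (hlam : lam.card = 2 ^ κ.card) {μ : Ordinal.{u}} (hμ : μ.card ≤ 2 ^ κ.card) :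
    ∃ (o : Ordinal.{u} → Ordinal.{u}) (U : Ordinal.{u} → Ordinal.{u} → Ultrafilter Ordinal.{u}),
      IsCoherent κ o U ∧ o κ = μ := by
  classical
  obtain ⟨o, U, hU⟩ := exists_maxCoh.{u}
  obtain ⟨h, h1, h2, h3⟩ := exists_seq hW hκ (fun x => o (kx x)) (μ := μ)
    (hlam ▸ hμ) fun h hh => not_listed hU hW hκ hlam h hh
  have hE := lim_ext hU hW hκ h1 h2 h3
  set D : Ordinal.{u} → Ultrafilter Ordinal.{u} := fun γ => W.bind fun x => U (kx x) (h γ x)
    with hD
  let o' : Ordinal.{u} → Ordinal.{u} := fun ν => if ν < κ then o ν else if ν = κ then μ else 0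
  let U' : Ordinal.{u} → Ordinal.{u} → Ultrafilter Ordinal.{u} :=
    fun ν => if ν < κ then U ν else D
  have ho1 : ∀ ν < κ, o' ν = o ν := fun ν hν => if_pos hν
  have ho2 : o' κ = μ := by
    change (if κ < κ then o κ else if κ = κ then μ else 0) = μ
    rw [if_neg (lt_irrefl κ), if_pos rfl]
  have ho3 : ∀ ν, κ < ν → o' ν = 0 := by
    intro ν hν
    change (if ν < κ then o ν else if ν = κ then μ else 0) = 0
    rw [if_neg hν.not_gt, if_neg hν.ne']
  have hU1 : ∀ ν < κ, U' ν = U ν := fun ν hν => if_pos hν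
  have hU2 : U' κ = D := if_neg (lt_irrefl κ)
  have key : ∀ α β, β < o' α → ExtC α β o' U' (U' α) (U' α β) := by
    intro α β hβ
    rcases lt_trichotomy α κ with h' | h' | h'
    · rw [ho1 α h'] at hβ
      rw [hU1 α h']
      exact (hU.ext α β hβ).congr (fun ν hν => (ho1 ν (hν.trans h')).symm)
        (fun ν hν => (hU1 ν (hν.trans h')).symm) fun i _ => rfl
    · subst h'
      rw [ho2] at hβ
      rw [hU2]
      exact (hE β hβ).congr (fun ν hν => (ho1 ν hν).symm)
        (fun ν hν => (hU1 ν hν).symm) fun i _ => rfl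
    · rw [ho3 α h'] at hβ
      exact absurd hβ not_lt_zero
  exact ⟨o', U', ⟨ho3, fun α β hβ => (key α β hβ).1, fun α β hβ => (key α β hβ).2⟩, ho2⟩

end Pool.SND
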