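import Pool.Agent.Helper23.CK.Defs
import Pool.Agent.MagRad.Defs

set_option autoImplicit false

/-!
# Saturated ideals and the diamond principle in a model of set theory

The definitions of the first section are statements about the elements of a structure `(M, E)`
(`E` is its membership relation) that only quantify over `M`.  `ZFC E`, `IsOrdinal`, `CardLe E A B`
(there is an injection from `A` to `B`) are defined in `Helper23.CK.Defs`, and `IsFun E f A B`
(`f` is a function from `A` to `B`), `App E f x y` (`(x, y) ∈ f`) and `IsOmega E o` (`o = ω`) in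
`Helper23.WT.Defs`.
-/

universe u v

namespace Pool.SND

open Pool.Agent.Helper23.CK (ZFC CardLe IsOrdinal Mem)
open Pool.Agent.Helper23.WT (IsFun App IsOmega)

section

variable {M : Type v} (E : M → M → Prop)

/-- `x ⊆ y` -/
def Sub (x y : M) : Prop := ∀ z, E z x → E z y

/-- `t` is a strongly inaccessible cardinal: an ordinal above `ω` such that every function from
an element of `t` to `t` is bounded in `t`, and such that the power set of every element of `t`
has an injection to an element of `t` -/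
def IsInaccessible (t : M) : Prop :=
  IsOrdinal E t ∧ (∃ o, IsOmega E o ∧ E o t) ∧
  (∀ a f, E a t → IsFun E f a t → ∃ b, E b t ∧ ∀ x y, App E f x y → E y b) ∧
  ∀ a, E a t → ∃ p b, (∀ x, E x p ↔ Sub E x a) ∧ E b t ∧ CardLe E p b

/-- `I` is an ideal on `t`: a proper ideal of subsets of `t` that contains the elements of `t`
(hence every bounded subset of `t`) and is closed under unions of fewer than `t` members -/
def IsIdeal (t I : M) : Prop :=
  (∀ x, E x I → Sub E x t) ∧ (∀ x y, E x I → Sub E y x → E y I) ∧ ¬ E t I ∧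
  (∀ a, E a t → E a I) ∧
  ∀ a f u, E a t → IsFun E f a I → (∀ z, E z u ↔ ∃ x y, App E f x y ∧ E z y) → E u I

/-- the ideal `I` on `t` is `t⁺`-saturated: every set of `I`-positive subsets of `t` whose
pairwise intersections belong to `I` has at most `t` elements -/
def IsSaturated (t I : M) : Prop :=
  ∀ F, (∀ x, E x F → Sub E x t ∧ ¬ E x I) →
    (∀ x y z, E x F → E y F → x ≠ y → (∀ w, E w z ↔ E w x ∧ E w y) → E z I) → CardLe E F t

/-- `C` is a closed unbounded subset of the ordinal `t` -/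
def IsClub (t C : M) : Prop :=
  Sub E C t ∧ (∀ a, E a t → ∃ c, E c C ∧ E a c) ∧
  ∀ a, E a t → (∃ b, E b a) → (∀ b, E b a → ∃ c, E c C ∧ E c a ∧ E b c) → E a C

/-- the diamond principle for `t`: there is a sequence `A` of sets `A a ⊆ a`, for `a < t`, such
that for every `X ⊆ t` and every closed unbounded `C ⊆ t` there is an `a` in `C` with
`A a = X ∩ a` -/
def Diamond (t : M) : Prop :=
  ∃ A, (∀ a, E a t → ∃ x, App E A a x ∧ Sub E x a) ∧
    (∀ a x y, App E A a x → App E A a y → x = y) ∧
    ∀ X C, Sub E X t → IsClub E t C → ∃ a x, E a C ∧ App E A a x ∧ ∀ z, E z x ↔ E z X ∧ E z a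

end

/-- `M` is a countable transitive model of ZFC in which some strongly inaccessible cardinal `t`
carries a `t⁺`-saturated ideal, while the diamond principle fails for `t` -/
def IsExample (M : ZFSet.{0}) : Prop :=
  M.IsTransitive ∧ {z | z ∈ M}.Countable ∧ ZFC (Mem M) ∧
    ∃ t I : {x // x ∈ M}, IsInaccessible (Mem M) t ∧ IsIdeal (Mem M) t I ∧
      IsSaturated (Mem M) t I ∧ ¬ Diamond (Mem M) t

/-- `J` is a `κ⁺`-complete `κ⁺`-saturated ideal on the ordinal `μ` that contains every bounded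
subset of `μ` -/
structure IsSatIdeal (κ μ : Ordinal.{u}) (J : Set (Set Ordinal.{u})) : Prop where
  empty : ∅ ∈ J
  down : ∀ X ∈ J, ∀ Y ⊆ X, Y ∈ J
  union : ∀ X : Ordinal.{u} → Set Ordinal.{u}, (∀ ξ < κ, X ξ ∈ J) → {ν | ∃ ξ < κ, ν ∈ X ξ} ∈ J
  bdd : ∀ ξ < μ, Set.Iic ξ ∈ J
  proper : Set.Iio μ ∉ J
  sat : ∀ 𝓔 : Set (Set Ordinal.{u}), (∀ X ∈ 𝓔, X ⊆ Set.Iio μ ∧ X ∉ J) →
    (∀ X ∈ 𝓔, ∀ Y ∈ 𝓔, X ≠ Y → X ∩ Y ∈ J) → Cardinal.mk 𝓔 ≤ Cardinal.lift.{u + 1} κ.card

end Pool.SND
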