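import Pool.Agent.MagRad.Stem
import Pool.Agent.SND.Defs

set_option autoImplicit false

/-!
# Truncated conditions and reflected families

`oc o κ k` is `o` with the value `k` at `κ`; the forcing `TopC (oc o κ k) U κ` is the
Magidor-Radin forcing for the measures `U κ i`, `i < k`.
-/

namespace Pool.SND

open MagRad Set

universe u

/-- `o` with the value `k` at `κ` -/
noncomputable def oc (o : Ordinal.{u} → Ordinal.{u}) (κ k : Ordinal.{u}) :
    Ordinal.{u} → Ordinal.{u} := Function.update o κ k

variable {κ k : Ordinal.{u}}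
variable {o : Ordinal.{u} → Ordinal.{u}} {U : Ordinal.{u} → Ordinal.{u} → Ultrafilter Ordinal.{u}}

theorem oc_self : oc o κ k κ = k := Function.update_self _ _ _

theorem oc_ne {α : Ordinal.{u}} (h : α ≠ κ) : oc o κ k α = o α := Function.update_of_ne h _ _

theorem oc_le (hk : k ≤ o κ) (α : Ordinal.{u}) : oc o κ k α ≤ o α := by
  by_cases h : α = κ
  · subst h
    rw [oc_self]
    exact hk
  · rw [oc_ne h]

/-- the truncation of a condition: the same sequence, as a condition for `oc o κ k` -/
def tk (hk : k ≤ o κ) (p : Cnd o U) : Cnd (oc o κ k) U where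
  dom := p.dom
  S := p.S
  sub := p.sub
  off := p.off
  mem α hα β hβ := p.mem α hα β (hβ.trans_le (oc_le hk α))

/-- the part of a condition below `κ` -/
noncomputable def low (p : Cnd (oc o κ k) U) : Cnd o U where
  dom := p.dom.filter (· < κ)
  S α := if α < κ then p.S α else ∅
  sub α := by
    by_cases h : α < κ
    · rw [if_pos h]; exact p.sub α
    · rw [if_neg h]; exact empty_subset _
  off α h := by
    by_cases h' : α < κ
    · rw [if_pos h']
      exact p.off α fun h2 => h (Finset.mem_filter.2 ⟨h2, h'⟩)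
    · rw [if_neg h']
  mem α h β hβ := by
    obtain ⟨h1, h2⟩ := Finset.mem_filter.1 h
    rw [if_pos h2]
    exact p.mem α h1 β (by rw [oc_ne h2.ne]; exact hβ)

/-- the reflection of the condition `p` to `α`: the points of `p` below `κ` and the point `α` with
the set `p.S κ ∩ α` -/
noncomputable def rf (H : IsCoherent κ o U) (α : Ordinal.{u}) (p : Cnd (oc o κ k) U)
    (h : Big o U α (p.S κ)) : Cnd o U := cat H α (low p) (p.S κ) h

/-- a regular family: `F α` is the Boolean value of `α ∈ X` in the forcing `TopC o U κ` -/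
def RegFam (o : Ordinal.{u} → Ordinal.{u})
    (U : Ordinal.{u} → Ordinal.{u} → Ultrafilter Ordinal.{u}) (κ : Ordinal.{u})
    (F : Ordinal.{u} → Set (Cnd o U)) : Prop := ∀ α < κ, IsReg (TopC o U κ) (F α)

/-- the conditions of the truncated forcing whose reflections to `U κ k`-almost all `α` decide
that `α` belongs to the set with the name `F` -/
def Dk (H : IsCoherent κ o U) (k : Ordinal.{u}) (F : Ordinal.{u} → Set (Cnd o U)) :
    Set (Cnd (oc o κ k) U) :=
  {p | p ∈ TopC (oc o κ k) U κ ∧
    {α | ∃ h : Big o U α (p.S κ), rf H α p h ∈ phi H κ α (F α)} ∈ U κ k}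

/-- the name of the complement -/
def cpl (κ : Ordinal.{u}) (F : Ordinal.{u} → Set (Cnd o U)) : Ordinal.{u} → Set (Cnd o U) :=
  fun α => nega (TopC o U κ) (F α)

/-- the conditions that force the set with the name `F` into the ideal -/
def Null (H : IsCoherent κ o U) (J : Set (Set Ordinal.{u})) (F : Ordinal.{u} → Set (Cnd o U)) :
    Set (Cnd o U) :=
  {p | p ∈ TopC o U κ ∧ ∃ Z ∈ J, ∀ (k : Ordinal.{u}) (hk : k < o κ), k ∉ Z →
    tk hk.le p ∈ Dk H k (cpl κ F)}

/-! ### first properties -/

theorem tk_le {hk : k ≤ o κ} {p q : Cnd o U} : tk hk p ≤ tk hk q ↔ p ≤ q := Iff.rfl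

theorem tk_top {hk : k ≤ o κ} {p : Cnd o U} : tk hk p ∈ TopC (oc o κ k) U κ ↔ p ∈ TopC o U κ :=
  Iff.rfl

theorem mem_low {p : Cnd (oc o κ k) U} {α : Ordinal.{u}} :
    α ∈ (low p).dom ↔ α ∈ p.dom ∧ α < κ := Finset.mem_filter

theorem low_S {p : Cnd (oc o κ k) U} {α : Ordinal.{u}} (h : α < κ) : (low p).S α = p.S α :=
  if_pos h

theorem low_below (p : Cnd (oc o κ k) U) : Below κ (low p) := fun _ h => (mem_low.1 h).2

theorem low_tk {hk : k ≤ o κ} (p : Cnd o U) : low (tk hk p) = rst p (Iio κ) := by
  refine Cnd.ext' (Finset.ext fun α => ?_) fun α hα => ?_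
  · rw [mem_low, mem_rst]
    exact Iff.rfl
  · have h := (mem_low.1 hα).2
    rw [low_S h, rst_S (show α ∈ Iio κ from h)]
    rfl

theorem oc_coh (H : IsCoherent κ o U) (hk : k ≤ o κ) : IsCoherent κ (oc o κ k) U where
  above α h := by
    rw [oc_ne h.ne']
    exact H.above α h
  normal α β h := H.normal α β (h.trans_le (oc_le hk α))
  coh α β h := by
    have h' := h.trans_le (oc_le hk α)
    obtain ⟨F, h1, h2, h3, h4⟩ := H.coh α β h'
    have hN := H.normal α β h'
    have hακ : α ≤ κ := by
      by_contra hc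
      rw [H.above α (not_le.1 hc)] at h'
      exact absurd h' not_lt_zero
    have hne : {ν | oc o κ k ν = o ν} ∈ U α β := by
      refine um_mono hN.conc fun ν hν => ?_
      exact oc_ne ((show ν < α from hν).trans_le hακ).ne
    refine ⟨F, fun i hi => ?_, h2, fun g hg => h3 g ?_, h4⟩
    · refine um_mono (um_inter (h1 i hi) hne) fun ν hν => ?_
      rw [mem_ofPred_eq, show oc o κ k ν = o ν from hν.2]
      exact hν.1
    · refine um_mono (um_inter hg hne) fun ν hν => ?_
      have := hν.1
      rw [mem_ofPred_eq, show oc o κ k ν = o ν from hν.2] at this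
      exact this

end Pool.SND
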