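import Pool.Agent.SND.Cnt

set_option autoImplicit false

namespace Pool.SND

open MagRad Set

universe u v

variable {κ k : Ordinal.{u}}
variable {o : Ordinal.{u} → Ordinal.{u}} {U : Ordinal.{u} → Ordinal.{u} → Ultrafilter Ordinal.{u}}

variable {W : Ultrafilter Ordinal.{u}}

/-- the power of an ordinal below `κ` -/
theorem Cnt2_pow (hW : IsNormalMeasure κ W) {δ : Ordinal.{u}} (hδ : δ < κ) :
    ∃ η < κ, 2 ^ δ.card ≤ η.card := by
  obtain ⟨η, hη, e, h1, h2⟩ := nm_pow hW hδ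
  refine ⟨η, hη, ?_⟩
  rw [← Cardinal.lift_le.{u + 1}, Cardinal.lift_two_power, ← Cardinal.mk_Iio_ordinal,
    ← Cardinal.mk_Iio_ordinal, ← Cardinal.mk_set]
  refine Cardinal.mk_le_of_injective (f := fun X : Set (Iio δ) =>
    (⟨e (Subtype.val '' X), h1 _ (by rintro x ⟨y, -, rfl⟩; exact y.2)⟩ : Iio η)) ?_
  intro X Y hXY
  have h3 := h2 _ (by rintro x ⟨y, -, rfl⟩; exact y.2) _ (by rintro x ⟨y, -, rfl⟩; exact y.2)
    (Subtype.ext_iff.1 hXY)
  exact Subtype.val_injective.image_injective h3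

theorem Cnt2_card (hW : IsNormalMeasure κ W) {δ : Ordinal.{u}} (hδ : δ < κ) :
    δ.card < κ.card := by
  obtain ⟨η, hη, h⟩ := Cnt2_pow hW hδ
  exact ((Cardinal.cantor _).trans_le h).trans_le (Ordinal.card_le_card hη.le)

theorem Cnt2_ord {c : Cardinal.{u}} (h : c < κ.card) : c.ord < κ :=
  (Cardinal.ord_lt_ord.2 h).trans_le (Cardinal.ord_card_le κ)

theorem Cnt2_two (hW : IsNormalMeasure κ W) {c : Cardinal.{u}} (h : c < κ.card) :
    2 ^ c < κ.card := by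
  obtain ⟨η, hη, h1⟩ := Cnt2_pow hW (Cnt2_ord h)
  rw [Cardinal.card_ord] at h1
  exact h1.trans_lt (Cnt2_card hW hη)

theorem Cnt2_aleph (hW : IsNormalMeasure κ W) : Cardinal.aleph0 < κ.card := by
  have := Cnt2_card hW (nm_omega hW)
  rwa [Ordinal.card_omega0] at this

/-- a small set is enumerated by an ordinal below `κ` -/
theorem Cnt2_enum {T : Type (u + 1)} (S : Set T) {c : Cardinal.{u}}
    (hS : Cardinal.mk S ≤ Cardinal.lift.{u + 1} c) (hc : c < κ.card) :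
    ∃ η < κ, ∃ e : T → Ordinal.{u}, (∀ t ∈ S, e t < η) ∧ ∀ t ∈ S, ∀ t' ∈ S, e t = e t' → t = t' := by
  classical
  refine ⟨c.ord, Cnt2_ord hc, ?_⟩
  have h1 : Cardinal.mk S ≤ Cardinal.mk (Iio c.ord) := by
    rw [Cardinal.mk_Iio_ordinal, Cardinal.card_ord]
    exact hS
  obtain ⟨f⟩ := h1
  refine ⟨fun t => if h : t ∈ S then (f ⟨t, h⟩ : Ordinal.{u}) else 0, ?_, ?_⟩
  · intro t ht
    beta_reduce
    rw [dif_pos ht]
    exact (f ⟨t, ht⟩).2
  · intro t ht t' ht' h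
    beta_reduce at h
    rw [dif_pos ht, dif_pos ht'] at h
    exact Subtype.ext_iff.1 (f.injective (Subtype.ext h))

/-- the number of the conditions with points at most `δ` -/
theorem Cnt2_low (hW : IsNormalMeasure κ W) {δ : Ordinal.{u}} (hδ : δ < κ) :
    ∃ c < κ.card, Cardinal.mk {w : Cnd o U | ∀ α ∈ w.dom, α ≤ δ} ≤ Cardinal.lift.{u + 1} c := by
  have hs := nm_succ hW hδ
  set b := (Order.succ δ).card with hb
  have hbκ : b < κ.card := Cnt2_card hW hs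
  have hmax : max b Cardinal.aleph0 < κ.card := max_lt hbκ (Cnt2_aleph hW)
  refine ⟨2 ^ (max b Cardinal.aleph0), Cnt2_two hW hmax, ?_⟩
  have hinj : Function.Injective (fun w : {w : Cnd o U | ∀ α ∈ w.dom, α ≤ δ} =>
      (({x | x.1 ∈ w.1.dom}, fun a => {x | x.1 ∈ w.1.S a.1}) :
        Set (Iio (Order.succ δ)) × (Iio (Order.succ δ) → Set (Iio (Order.succ δ))))) := by
    rintro ⟨w, hw⟩ ⟨w', hw'⟩ h
    simp only [Prod.mk.injEq] at h
    obtain ⟨h1, h2⟩ := h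
    apply Subtype.ext
    show w = w'
    have hd : w.dom = w'.dom := by
      ext α
      constructor
      · intro hα
        have h3 : (⟨α, Order.lt_succ_of_le (hw α hα)⟩ : Iio (Order.succ δ)) ∈
            {x : Iio (Order.succ δ) | x.1 ∈ w.dom} := hα
        rw [h1] at h3
        exact h3
      · intro hα
        have h3 : (⟨α, Order.lt_succ_of_le (hw' α hα)⟩ : Iio (Order.succ δ)) ∈
            {x : Iio (Order.succ δ) | x.1 ∈ w'.dom} := hα
        rw [← h1] at h3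
        exact h3
    refine Cnd.ext' hd fun α hα => ?_
    have hαδ := hw α hα
    have h4 := congrFun h2 ⟨α, Order.lt_succ_of_le hαδ⟩
    ext x
    by_cases hx : x < Order.succ δ
    · have h5 : ((⟨x, hx⟩ : Iio (Order.succ δ)) ∈ {x : Iio (Order.succ δ) | x.1 ∈ w.S α}) ↔
          ((⟨x, hx⟩ : Iio (Order.succ δ)) ∈ {x : Iio (Order.succ δ) | x.1 ∈ w'.S α}) := by
        rw [show {x : Iio (Order.succ δ) | x.1 ∈ w.S α} = {x | x.1 ∈ w'.S α} from h4]
      exact h5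
    · have h6 : ¬ x < α := fun h => hx (h.trans (Order.lt_succ_of_le hαδ))
      exact ⟨fun h => absurd (w.sub α h) h6, fun h => absurd (w'.sub α h) h6⟩
  have h1 := Cardinal.mk_le_of_injective hinj
  refine h1.trans ?_
  have ha : Cardinal.mk (Iio (Order.succ δ)) = Cardinal.lift.{u + 1} b :=
    Cardinal.mk_Iio_ordinal _
  have h2 : Cardinal.mk (Set (Iio (Order.succ δ)) × (Iio (Order.succ δ) → Set (Iio (Order.succ δ))))
      = Cardinal.lift.{u + 1} (2 ^ b * (2 ^ b) ^ b) := by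
    rw [Cardinal.mk_prod, Cardinal.lift_id, Cardinal.lift_id, Cardinal.mk_arrow, Cardinal.lift_id,
      Cardinal.lift_id, Cardinal.mk_set, ha, Cardinal.lift_mul,
      Cardinal.lift_power (2 ^ b) b, Cardinal.lift_two_power]
  rw [h2, Cardinal.lift_le, ← Cardinal.power_mul, ← Cardinal.power_add]
  refine Cardinal.power_le_power_left two_ne_zero ?_
  set d := max b Cardinal.aleph0 with hd
  have hbd : b ≤ d := le_max_left _ _
  have hd0 : Cardinal.aleph0 ≤ d := le_max_right _ _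
  calc b + b * b ≤ d + d * d := add_le_add hbd (mul_le_mul' hbd hbd)
    _ = d := by rw [Cardinal.mul_eq_self hd0, Cardinal.add_eq_self hd0]

theorem nm_low (hW : IsNormalMeasure κ W) {δ : Ordinal.{u}} (hδ : δ < κ) :
    ∃ η < κ, ∃ e : Cnd o U → Ordinal.{u}, (∀ w : Cnd o U, (∀ α ∈ w.dom, α ≤ δ) → e w < η) ∧
      ∀ w w' : Cnd o U, (∀ α ∈ w.dom, α ≤ δ) → (∀ α ∈ w'.dom, α ≤ δ) → e w = e w' → w = w' := by
  obtain ⟨c, hc, h⟩ := Cnt2_low (o := o) (U := U) hW hδ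
  obtain ⟨η, hη, e, h1, h2⟩ := Cnt2_enum _ h hc
  exact ⟨η, hη, e, fun w hw => h1 w hw, fun w w' hw hw' h => h2 w hw w' hw' h⟩

theorem nm_stem (hW : IsNormalMeasure κ W) :
    ∃ e : Cnd o U → Ordinal.{u}, (∀ w : Cnd o U, Below κ w → e w < κ) ∧
      ∀ w w' : Cnd o U, Below κ w → Below κ w' → e w = e w' → w = w' := by
  classical
  have hpos := theta_pos hW
  have h1 : ∀ δ : Ordinal.{u}, ∃ e : Cnd o U → Ordinal.{u}, δ < κ →
      (∀ w : Cnd o U, (∀ α ∈ w.dom, α ≤ δ) → e w < κ) ∧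
      ∀ w w' : Cnd o U, (∀ α ∈ w.dom, α ≤ δ) → (∀ α ∈ w'.dom, α ≤ δ) → e w = e w' → w = w' := by
    intro δ
    by_cases hδ : δ < κ
    · obtain ⟨η, hη, e, h2, h3⟩ := nm_low (o := o) (U := U) hW hδ
      exact ⟨e, fun _ => ⟨fun w hw => (h2 w hw).trans hη, h3⟩⟩
    · exact ⟨fun _ => 0, fun h => absurd h hδ⟩
  choose e he using h1
  have h4 : ∀ w : Cnd o U, ∃ μ, Below κ w → μ < κ ∧ ∀ α ∈ w.dom, α ≤ μ := by
    intro w
    by_cases hw : Below κ w
    · obtain ⟨μ, h5, h6⟩ := hw.bound hpos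
      exact ⟨μ, fun _ => ⟨h5, h6⟩⟩
    · exact ⟨0, fun h => absurd h hw⟩
  choose m hm using h4
  have hinf : Cardinal.aleph0 ≤ Cardinal.mk (Iio κ) := by
    rw [Cardinal.mk_Iio_ordinal, ← Cardinal.lift_aleph0.{u + 1, u}, Cardinal.lift_le]
    exact (Cnt2_aleph hW).le
  have h7 : Cardinal.mk (Iio κ × Iio κ) ≤ Cardinal.mk (Iio κ) := by
    rw [Cardinal.mk_prod, Cardinal.lift_id, Cardinal.mul_eq_self hinf]
  obtain ⟨f⟩ := h7
  refine ⟨fun w => if hw : Below κ w then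
    (f (⟨m w, mem_Iio.2 (hm w hw).1⟩,
      ⟨e (m w) w, mem_Iio.2 ((he (m w) (hm w hw).1).1 w (hm w hw).2)⟩) : Ordinal.{u})
    else 0, ?_, ?_⟩
  · intro w hw
    beta_reduce
    rw [dif_pos hw]
    exact Subtype.prop _
  · intro w w' hw hw' h
    beta_reduce at h
    rw [dif_pos hw, dif_pos hw'] at h
    have h8 := f.injective (Subtype.ext h)
    rw [Prod.mk.injEq] at h8
    have h9 : m w = m w' := Subtype.ext_iff.1 h8.1
    have h10 : e (m w) w = e (m w') w' := Subtype.ext_iff.1 h8.2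
    rw [← h9] at h10
    have h11 := (hm w' hw').2
    rw [← h9] at h11
    exact (he (m w) (hm w hw).1).2 w w' (hm w hw).2 h11 h10

/-- the sequences of length `ε` of sets of conditions with points at most `δ` can be enumerated
by the ordinals below some `η < κ` -/
theorem nm_fam (hW : IsNormalMeasure κ W) {δ ε : Ordinal.{u}} (hδ : δ < κ) (hε : ε < κ) :
    ∃ η < κ, ∃ Y : Ordinal.{u} → Ordinal.{u} → Set (Cnd o U),
      ∀ c : Ordinal.{u} → Set (Cnd o U), (∀ ξ < ε, ∀ w ∈ c ξ, ∀ α ∈ w.dom, α ≤ δ) →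
        ∃ i < η, ∀ ξ < ε, Y i ξ = c ξ := by
  classical
  obtain ⟨l, hl, hL⟩ := Cnt2_low (o := o) (U := U) hW hδ
  set L : Set (Cnd o U) := {w : Cnd o U | ∀ α ∈ w.dom, α ≤ δ} with hLdef
  have hprod : l * ε.card < κ.card :=
    Cardinal.mul_lt_of_lt (Cnt2_aleph hW).le hl (Cnt2_card hW hε)
  have hcard : Cardinal.mk (univ : Set (Iio ε → Set L)) ≤
      Cardinal.lift.{u + 1} (2 ^ (l * ε.card)) := by
    rw [Cardinal.mk_univ, Cardinal.mk_arrow, Cardinal.lift_id, Cardinal.lift_id, Cardinal.mk_set,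
      ← Cardinal.power_mul, Cardinal.lift_two_power, Cardinal.mk_Iio_ordinal, Cardinal.lift_mul]
    exact Cardinal.power_le_power_left two_ne_zero (mul_le_mul' hL le_rfl)
  obtain ⟨η, hη, e, h1, h2⟩ := Cnt2_enum _ hcard (Cnt2_two hW hprod)
  refine ⟨η, hη, fun i ξ => {w | ∃ t : Iio ε → Set L, e t = i ∧ ∃ (hξ : ξ < ε) (hw : w ∈ L),
    (⟨w, hw⟩ : L) ∈ t ⟨ξ, hξ⟩}, ?_⟩
  intro c hc
  refine ⟨e fun ξ => {w | w.1 ∈ c ξ.1}, h1 _ (mem_univ _), ?_⟩
  intro ξ hξ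
  ext w
  constructor
  · rintro ⟨t, ht, hξ', hw, h3⟩
    have h4 := h2 _ (mem_univ _) _ (mem_univ _) ht
    rw [h4] at h3
    exact h3
  · intro hw
    exact ⟨_, rfl, hξ, hc ξ hξ w hw, hw⟩

end Pool.SND
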