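import Pool.Agent.SND.Rfl
import Pool.Agent.SND.Cnt2

set_option autoImplicit false

namespace Pool.SND

open MagRad Set

universe u v

variable {κ k : Ordinal.{u}}
variable {o : Ordinal.{u} → Ordinal.{u}} {U : Ordinal.{u} → Ordinal.{u} → Ultrafilter Ordinal.{u}}

/-- the points at which a condition can be reflected -/
private def okPt (o : Ordinal.{u} → Ordinal.{u})
    (U : Ordinal.{u} → Ordinal.{u} → Ultrafilter Ordinal.{u}) (κ : Ordinal.{u}) (p : Cnd o U) :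
    Set Ordinal.{u} :=
  {α | α < κ ∧ α ∈ p.S κ ∧ Big o U α (p.S κ) ∧ ∀ β ∈ p.dom, β < κ → β < α}

private theorem okPt_mem (H : IsCoherent κ o U) (hk : k < o κ) {p : Cnd o U}
    (hp : p ∈ TopC o U κ) : okPt o U κ p ∈ U κ k := by
  have hN := H.normal κ k hk
  obtain ⟨μ, hμ, hμb⟩ := Below.bound (theta_pos hN) (below_rst (q := p) (z := κ))
  have h1 : p.S κ ∈ U κ k := p.mem κ hp.1 k hk
  have h2 : {ν | Big o U ν (p.S κ)} ∈ U κ k := (p.big hp.1).reflect H hk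
  refine um_mono (um_inter (um_inter hN.conc h1) (um_inter h2 (hN.tail μ hμ))) ?_
  rintro α ⟨⟨ha, hb⟩, hc, hd⟩
  exact ⟨ha, hb, hc, fun β hβ hβκ => lt_of_le_of_lt (hμb β (mem_rst.2 ⟨hβ, hβκ⟩)) hd⟩

private theorem okPt_rf_top (H : IsCoherent κ o U) (hk : k < o κ) {p : Cnd o U}
    {α : Ordinal.{u}} (hα : α ∈ okPt o U κ p) (h : Big o U α ((tk hk.le p).S κ)) :
    rf H α (tk hk.le p) h ∈ TopC o U α := by
  refine cat_top fun β hβ => ?_
  obtain ⟨h1, h2⟩ := mem_low.1 hβ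
  exact hα.2.2.2 β h1 h2

private theorem okPt_le (H : IsCoherent κ o U) (hk : k < o κ) {p : Cnd o U}
    (hp : p ∈ TopC o U κ) {α : Ordinal.{u}} (hα : α ∈ okPt o U κ p)
    (h : Big o U α ((tk hk.le p).S κ)) {A : Set Ordinal.{u}} (hA : Big o U κ A)
    (hAp : A ⊆ p.S κ) : cat H κ (rf H α (tk hk.le p) h) A hA ≤ p := by
  obtain ⟨hακ, hαS, -, hαb⟩ := hα
  refine Cnd.le_def.2 ⟨fun β hβ => ?_, fun β hβ => ?_⟩
  · rw [mem_cat]
    rcases (hp.2 β hβ).eq_or_lt with h1 | h1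
    · exact Or.inl h1
    · refine Or.inr ?_
      unfold rf
      rw [mem_cat]
      exact Or.inr (mem_low.2 ⟨hβ, h1⟩)
  · rw [mem_cat] at hβ
    rcases hβ with rfl | hβ
    · refine ⟨β, hp.1, le_rfl, fun γ _ h => h, ?_, Or.inl rfl⟩
      rw [cat_S_top]
      exact fun x hx => hAp hx.1
    · unfold rf at hβ
      rw [mem_cat] at hβ
      rcases hβ with rfl | hβ
      · refine ⟨κ, hp.1, hακ.le, fun γ hγ hβγ => ?_, ?_, Or.inr hαS⟩
        · by_contra hc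
          exact absurd hβγ (not_le.2 (hαb γ hγ (not_le.1 hc)))
        · rw [cat_S hακ.ne]
          unfold rf
          rw [cat_S_top]
          exact fun x hx => hx.1
      · obtain ⟨h1, h2⟩ := mem_low.1 hβ
        refine ⟨β, h1, le_rfl, fun γ _ h => h, ?_, Or.inl rfl⟩
        rw [cat_S h2.ne]
        unfold rf
        rw [cat_S (hαb β h1 h2).ne, low_S h2]
        exact fun x hx => hx

theorem cpl_reg {F : Ordinal.{u} → Set (Cnd o U)} (hF : RegFam o U κ F) :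
    RegFam o U κ (cpl κ F) := fun α hα => nega_reg TopC_comp (hF α hα).down

theorem dk_inter (H : IsCoherent κ o U) (hk : k < o κ) {δ : Ordinal.{u}} (hδ : δ < κ)
    {F : Ordinal.{u} → Ordinal.{u} → Set (Cnd o U)} (hF : ∀ ξ < δ, RegFam o U κ (F ξ))
    {p : Cnd (oc o κ k) U} (hp : p ∈ TopC (oc o κ k) U κ) (h : ∀ ξ < δ, p ∈ Dk H k (F ξ)) :
    p ∈ Dk H k (fun α => {q | q ∈ TopC o U κ ∧ ∀ ξ < δ, q ∈ F ξ α}) := by
  refine ⟨hp, ?_⟩
  have h1 : {α | ∀ i : {ξ // ξ < δ}, ∃ h : Big o U α (p.S κ),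
      rf H α p h ∈ phi H κ α (F i.1 α)} ∈ U κ k :=
    nm_complete (H.normal κ k hk) hδ (fun i : {ξ // ξ < δ} => i.1) Subtype.val_injective
      (fun i => i.2) (Q := fun i α => ∃ h : Big o U α (p.S κ),
        rf H α p h ∈ phi H κ α (F i.1 α)) fun i => (h i.1 i.2).2
  refine um_mono (um_inter (um_inter h1 (rf_top H hk hp)) (H.normal κ k hk).conc) ?_
  rintro α ⟨⟨ha, hB, hT⟩, hακ⟩
  have hex : ∀ i : {ξ // ξ < δ}, ∃ (A : Set Ordinal.{u}) (hA : Big o U κ A),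
      cat H κ (rf H α p hB) A hA ∈ F i.1 α := by
    intro i
    obtain ⟨_, _, A, hA, h3⟩ := ha i
    exact ⟨A, hA, h3⟩
  choose A hA hm using hex
  have hB' : Big o U κ {z | ∀ i, z ∈ A i} := fun γ hγ =>
    nm_complete (H.normal κ γ hγ) hδ (fun i : {ξ // ξ < δ} => i.1) Subtype.val_injective
      (fun i => i.2) (Q := fun i z => z ∈ A i) fun i => hA i γ hγ
  have hb : Below κ (rf H α p hB) := below_top hακ hT
  refine ⟨hB, hT, _, hB', cat_top hb, fun ξ hξ => ?_⟩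
  exact (hF ξ hξ α hακ).down _ (hm ⟨ξ, hξ⟩) _ (cat_le le_rfl hb fun z hz => hz ⟨ξ, hξ⟩)

theorem dk_mono (H : IsCoherent κ o U) (hk : k < o κ) {F G : Ordinal.{u} → Set (Cnd o U)}
    (hF : RegFam o U κ F) {p : Cnd o U} (hp : p ∈ TopC o U κ)
    (hFG : ∀ α < κ, ∀ r ≤ p, r ∈ F α → r ∈ G α) (h : tk hk.le p ∈ Dk H k F) :
    tk hk.le p ∈ Dk H k G := by
  refine ⟨h.1, um_mono (um_inter h.2 (okPt_mem H hk hp)) ?_⟩
  rintro α ⟨⟨hB, hT, A, hA, hm⟩, hα⟩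
  have hA' : Big o U κ (A ∩ p.S κ) := hA.inter (p.big hp.1)
  refine ⟨hB, hT, _, hA', hFG α hα.1 _ (okPt_le H hk hp hα hB hA' inter_subset_right) ?_⟩
  exact (hF α hα.1).down _ hm _ (cat_le le_rfl (below_top hα.1 hT) inter_subset_left)

theorem dk_of_mem (H : IsCoherent κ o U) (hk : k < o κ) {F : Ordinal.{u} → Set (Cnd o U)}
    (hF : RegFam o U κ F) {p : Cnd o U} (hp : p ∈ TopC o U κ) (h : {α | p ∈ F α} ∈ U κ k) :
    tk hk.le p ∈ Dk H k F := by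
  refine ⟨tk_top.2 hp, um_mono (um_inter h (okPt_mem H hk hp)) ?_⟩
  rintro α ⟨hm, hα⟩
  have hB : Big o U α ((tk hk.le p).S κ) := hα.2.2.1
  exact ⟨hB, okPt_rf_top H hk hα hB, _, p.big hp.1,
    (hF α hα.1).down _ hm _ (okPt_le H hk hp hα hB (p.big hp.1) fun x hx => hx)⟩

theorem dk_wit (H : IsCoherent κ o U) (hk : k < o κ) {F : Ordinal.{u} → Set (Cnd o U)}
    (hF : RegFam o U κ F) {p : Cnd o U} (hp : p ∈ TopC o U κ) (h : tk hk.le p ∈ Dk H k F)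
    {Y : Set Ordinal.{u}} (hY : Y ∈ U κ k) : ∃ α ∈ Y, α < κ ∧ ∃ r ≤ p, r ∈ F α := by
  obtain ⟨α, ⟨⟨hB, hT, A, hA, hm⟩, hαY⟩, hα⟩ :=
    um_ne (um_inter (um_inter h.2 hY) (okPt_mem H hk hp))
  have hA' : Big o U κ (A ∩ p.S κ) := hA.inter (p.big hp.1)
  refine ⟨α, hαY, hα.1, _, okPt_le H hk hp hα hB hA' inter_subset_right, ?_⟩
  exact (hF α hα.1).down _ hm _ (cat_le le_rfl (below_top hα.1 hT) inter_subset_left)

end Pool.SND
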