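import Pool.Agent.SND.Rfl

set_option autoImplicit false

namespace Pool.SND

open MagRad Set

universe u v

variable {κ k : Ordinal.{u}}
variable {o : Ordinal.{u} → Ordinal.{u}} {U : Ordinal.{u} → Ordinal.{u} → Ultrafilter Ordinal.{u}}

/-- choosing extensions of the reflections of `p` and lifting them -/
theorem DkR_lift (H : IsCoherent κ o U) (hk : k < o κ) {p : Cnd (oc o κ k) U}
    (hp : p ∈ TopC (oc o κ k) U κ) (Q : Ordinal.{u} → Cnd o U → Prop)
    (h : {α | ∃ (h : Big o U α (p.S κ)) (r : Cnd o U), r ∈ TopC o U α ∧ r ≤ rf H α p h ∧ Q α r} ∈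
      U κ k) :
    ∃ q ∈ TopC (oc o κ k) U κ, q ≤ p ∧ {α | ∃ h : Big o U α (q.S κ), Q α (rf H α q h)} ∈ U κ k := by
  classical
  let r : Ordinal.{u} → Cnd o U := fun α =>
    if h : ∃ (h : Big o U α (p.S κ)) (r : Cnd o U), r ∈ TopC o U α ∧ r ≤ rf H α p h ∧ Q α r
    then h.choose_spec.choose else low p
  have hr : ∀ α, (∃ (h : Big o U α (p.S κ)) (r : Cnd o U), r ∈ TopC o U α ∧
      r ≤ rf H α p h ∧ Q α r) → ∃ h : Big o U α (p.S κ),
      r α ∈ TopC o U α ∧ r α ≤ rf H α p h ∧ Q α (r α) := by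
    intro α hα
    refine ⟨hα.choose, ?_⟩
    have h1 : r α = hα.choose_spec.choose := dif_pos hα
    rw [h1]
    exact hα.choose_spec.choose_spec
  obtain ⟨q, hq, hq2⟩ := rf_lift H hk r (um_mono h fun α hα => by
    obtain ⟨-, h2, -, -⟩ := hr α hα
    exact h2)
  refine ⟨q, hq, ?_, ?_⟩
  · refine le_rf H hk hp hq (um_mono (um_inter h hq2) ?_)
    rintro α ⟨h1, h2, h3⟩
    obtain ⟨h4, -, h5, -⟩ := hr α h1
    exact ⟨h2, h4, h3 ▸ h5⟩
  · refine um_mono (um_inter h hq2) ?_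
    rintro α ⟨h1, h2, h3⟩
    obtain ⟨h4, -, -, h5⟩ := hr α h1
    exact ⟨h2, h3 ▸ h5⟩

theorem DkR_conc (H : IsCoherent κ o U) (hk : k < o κ) : {α | α < κ} ∈ U κ k :=
  (H.normal κ k hk).conc

theorem dk_reg (H : IsCoherent κ o U) (hk : k < o κ) {F : Ordinal.{u} → Set (Cnd o U)}
    (hF : RegFam o U κ F) : IsReg (TopC (oc o κ k) U κ) (Dk H k F) := by
  refine ⟨fun p hp => hp.1, ?_, ?_⟩
  · rintro p ⟨hp, hp2⟩ q hq
    refine ⟨TopC_comp p hp q hq, ?_⟩
    refine um_mono (um_inter (um_inter hp2 (rf_le H hk hp hq)) (DkR_conc H hk)) ?_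
    rintro α ⟨⟨⟨h1, h2⟩, h3, h4, h5⟩, hα⟩
    exact ⟨h3, (phi_reg hα (hF α hα)).down _ h2 _ h5⟩
  · intro p hp hd
    refine ⟨hp, ?_⟩
    by_contra hcon
    have h1 := um_not_setOf hcon
    obtain ⟨q, hq, hqp, hq2⟩ := DkR_lift H hk hp
      (fun α r => ∀ r' ≤ r, r' ∉ phi H κ α (F α)) (by
        refine um_mono (um_inter (um_inter h1 (rf_top H hk hp)) (DkR_conc H hk)) ?_
        rintro α ⟨⟨h2, h3, h4⟩, hα⟩
        have hα' : α < κ := hα
        by_contra h5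
        apply h2
        refine ⟨h3, (phi_reg hα' (hF α hα')).dense _ h4 fun q hq => ?_⟩
        by_contra h6
        push Not at h6
        exact h5 ⟨h3, q, TopC_comp _ h4 q hq, hq, fun r' hr' hr'' => h6 r' hr' hr''⟩)
    obtain ⟨r, hrq, hr⟩ := hd q hqp
    obtain ⟨α, ⟨h3, h4⟩, ⟨h5, h6, h7⟩, h8, h9⟩ :=
      um_ne (um_inter hr.2 (um_inter (rf_le H hk hq hrq) hq2))
    exact h9 _ h7 h4

theorem DkR_cpl {F : Ordinal.{u} → Set (Cnd o U)} (hF : RegFam o U κ F) :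
    RegFam o U κ (cpl κ F) := fun α hα => nega_reg TopC_comp (hF α hα).down

theorem dk_neg (H : IsCoherent κ o U) (hk : k < o κ) {F : Ordinal.{u} → Set (Cnd o U)}
    (hF : RegFam o U κ F) : Dk H k (cpl κ F) = nega (TopC (oc o κ k) U κ) (Dk H k F) := by
  ext p
  constructor
  · intro hp
    refine ⟨hp.1, fun q hq hqD => ?_⟩
    have h1 := (dk_reg H hk (DkR_cpl hF)).down p hp q hq
    obtain ⟨α, ⟨⟨h2, h3⟩, h4, h5⟩, hα⟩ := um_ne (um_inter (um_inter h1.2 hqD.2) (DkR_conc H hk))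
    have hα' : α < κ := hα
    have h6 : phi H κ α (cpl κ F α) = nega (TopC o U α) (phi H κ α (F α)) :=
      phi_neg hα' (hF α hα')
    rw [h6] at h3
    exact h3.2 _ le_rfl h5
  · rintro ⟨hp, hp2⟩
    refine ⟨hp, ?_⟩
    by_contra hcon
    have h1 := um_not_setOf hcon
    obtain ⟨q, hq, hqp, hq2⟩ := DkR_lift H hk hp (fun α r => r ∈ phi H κ α (F α)) (by
        refine um_mono (um_inter (um_inter h1 (rf_top H hk hp)) (DkR_conc H hk)) ?_
        rintro α ⟨⟨h2, h3, h4⟩, hα⟩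
        have hα' : α < κ := hα
        have h6 : phi H κ α (cpl κ F α) = nega (TopC o U α) (phi H κ α (F α)) :=
          phi_neg hα' (hF α hα')
        by_contra h5
        apply h2
        refine ⟨h3, ?_⟩
        rw [h6]
        refine ⟨h4, fun q hq hqD => h5 ⟨h3, q, TopC_comp _ h4 q hq, hq, hqD⟩⟩)
    exact hp2 q hqp ⟨hq, hq2⟩

end Pool.SND
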