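import Pool.Agent.SND.Cap
import Pool.Agent.SND.DkR
import Pool.Agent.SND.DkM

set_option autoImplicit false

namespace Pool.SND

open MagRad Set

universe u v

variable {κ k : Ordinal.{u}}
variable {o : Ordinal.{u} → Ordinal.{u}} {U : Ordinal.{u} → Ordinal.{u} → Ultrafilter Ordinal.{u}}

/-- `κ` remains regular -/
theorem reg_bound (H : IsCoherent κ o U) (hL : IsLong κ (o κ)) {δ : Ordinal.{u}} (hδ : δ < κ)
    (G : Ordinal.{u} → Ordinal.{u} → Set (Cnd o U))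
    (hG : ∀ ξ < δ, ∀ α < κ, IsReg (TopC o U κ) (G ξ α)) {p : Cnd o U} (hp : p ∈ TopC o U κ)
    (h : ∀ ξ < δ, ∀ q ≤ p, ∃ r ≤ q, ∃ α < κ, r ∈ G ξ α) :
    ∃ q ≤ p, ∃ γ < κ, ∀ ξ < δ, ∀ r ≤ q, ∃ s ≤ r, ∃ α < γ, s ∈ G ξ α := by
  classical
  set E : Ordinal.{u} → Ordinal.{u} → Set (Cnd o U) := fun ξ α =>
    supr (TopC o U κ) {D | ∃ α' < α, D = G ξ α'} with hE
  have hEr : ∀ ξ, RegFam o U κ (E ξ) := fun ξ α _ => supr_reg TopC_comp _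
  have hcap : ∀ ξ, ∃ γ < o κ, ξ < δ → ∀ (k : Ordinal.{u}) (hk : k < o κ), γ ≤ k →
      ∀ q ≤ tk hk.le p, ∃ r ≤ q, ∃ a ∈ {a | a ∈ TopC o U κ ∧ ∃ α < κ, a ∈ G ξ α},
        r ≤ tk hk.le a := by
    intro ξ
    by_cases hξ : ξ < δ
    · obtain ⟨γ, h1, h2⟩ := capture H hL (𝒜 := {a | a ∈ TopC o U κ ∧ ∃ α < κ, a ∈ G ξ α})
        (fun a ha => ha.1) hp (fun q hq => by
          obtain ⟨r, hr, α, hα, hrG⟩ := h ξ hξ q hq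
          exact ⟨r, hr, r, ⟨(hG ξ hξ α hα).sub hrG, α, hα, hrG⟩, le_rfl⟩)
      exact ⟨γ, h1, fun _ => h2⟩
    · exact ⟨0, hL.pos, fun h => absurd h hξ⟩
  choose f hf hf2 using hcap
  obtain ⟨k, hk, hk2⟩ := hL.cof f fun ξ _ => hf ξ
  have hDk : ∀ ξ < δ, tk hk.le p ∈ Dk H k (E ξ) := by
    intro ξ hξ
    have hR := dk_reg H hk (hEr ξ)
    refine hR.dense _ (tk_top.2 hp) fun q hq => ?_
    obtain ⟨r, hr, a, ⟨ha, α, hα, haG⟩, hra⟩ := hf2 ξ hξ k hk (hk2 ξ (hξ.trans hδ)) q hq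
    refine ⟨r, hr, hR.down _ (dk_of_mem H hk (hEr ξ) ha ?_) r hra⟩
    refine um_mono ((H.normal κ k hk).tail α hα) fun β hβ => ?_
    exact mem_supr_of_mem (K := TopC o U κ)
      (show G ξ α ∈ {D | ∃ α' < β, D = G ξ α'} from ⟨α, hβ, rfl⟩) (hG ξ hξ α hα) haG
  have hI : RegFam o U κ fun α => {q | q ∈ TopC o U κ ∧ ∀ ξ < δ, q ∈ E ξ α} := by
    intro α hα
    refine ⟨fun q hq => hq.1, fun q hq r hr => ⟨TopC_comp q hq.1 r hr, fun ξ hξ =>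
      (hEr ξ α hα).down q (hq.2 ξ hξ) r hr⟩, fun q hq h => ⟨hq, fun ξ hξ =>
      (hEr ξ α hα).dense q hq fun r hr => ?_⟩⟩
    obtain ⟨s, hs, hs2⟩ := h r hr
    exact ⟨s, hs, hs2.2 ξ hξ⟩
  obtain ⟨α, _, hα, r, hr, hr2⟩ := dk_wit H hk hI hp
    (dk_inter H hk hδ (fun ξ _ => hEr ξ) (tk_top.2 hp) hDk) (Y := Set.univ) (U κ k).univ_mem
  refine ⟨r, hr, α, hα, fun ξ hξ s hs => ?_⟩
  obtain ⟨t, ht, D, ⟨α', hα', rfl⟩, htD⟩ := (hr2.2 ξ hξ).2 s hs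
  exact ⟨t, ht, α', hα', htD⟩

end Pool.SND
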