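import Pool.Agent.SND.Base

set_option autoImplicit false

namespace Pool.SND

open MagRad Set

universe u v

variable {κ k : Ordinal.{u}}
variable {o : Ordinal.{u} → Ordinal.{u}} {U : Ordinal.{u} → Ordinal.{u} → Ultrafilter Ordinal.{u}}

/-- `μ` is a limit ordinal of cofinality greater than `κ` -/
structure IsLong (κ μ : Ordinal.{u}) : Prop where
  pos : 0 < μ
  succ : ∀ ξ < μ, Order.succ ξ < μ
  cof : ∀ f : Ordinal.{u} → Ordinal.{u}, (∀ ξ < κ, f ξ < μ) → ∃ γ < μ, ∀ ξ < κ, f ξ ≤ γ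

theorem IsSatIdeal.long {μ : Ordinal.{u}} {J : Set (Set Ordinal.{u})} (hJ : IsSatIdeal κ μ J) :
    IsLong κ μ where
  pos := by
    by_contra h
    have h0 : μ = 0 := nonpos_iff_eq_zero.1 (not_lt.1 h)
    refine hJ.proper ?_
    have : Iio μ = ∅ := by
      rw [h0]
      exact Set.eq_empty_of_forall_notMem fun x hx => not_lt_zero (show x < 0 from hx)
    rw [this]
    exact hJ.empty
  succ ξ hξ := by
    by_contra h
    refine hJ.proper (hJ.down _ (hJ.bdd ξ hξ) _ fun x hx => ?_)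
    exact Order.lt_succ_iff.1 ((show x < μ from hx).trans_le (not_lt.1 h))
  cof f hf := by
    by_contra h
    push Not at h
    refine hJ.proper (hJ.down _ (hJ.union (fun ξ => Iic (f ξ)) fun ξ hξ => hJ.bdd _ (hf ξ hξ)) _
      fun x hx => ?_)
    obtain ⟨ξ, hξ, h'⟩ := h x hx
    exact ⟨ξ, hξ, h'.le⟩

/-- the intersection of two conditions with the same part below `κ` -/
theorem same_stem (H : IsCoherent κ o U) {p q : Cnd o U} (hp : p ∈ TopC o U κ)
    (hq : q ∈ TopC o U κ) (h : rst p (Iio κ) = rst q (Iio κ)) :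
    ∃ r ∈ TopC o U κ, rst r (Iio κ) = rst p (Iio κ) ∧ r.S κ = p.S κ ∩ q.S κ ∧ r ≤ p ∧ r ≤ q := by
  have e1 := top_eq_cat (H := H) hp
  have e2 := top_eq_cat (H := H) hq
  have hB : Big o U κ (p.S κ ∩ q.S κ) := (p.big hp.1).inter (q.big hq.1)
  have hb : Below κ (rst p (Iio κ)) := below_rst
  refine ⟨cat H κ (rst p (Iio κ)) (p.S κ ∩ q.S κ) hB, cat_top hb, ?_, ?_, ?_, ?_⟩
  · refine Cnd.ext' (Finset.ext fun α => ?_) fun α hα => ?_
    · rw [mem_rst, mem_cat]
      constructor
      · rintro ⟨h1 | h1, h2⟩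
        · exact absurd h1 (show α < κ from h2).ne
        · exact h1
      · intro h1
        exact ⟨Or.inr h1, hb α h1⟩
    · have h1 : α < κ := (mem_rst.1 hα).2
      rw [rst_S (show α ∈ Iio κ from h1), cat_S h1.ne]
  · rw [cat_S_top]
    exact inter_eq_left.2 fun x hx => p.sub κ hx.1
  · conv_rhs => rw [e1]
    exact cat_le le_rfl hb inter_subset_left
  · conv_rhs => rw [e2]
    refine cat_le ?_ ?_ inter_subset_right
    · rw [h]
    · exact below_rst


end Pool.SND
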