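import Pool.Agent.SND.Rfl
import Pool.Agent.SND.Cnt2
import Pool.Agent.SND.Lng

set_option autoImplicit false

namespace Pool.SND

open MagRad Set

universe u v

variable {κ k : Ordinal.{u}}
variable {o : Ordinal.{u} → Ordinal.{u}} {U : Ordinal.{u} → Ordinal.{u} → Ultrafilter Ordinal.{u}}

/-- pigeonhole principle for stems -/
private theorem cap_ph (H : IsCoherent κ o U) (hL : IsLong κ (o κ))
    {Q : Cnd o U → Ordinal.{u} → Prop}
    (h : ∀ γ < o κ, ∃ k, γ ≤ k ∧ ∃ t : Cnd o U, Below κ t ∧ Q t k) :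
    ∃ t : Cnd o U, Below κ t ∧ ∀ γ < o κ, ∃ k, γ ≤ k ∧ Q t k := by
  classical
  by_contra hcon
  push Not at hcon
  have h2 : ∀ t : Cnd o U, ∃ γ < o κ, Below κ t → ∀ k, γ ≤ k → ¬ Q t k := by
    intro t
    by_cases ht : Below κ t
    · obtain ⟨γ, hγ, h'⟩ := hcon t ht
      exact ⟨γ, hγ, fun _ => h'⟩
    · exact ⟨0, hL.pos, fun h' => absurd h' ht⟩
  choose g hg hg' using h2
  obtain ⟨e, he, hinj⟩ := nm_stem (o := o) (U := U) (H.normal κ 0 hL.pos)
  let f : Ordinal.{u} → Ordinal.{u} := fun ξ =>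
    if h' : ∃ t : Cnd o U, Below κ t ∧ e t = ξ then g h'.choose else 0
  have hf : ∀ ξ < κ, f ξ < o κ := by
    intro ξ _
    by_cases h' : ∃ t : Cnd o U, Below κ t ∧ e t = ξ
    · simp only [f, dif_pos h']
      exact hg _
    · simp only [f, dif_neg h']
      exact hL.pos
  obtain ⟨γ, hγ, hγf⟩ := hL.cof f hf
  obtain ⟨k, hk, t, ht, hQ⟩ := h γ hγ
  have h' : ∃ t' : Cnd o U, Below κ t' ∧ e t' = e t := ⟨t, ht, rfl⟩
  have h1 : f (e t) = g t := by
    have h3 : h'.choose = t := hinj _ _ h'.choose_spec.1 ht h'.choose_spec.2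
    simp only [f, dif_pos h']
    rw [h3]
  have h3 := hγf (e t) (he t ht)
  rw [h1] at h3
  exact hg' t ht k (h3.trans hk) hQ

/-- the stem `t` has a witness in the forcing truncated at `k` -/
private def CapP (H : IsCoherent κ o U) (p : Cnd o U) (𝒜 : Set (Cnd o U)) (t : Cnd o U)
    (k : Ordinal.{u}) : Prop :=
  ∃ (hk : k < o κ) (B : Set Ordinal.{u}) (hB : Big (oc o κ k) U κ B),
    cat (oc_coh H hk.le) κ (tk hk.le t) B hB ≤ tk hk.le p ∧
    ∀ r ≤ cat (oc_coh H hk.le) κ (tk hk.le t) B hB, ∀ a ∈ 𝒜, ¬ r ≤ tk hk.le a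

/-- the stems with unboundedly many witnesses -/
private def CapW (H : IsCoherent κ o U) (p : Cnd o U) (𝒜 : Set (Cnd o U)) : Set (Cnd o U) :=
  {t | Below κ t ∧ ∀ γ < o κ, ∃ k, γ ≤ k ∧ CapP H p 𝒜 t k}

private theorem capP_mono {H : IsCoherent κ o U} {p : Cnd o U} {𝒜 : Set (Cnd o U)}
    {t t' : Cnd o U} (ht : Below κ t) (h : t' ≤ t) (hP : CapP H p 𝒜 t k) : CapP H p 𝒜 t' k := by
  obtain ⟨hk, B, hB, h1, h2⟩ := hP
  have hle : cat (oc_coh H hk.le) κ (tk hk.le t') B hB ≤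
      cat (oc_coh H hk.le) κ (tk hk.le t) B hB :=
    cat_le (show tk hk.le t' ≤ tk hk.le t from h) (show Below κ (tk hk.le t) from ht)
      (fun x hx => hx)
  exact ⟨hk, B, hB, hle.trans h1, fun r hr a ha => h2 r (hr.trans hle) a ha⟩

private theorem capW_mono {H : IsCoherent κ o U} {p : Cnd o U} {𝒜 : Set (Cnd o U)}
    {t t' : Cnd o U} (h : t' ≤ t) (ht : t ∈ CapW H p 𝒜) : t' ∈ CapW H p 𝒜 := by
  refine ⟨Below.mono h ht.1, fun γ hγ => ?_⟩
  obtain ⟨k, hk, hP⟩ := ht.2 γ hγ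
  exact ⟨k, hk, capP_mono ht.1 h hP⟩

private theorem cap_cat_low (H : IsCoherent κ o U) (hk : k ≤ o κ) {q : Cnd (oc o κ k) U}
    (hq : q ∈ TopC (oc o κ k) U κ) :
    cat (oc_coh H hk) κ (tk hk (low q)) (q.S κ) (q.big hq.1) = q := by
  refine Cnd.ext' (Finset.ext fun α => ?_) fun α hα => ?_
  · rw [mem_cat]
    constructor
    · rintro (rfl | h)
      · exact hq.1
      · exact (mem_low.1 h).1
    · intro h
      rcases (hq.2 α h).eq_or_lt with h' | h'
      · exact Or.inl h'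
      · exact Or.inr (mem_low.2 ⟨h, h'⟩)
  · rcases mem_cat.1 hα with rfl | h
    · rw [cat_S_top, S_inter]
    · have h' := (mem_low.1 h).2
      rw [cat_S h'.ne]
      exact low_S h'

/-- a point of the top set is inserted -/
private theorem cap_insert (H : IsCoherent κ o U) {t : Cnd o U} {α : Ordinal.{u}} (hα : α < κ)
    (ht : Below α t) {B : Set Ordinal.{u}} (hαB : α ∈ B) (hBα : Big o U α B) (hk : k ≤ o κ)
    (hB : Big (oc o κ k) U κ B) :
    cat (oc_coh H hk) κ (tk hk (cat H α t B hBα)) B hB ≤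
      cat (oc_coh H hk) κ (tk hk t) B hB := by
  rw [Cnd.le_def]
  constructor
  · intro x hx
    rcases mem_cat.1 hx with rfl | h
    · exact mem_cat.2 (Or.inl rfl)
    · exact mem_cat.2 (Or.inr (show x ∈ (cat H α t B hBα).dom from
        mem_cat.2 (Or.inr (show x ∈ t.dom from h))))
  · intro x hx
    rcases mem_cat.1 hx with rfl | h
    · refine ⟨x, mem_cat.2 (Or.inl rfl), le_rfl, fun _ _ h => h, ?_, Or.inl rfl⟩
      rw [cat_S_top, cat_S_top]
    · rcases mem_cat.1 (show x ∈ (cat H α t B hBα).dom from h) with rfl | h'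
      · refine ⟨κ, mem_cat.2 (Or.inl rfl), hα.le, ?_, ?_, Or.inr ?_⟩
        · intro γ hγ hxγ
          rcases mem_cat.1 hγ with rfl | h2
          · exact le_rfl
          · exact absurd (ht γ h2) (not_lt.2 hxγ)
        · rw [cat_S_top, cat_S hα.ne]
          show (cat H x t B hBα).S x ⊆ _
          rw [cat_S_top]
          exact fun y hy => ⟨hy.1, (show y < x from hy.2).trans hα⟩
        · rw [cat_S_top]
          exact ⟨hαB, hα⟩
      · have h2 : x < α := ht x h'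
        refine ⟨x, mem_cat.2 (Or.inr h'), le_rfl, fun _ _ h => h, ?_, Or.inl rfl⟩
        rw [cat_S (h2.trans hα).ne, cat_S (h2.trans hα).ne]
        show (cat H α t B hBα).S x ⊆ t.S x
        rw [cat_S h2.ne]

private theorem cap_step (H : IsCoherent κ o U) (hL : IsLong κ (o κ)) {p : Cnd o U}
    {𝒜 : Set (Cnd o U)} {t : Cnd o U} (ht : t ∈ CapW H p 𝒜) :
    Big o U κ {α | ∃ (C : Set Ordinal.{u}) (hC : Big o U α C),
      cat H α t C hC ∈ CapW H p 𝒜} := by
  intro β hβ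
  by_contra hcon
  have h1 := um_not_setOf hcon
  have hN := H.normal κ β hβ
  obtain ⟨m, hm, hmt⟩ := ht.1.bound (theta_pos hN)
  obtain ⟨s, hs, hsQ⟩ := cap_ph H hL (Q := fun s k =>
    (∃ (α : Ordinal.{u}) (C : Set Ordinal.{u}) (hC : Big o U α C), s = cat H α t C hC ∧
      ¬ ∃ (C : Set Ordinal.{u}) (hC : Big o U α C), cat H α t C hC ∈ CapW H p 𝒜) ∧
      CapP H p 𝒜 s k) (by
    intro γ hγ
    obtain ⟨k, hγk, hk, B, hB, hle, hinc⟩ := ht.2 (max γ (Order.succ β))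
      (max_lt hγ (hL.succ β hβ))
    have hβk : β < k := (Order.lt_succ β).trans_le ((le_max_right _ _).trans hγk)
    have hB1 : B ∈ U κ β := hB β (by rw [oc_self]; exact hβk)
    have hB2 : Big (oc o κ β) U κ B := by
      intro i hi
      rw [oc_self] at hi
      exact hB i (by rw [oc_self]; exact hi.trans hβk)
    obtain ⟨α, ⟨⟨⟨⟨hα1, hα2⟩, hα3⟩, hα4⟩, hα5⟩⟩ := um_ne (um_inter (um_inter (um_inter (um_inter
      h1 (rf_big H hβ hB2)) hB1) (hN.tail m hm)) hN.conc)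
    have hακ : α < κ := hα5
    have htα : Below α t := fun x hx => (hmt x hx).trans_lt hα4
    have hα2' : Big o U α B := hα2
    refine ⟨k, (le_max_left _ _).trans hγk, cat H α t B hα2', ?_, ⟨α, B, hα2', rfl, hα1⟩,
      hk, B, hB, ?_, ?_⟩
    · intro x hx
      rcases mem_cat.1 hx with rfl | h
      · exact hακ
      · exact ht.1 x h
    · exact (cap_insert H hακ htα hα3 hα2' hk.le hB).trans hle
    · exact fun r hr a ha => hinc r (hr.trans (cap_insert H hακ htα hα3 hα2' hk.le hB)) a ha)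
  obtain ⟨_, _, ⟨α, C, hC, rfl, hα⟩, _⟩ := hsQ 0 hL.pos
  refine hα ⟨C, hC, hs, fun γ hγ => ?_⟩
  obtain ⟨k, hk, _, hP⟩ := hsQ γ hγ
  exact ⟨k, hk, hP⟩

/-- a set that is predense below `p` remains predense for all large truncations -/
theorem capture (H : IsCoherent κ o U) (hL : IsLong κ (o κ)) {𝒜 : Set (Cnd o U)}
    (h𝒜 : 𝒜 ⊆ TopC o U κ) {p : Cnd o U} (hp : p ∈ TopC o U κ)
    (hpre : ∀ q ≤ p, ∃ r ≤ q, ∃ a ∈ 𝒜, r ≤ a) :
    ∃ γ < o κ, ∀ (k : Ordinal.{u}) (hk : k < o κ), γ ≤ k →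
      ∀ q ≤ tk hk.le p, ∃ r ≤ q, ∃ a ∈ 𝒜, r ≤ tk hk.le a := by
  by_contra hcon
  push Not at hcon
  -- some stem has unboundedly many witnesses
  obtain ⟨t₀, ht₀, ht₀'⟩ := cap_ph H hL (Q := fun t k => CapP H p 𝒜 t k) (by
    intro γ hγ
    obtain ⟨k, hk, hγk, q, hq, hinc⟩ := hcon γ hγ
    have hqt : q ∈ TopC (oc o κ k) U κ :=
      TopC_comp _ (show tk hk.le p ∈ TopC (oc o κ k) U κ from hp) q hq
    have e := cap_cat_low H hk.le hqt
    refine ⟨k, hγk, low q, low_below q, hk, q.S κ, q.big hqt.1, ?_, ?_⟩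
    · rw [e]
      exact hq
    · rw [e]
      exact hinc)
  have htW : t₀ ∈ CapW H p 𝒜 := ⟨ht₀, ht₀'⟩
  have hpos : 0 < κ := theta_pos (H.normal κ 0 hL.pos)
  obtain ⟨m, hm, hmt⟩ := ht₀.bound hpos
  -- the diagonal intersection
  set N : Set Ordinal.{u} := {z | ∀ w : Cnd o U, Below z w → (w ∈ CapW H p 𝒜 →
    ∃ (C : Set Ordinal.{u}) (hC : Big o U z C), cat H z w C hC ∈ CapW H p 𝒜)} with hN
  have hNB : Big o U κ N := by
    intro γ hγ
    refine diag_stem (H.normal κ γ hγ) (Q := fun w z => w ∈ CapW H p 𝒜 →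
      ∃ (C : Set Ordinal.{u}) (hC : Big o U z C), cat H z w C hC ∈ CapW H p 𝒜) fun w _ => ?_
    by_cases hw : w ∈ CapW H p 𝒜
    · exact um_mono (cap_step H hL hw γ hγ) fun z hz _ => hz
    · exact um_mono (U κ γ).univ_mem fun z _ h => absurd h hw
  have hA : Big o U κ (N ∩ p.S κ ∩ Ioi m) := (hNB.inter (p.big hp.1)).inter (Big.tail H hm)
  -- the condition `t₀⌢(κ, p.S κ)` is stronger than `p`
  have hle0 : cat H κ t₀ (p.S κ) (p.big hp.1) ≤ p := by
    obtain ⟨k, _, hk, B, hB, hle, _⟩ := htW.2 0 hL.pos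
    rw [Cnd.le_def] at hle ⊢
    constructor
    · intro x hx
      rcases mem_cat.1 (hle.1 (show x ∈ (tk hk.le p).dom from hx)) with h | h
      · exact mem_cat.2 (Or.inl h)
      · exact mem_cat.2 (Or.inr (show x ∈ t₀.dom from h))
    · intro x hx
      rcases mem_cat.1 hx with rfl | h
      · refine ⟨x, hp.1, le_rfl, fun _ _ h => h, ?_, Or.inl rfl⟩
        rw [cat_S_top, S_inter]
      · obtain ⟨β, hβ, hxβ, hmin, hS, hor⟩ := hle.2 x (mem_cat.2 (Or.inr h))
        refine ⟨β, hβ, hxβ, hmin, ?_, hor⟩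
        rw [cat_S (ht₀ x h).ne] at hS ⊢
        exact hS
  have hle1 : cat H κ t₀ (N ∩ p.S κ ∩ Ioi m) hA ≤ p :=
    (cat_le le_rfl ht₀ fun x hx => hx.1.2).trans hle0
  obtain ⟨q, hq, a, ha, hqa⟩ := hpre _ hle1
  have hqt : q ∈ TopC o U κ := TopC_comp _ (cat_top ht₀) q hq
  -- induction along the points of `q`
  have hΦ := stem_induction (Φ := fun v => ∃ s ≤ v, s ∈ CapW H p 𝒜) (q := q) (μ := m) (θ := κ)
    ⟨_, le_rfl, capW_mono (le_cat_rst hq hmt hm fun x hx => hx.2) htW⟩ (by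
      rintro z hz hmz hzκ ⟨s, hs, hsW⟩
      have hzN : z ∈ N := by
        rcases (le_cat_gt hq hmt hz hmz).2.2 with h | h
        · exact absurd h hzκ.ne
        · exact h.1.1
      have hsz : Below z s := Below.mono hs below_rst
      obtain ⟨C, hC, hCW⟩ := hzN s hsz hsW
      refine ⟨cat H z s (C ∩ q.S z) (hC.inter (q.big hz)), ?_, ?_⟩
      · rw [rst_Iic_eq_cat (H := H) hz]
        exact cat_le hs below_rst inter_subset_right
      · exact capW_mono (cat_le le_rfl hsz inter_subset_left) hCW) κ hm le_rfl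
  obtain ⟨s, hs, hsW⟩ := hΦ
  obtain ⟨k, _, hk, B, hB, _, hinc⟩ := hsW.2 0 hL.pos
  have hqk : Big (oc o κ k) U κ (q.S κ) := by
    intro i hi
    rw [oc_self] at hi
    exact q.big hqt.1 i (hi.trans hk)
  refine hinc (cat (oc_coh H hk.le) κ (tk hk.le s) (B ∩ q.S κ) (hB.inter hqk))
    (cat_le le_rfl (show Below κ (tk hk.le s) from hsW.1) inter_subset_left) a ha ?_
  have e : tk hk.le q = cat (oc_coh H hk.le) κ (tk hk.le (rst q (Iio κ))) (q.S κ) hqk := by
    have h1 := cap_cat_low H hk.le (q := tk hk.le q) hqt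
    rw [low_tk] at h1
    exact h1.symm
  have h2 : cat (oc_coh H hk.le) κ (tk hk.le s) (B ∩ q.S κ) (hB.inter hqk) ≤ tk hk.le q := by
    rw [e]
    exact cat_le (show tk hk.le s ≤ tk hk.le (rst q (Iio κ)) from hs)
      (show Below κ (tk hk.le (rst q (Iio κ))) from below_rst) inter_subset_right
  exact h2.trans (show tk hk.le q ≤ tk hk.le a from hqa)


end Pool.SND
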