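import Pool.Agent.SND.Cnt

set_option autoImplicit false

namespace Pool.SND

open MagRad Set

universe u v

variable {κ k : Ordinal.{u}}
variable {o : Ordinal.{u} → Ordinal.{u}} {U : Ordinal.{u} → Ordinal.{u} → Ultrafilter Ordinal.{u}}

theorem occ_unb (H : IsCoherent κ o U) (hpos : 0 < o κ) {γ : Ordinal.{u}} (hγ : γ < κ)
    {p : Cnd o U} (hp : p ∈ TopC o U κ) : ∃ q ≤ p, ∃ α ∈ q.dom, γ < α ∧ α < κ := by
  obtain ⟨r, hr, y, hyr, hyY, hyz⟩ := insert_in H hp.1 hpos ((H.normal κ 0 hpos).tail γ hγ)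
  exact ⟨r, hr, y, hyr, hyY, hyz⟩

theorem occ_closed (H : IsCoherent κ o U) {δ : Ordinal.{u}} (hδ0 : 0 < δ) (hδ : δ < κ)
    {p : Cnd o U} (hp : p ∈ TopC o U κ) (hδp : δ ∉ p.dom) :
    ∃ q ≤ p, ∃ β < δ, ∀ r ≤ q, ∀ α ∈ r.dom, α < δ → α ≤ β := by
  obtain ⟨q, hq, hqd, hqc⟩ := clean_dense H δ p
  obtain ⟨β, hβ, hβb⟩ := Below.bound hδ0 (below_rst (q := q) (z := δ))
  refine ⟨q, hq, β, hβ, fun r hr α hα hαδ => ?_⟩
  obtain ⟨z, hz, hαz, hmin, hS, hor⟩ := hr.2 α hα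
  rcases lt_trichotomy z δ with h | h | h
  · exact hαz.trans (hβb z (mem_rst.2 ⟨hz, h⟩))
  · rw [hqd] at hz
    exact absurd (h ▸ hz) hδp
  · exfalso
    rcases hor with h1 | h1
    · rw [h1] at hαδ
      exact absurd hαδ (not_lt.2 h.le)
    · exact absurd (hqc z hz h h1) (not_lt.2 hαδ.le)


end Pool.SND
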