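import Pool.Agent.SND.Cnt2

set_option autoImplicit false

namespace Pool.SND

open MagRad Set

universe u v

variable {κ k : Ordinal.{u}}
variable {o : Ordinal.{u} → Ordinal.{u}} {U : Ordinal.{u} → Ordinal.{u} → Ultrafilter Ordinal.{u}}

/-- one set at the top which decides all pairs -/
private theorem Code_top (H : IsCoherent κ o U) {θ z δ : Ordinal.{u}} (hz : z < θ) (hδ : δ ≤ z)
    (D : Ordinal.{u} → Set (Cnd o U)) (hD : ∀ ξ < δ, IsReg (TopC o U θ) (D ξ)) :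
    ∃ (A : Set Ordinal.{u}) (hA : Big o U θ A), ∀ ξ < δ, ∀ w : Cnd o U, (∀ α ∈ w.dom, α ≤ z) →
      Good H θ (D ξ) w → cat H θ w A hA ∈ D ξ ∨ cat H θ w A hA ∈ nega (TopC o U θ) (D ξ) := by
  classical
  have hex : ∀ (ξ : Ordinal.{u}) (w : Cnd o U), ∃ (A : Set Ordinal.{u}) (hA : Big o U θ A),
      Good H θ (D ξ) w → cat H θ w A hA ∈ D ξ ∨ cat H θ w A hA ∈ nega (TopC o U θ) (D ξ) := by
    intro ξ w
    by_cases h : Good H θ (D ξ) w
    · obtain ⟨A, hA, h'⟩ := h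
      exact ⟨A, hA, fun _ => h'⟩
    · exact ⟨univ, Big.univ, fun h' => absurd h' h⟩
  choose A hA hAg using hex
  have hB : Big o U θ {x | ∀ ξ : Iio δ, ∀ w : {w : Cnd o U // ∀ α ∈ w.dom, α ≤ z},
      x ∈ A ξ.1 w.1} := by
    intro γ hγ
    have hW := H.normal θ γ hγ
    obtain ⟨η, hη, e, he, hinj⟩ := nm_low (o := o) (U := U) hW hz
    refine nm_complete hW (hδ.trans_lt hz) (fun ξ : Iio δ => ξ.1) Subtype.val_injective
      (fun ξ => ξ.2) (Q := fun ξ x => ∀ w : {w : Cnd o U // ∀ α ∈ w.dom, α ≤ z},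
        x ∈ A ξ.1 w.1) fun ξ => ?_
    refine nm_complete hW hη (fun w : {w : Cnd o U // ∀ α ∈ w.dom, α ≤ z} => e w.1)
      (fun w w' h => Subtype.ext (hinj _ _ w.2 w'.2 h)) (fun w => he _ w.2)
      (Q := fun w x => x ∈ A ξ.1 w.1) fun w => ?_
    exact hA ξ.1 w.1 γ hγ
  refine ⟨_, hB, fun ξ hξ w hw hg => ?_⟩
  have hbw : Below θ w := fun α hα => (hw α hα).trans_lt hz
  have hle : cat H θ w _ hB ≤ cat H θ w (A ξ w) (hA ξ w) :=
    cat_le le_rfl hbw fun x hx => hx ⟨ξ, hξ⟩ ⟨w, hw⟩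
  rcases hAg ξ w hg with h | h
  · exact Or.inl ((hD ξ hξ).down _ h _ hle)
  · exact Or.inr ((nega_reg TopC_comp (hD ξ hξ).down).down _ h _ hle)

/-- the step from `θ` to the largest point below -/
private theorem Code_step (H : IsCoherent κ o U) {θ z δ : Ordinal.{u}} (hz : z < θ) (hδ : δ ≤ z)
    (D : Ordinal.{u} → Set (Cnd o U)) (hD : ∀ ξ < δ, IsReg (TopC o U θ) (D ξ)) {r : Cnd o U}
    (hr : r ∈ TopC o U θ) (hzr : z ∈ r.dom) (hmax : ∀ α ∈ r.dom, α < θ → α ≤ z) :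
    ∃ s ≤ r, Clean z s ∧ ∀ ξ < δ, ∀ t ≤ s, (t ∈ D ξ ↔ rst t (Iic z) ∈ phi H θ z (D ξ)) := by
  obtain ⟨A, hA, hdec⟩ := Code_top H hz hδ D hD
  have e1 : rst r (Iio θ) = rst r (Iic z) := rst_congr fun α hα =>
    ⟨fun h => hmax α hα h, fun h => lt_of_le_of_lt (mem_Iic.1 h) hz⟩
  have hB : Big o U θ (r.S θ ∩ A ∩ Ioi z) := ((r.big hr.1).inter hA).inter (Big.tail H hz)
  have hw₀ : ∀ α ∈ (rst r (Iic z)).dom, α ≤ z := rst_Iic_le
  have hs : cat H θ (rst r (Iic z)) (r.S θ ∩ A ∩ Ioi z) hB ≤ r := by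
    have h1 : cat H θ (rst r (Iio θ)) (r.S θ ∩ A ∩ Ioi z) hB ≤
        cat H θ (rst r (Iio θ)) (r.S θ) (r.big hr.1) :=
      cat_le le_rfl below_rst fun x hx => hx.1.1
    rw [← top_eq_cat (H := H) hr, e1] at h1
    exact h1
  have hcl : Clean z (cat H θ (rst r (Iic z)) (r.S θ ∩ A ∩ Ioi z) hB) :=
    cat_clean hw₀ fun x hx => hx.2
  refine ⟨_, hs, hcl, fun ξ hξ t ht => ?_⟩
  have hb := hD ξ hξ
  have htop : ∀ t' ≤ t, t' ∈ TopC o U θ := fun t' ht' =>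
    TopC_comp r hr t' (ht'.trans (ht.trans hs))
  have hzt : ∀ t' ≤ t, z ∈ t'.dom := fun t' ht' => (ht'.trans (ht.trans hs)).1 hzr
  have hclt : ∀ t' ≤ t, Clean z t' := fun t' ht' => hcl.mono (ht'.trans ht)
  have hle : ∀ t' ≤ t, ∀ v : Cnd o U, (∀ α ∈ v.dom, α ≤ z) → rst t' (Iic z) = v →
      t' ≤ cat H θ v A hA := by
    intro t' ht' v hv hv'
    refine le_cat_intro (htop t' ht') (by rw [hv']) hv hz fun α hα hzα => ?_
    obtain ⟨-, h2, h3⟩ := le_cat_gt (ht'.trans ht) hw₀ hα hzα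
    exact ⟨fun x hx => (h2 hx).1.2, h3.imp id fun h => h.1.2⟩
  constructor
  · intro htD
    refine (phi_reg hz hb).dense _ (rst_top (hzt t le_rfl)) fun v hv => ?_
    have hvz : ∀ α ∈ v.dom, α ≤ z := le_bound hv rst_Iic_le
    obtain ⟨v', hv', hg⟩ := prikry H hb hz hvz
    have hv'z : ∀ α ∈ v'.dom, α ≤ z := le_bound hv' hvz
    refine ⟨v', hv', TopC_comp _ (rst_top (hzt t le_rfl)) _ (hv'.trans hv), A, hA, ?_⟩
    rcases hdec ξ hξ v' hv'z hg with h | h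
    · exact h
    · exfalso
      obtain ⟨q, hq, hqv, -, -, -⟩ := graft H (hv'.trans hv)
      exact ((nega_reg TopC_comp hb.down).down _ h q (hle q hq v' hv'z hqv)).2 q le_rfl
        (hb.down _ htD q hq)
  · intro htφ
    refine hb.dense t (htop t le_rfl) fun t' ht' => ?_
    have h1 : rst t' (Iic z) ≤ rst t (Iic z) := rs_mono ht' (hclt t le_rfl)
    obtain ⟨v', hv', hg⟩ := prikry H hb hz (w := rst t' (Iic z)) rst_Iic_le
    have hv'z : ∀ α ∈ v'.dom, α ≤ z := le_bound hv' rst_Iic_le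
    obtain ⟨q, hq, hqv, -, -, -⟩ := graft H hv'
    refine ⟨q, hq, ?_⟩
    have hqle := hle q (hq.trans ht') v' hv'z hqv
    rcases hdec ξ hξ v' hv'z hg with h | h
    · exact hb.down _ h q hqle
    · exfalso
      obtain ⟨-, B, hB', hBD⟩ := (phi_reg hz hb).down _ htφ v' (hv'.trans h1)
      have hbv : Below θ v' := fun α hα => (hv'z α hα).trans_lt hz
      have h2 : cat H θ v' (A ∩ B) (hA.inter hB') ∈ D ξ :=
        hb.down _ hBD _ (cat_le le_rfl hbv inter_subset_right)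
      exact h.2 _ (cat_le le_rfl hbv inter_subset_left) h2

private theorem exists_max_image' (d : Finset Ordinal.{u}) {α θ : Ordinal.{u}} (h : α ∈ d)
    (hθ : α < θ) : ∃ z, (z ∈ d ∧ z < θ) ∧ ∀ x ∈ d, x < θ → x ≤ z := by
  have hfin : ({x | x ∈ d ∧ x < θ} : Set Ordinal.{u}).Finite :=
    d.finite_toSet.subset fun x hx => hx.1
  obtain ⟨z, hz, hzm⟩ := Set.exists_max_image _ id hfin ⟨α, h, hθ⟩
  exact ⟨z, hz, fun x hx hxθ => hzm x ⟨hx, hxθ⟩⟩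

/-- subsets of `δ ≤ α` are decided by the part up to `α` -/
theorem code_lemma (H : IsCoherent κ o U) {α δ : Ordinal.{u}} (hδα : δ ≤ α) :
    ∀ θ : Ordinal.{u}, α < θ → ∀ D : Ordinal.{u} → Set (Cnd o U),
      (∀ ξ < δ, IsReg (TopC o U θ) (D ξ)) → ∀ r ∈ TopC o U θ, α ∈ r.dom →
      ∃ s ≤ r, ∃ c : Ordinal.{u} → Set (Cnd o U), (∀ ξ < δ, IsReg (TopC o U α) (c ξ)) ∧
        ∀ ξ < δ, ∀ t ≤ s, (t ∈ D ξ ↔ t ∈ lft o U θ α (c ξ)) := by
  intro θ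
  induction θ using WellFoundedLT.induction with
  | ind θ ih =>
    intro hαθ D hD r hr hαr
    obtain ⟨z, hzr, hzθ, hmax⟩ : ∃ z ∈ r.dom, z < θ ∧ ∀ x ∈ r.dom, x < θ → x ≤ z := by
      obtain ⟨z, hz, hzm⟩ := exists_max_image' r.dom hαr hαθ
      exact ⟨z, hz.1, hz.2, hzm⟩
    have hαz : α ≤ z := hmax α hαr hαθ
    obtain ⟨s₁, hs₁, hcl, hiff⟩ := Code_step H hzθ (hδα.trans hαz) D hD hr hzr hmax
    have hreg : ∀ ξ < δ, IsReg (TopC o U z) (phi H θ z (D ξ)) := fun ξ hξ =>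
      phi_reg hzθ (hD ξ hξ)
    rcases hαz.eq_or_lt with hαz' | hαz'
    · rw [hαz']
      refine ⟨s₁, hs₁, fun ξ => phi H θ z (D ξ), hreg, fun ξ hξ t ht => ?_⟩
      rw [hiff ξ hξ t ht, lft_iff H (hreg ξ hξ) (TopC_comp r hr t (ht.trans hs₁)) (hcl.mono ht)
        ((ht.trans hs₁).1 hzr)]
    · have h1 : rst s₁ (Iic z) ∈ TopC o U z := rst_top (hs₁.1 hzr)
      obtain ⟨s₂, hs₂, c, hc, hciff⟩ := ih z hzθ hαz' (fun ξ => phi H θ z (D ξ)) hreg
        (rst s₁ (Iic z)) h1 (mem_rst.2 ⟨hs₁.1 hαr, hαz⟩)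
      obtain ⟨s₃, hs₃, hs₃r, -, -, hs₃c⟩ := graft H hs₂
      obtain ⟨s, hs, -, hsc⟩ := clean_dense H α s₃
      refine ⟨s, hs.trans (hs₃.trans hs₁), c, hc, fun ξ hξ t ht => ?_⟩
      have htr : t ≤ r := ht.trans (hs.trans (hs₃.trans hs₁))
      have hct : Clean α t := hsc.mono ht
      have h2 : rst t (Iic z) ≤ s₂ := by
        rw [← hs₃r]
        exact rs_mono (ht.trans hs) (hs₃c hcl)
      have h3 : Clean α (rst t (Iic z)) := by
        intro y hy hαy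
        obtain ⟨hy1, hy2⟩ := mem_rst.1 hy
        rw [rst_S hy2]
        exact hct y hy1 hαy
      have h4 : rst (rst t (Iic z)) (Iic α) = rst t (Iic α) := by
        rw [rst_rst]
        exact rst_congr fun x _ => ⟨fun h => h.2, fun h => ⟨(mem_Iic.1 h).trans hαz, h⟩⟩
      rw [hiff ξ hξ t (ht.trans (hs.trans hs₃)), hciff ξ hξ _ h2,
        lft_iff H (hc ξ hξ) (rst_top (htr.1 hzr)) h3 (mem_rst.2 ⟨htr.1 hαr, hαz⟩), h4,
        lft_iff H (hc ξ hξ) (TopC_comp r hr t htr) hct (htr.1 hαr)]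

end Pool.SND
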