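import Pool.Agent.SND.Nms

set_option autoImplicit false

namespace Pool.SND

open Pool.Agent.Helper23.CK
open Pool.Agent.Helper23.WT (iffV ZM ZF opair bElim bOr bMP bImp bNot bAbs bAll bEx bIff bIff_mp bIff_mpr bLeft bRight bCases bContra eq_of_forall iffV_self iffV_eq_top IsFun App IsOmega)

variable {P : Type 1} [Preorder P] {κ : Ordinal.{0}}

/-- the set with the Boolean values `C` is unbounded -/
private theorem DiaNm_unb {C : Set.Iio κ → RO P} {Γ : RO P}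
    (h : Γ ≤ ⨅ β : Set.Iio κ, ⨆ γ, ⨆ _ : β < γ, C γ) :
    Γ ≤ ⨅ a, Nm.mem a (ordn κ) ⇨ ⨆ c, Nm.mem c (sn C) ⊓ Nm.mem a c := by
  refine le_iInf fun a => bImp fun Δ h1 h2 => ?_
  rw [mem_ordn] at h2
  refine bElim h2 fun β Δ₁ h3 h4 => ?_
  refine bElim (bAll ((h3.trans h1).trans h) β) fun γ Δ₂ h5 h6 => bElim h6 fun hβγ Δ₃ h7 h8 => ?_
  refine bEx (ordn γ.1) (le_inf ?_ ?_)
  · rw [ordn_mem_sn]
    exact h8
  · exact Nm.bMemL (Nm.bSymm ((h7.trans h5).trans h4)) (ordn_mem_ordn (show β.1 < γ.1 from hβγ))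

/-- the set with the Boolean values `C` is closed -/
private theorem DiaNm_closed {C : Set.Iio κ → RO P} {Γ : RO P}
    (h : Γ ≤ ⨅ δ : Set.Iio κ, ⨅ _ : (0 : Ordinal.{0}) < δ.1,
      (⨅ β, ⨅ _ : β < δ, ⨆ γ, ⨆ _ : β < γ ∧ γ < δ, C γ) ⇨ C δ) :
    Γ ≤ ⨅ a, Nm.mem a (ordn κ) ⇨ ((⨆ b, Nm.mem b a) ⇨
      ((⨅ b, Nm.mem b a ⇨ ⨆ c, Nm.mem c (sn C) ⊓ (Nm.mem c a ⊓ Nm.mem b c)) ⇨
        Nm.mem a (sn C))) := by
  refine le_iInf fun a => bImp fun Δ h1 h2 => bImp fun Δ₀ h3 h4 => bImp fun Δ₁ h5 h6 => ?_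
  rw [mem_ordn] at h2
  refine bElim ((h5.trans h3).trans h2) fun δ Δ₂ h7 h8 => ?_
  by_cases h0 : (0 : Ordinal.{0}) < δ.1
  · have h9 : Δ₂ ≤ C δ := by
      refine bMP (bAll (bAll ((((h7.trans h5).trans h3).trans h1).trans h) δ) h0) ?_
      refine le_iInf fun β => le_iInf fun hβ => ?_
      have h10 : Δ₂ ≤ Nm.mem (ordn β.1) a :=
        Nm.bMemR (Nm.bSymm h8) (ordn_mem_ordn (show β.1 < δ.1 from hβ))
      refine bElim (bMP (bAll (h7.trans h6) (ordn β.1)) h10) fun c Δ₃ h11 h12 => ?_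
      have h13 := bLeft h12
      rw [mem_sn] at h13
      refine bElim h13 fun γ Δ₄ h14 h15 => ?_
      have h16 : Δ₄ ≤ Nm.mem (ordn γ.1) (ordn δ.1) :=
        Nm.bMemR ((h14.trans h11).trans h8)
          (Nm.bMemL (bRight h15) (bLeft (bRight (h14.trans h12))))
      have h17 : Δ₄ ≤ Nm.mem (ordn β.1) (ordn γ.1) :=
        Nm.bMemR (bRight h15) (bRight (bRight (h14.trans h12)))
      by_cases h18 : γ.1 < δ.1
      · by_cases h19 : β.1 < γ.1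
        · exact bEx γ (bEx (show β < γ ∧ γ < δ from ⟨h19, h18⟩) (bLeft h15))
        · exact (mem_ordn_lt h19 h17).trans bot_le
      · exact (mem_ordn_lt h18 h16).trans bot_le
    refine Nm.bMemL (Nm.bSymm h8) ?_
    rw [ordn_mem_sn]
    exact h9
  · refine (bElim ((h7.trans h5).trans h4) fun b Δ₃ h9 h10 => ?_ : Δ₂ ≤ ⊥).trans bot_le
    have h11 : Δ₃ ≤ Nm.mem b (ordn δ.1) := Nm.bMemR (h9.trans h8) h10
    rw [mem_ordn] at h11
    exact bElim h11 fun γ _ _ _ => absurd ((bot_le : (0 : Ordinal.{0}) ≤ γ.1).trans_lt γ.2) h0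

theorem ordn_dia (h : NoDiaB P κ) : NoDiaN (ordn κ : Nm P) := by
  intro A
  refine bElim (le_top.trans (h fun α ξ => ⨆ x, Nm.mem (Nm.opair (ordn α.1) x) A ⊓
    Nm.mem (ordn ξ.1) x)) fun X Δ₁ h1 h2 => ?_
  refine bElim h2 fun C Δ h3 h4 => ?_
  have hA : Δ ≤ FunB A := h3.trans h1
  refine bEx (sn fun β => ⨆ _ : β ∈ X, ⊤) (bEx (sn C) (le_inf (sn_sub _) (le_inf
    (le_inf (sn_sub _) (le_inf (DiaNm_unb (bLeft (bLeft h4))) (DiaNm_closed (bRight (bLeft h4)))))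
    ?_)))
  refine le_iInf fun a => bImp fun Δ₂ h5 h6 => le_iInf fun x => bImp fun Δ₃ h7 h8 => ?_
  refine bNot fun Δ₄ h9 h10 => ?_
  rw [mem_sn] at h6
  refine bElim ((h9.trans h7).trans h6) fun α Δ₅ h11 h12 => ?_
  have h13 : Δ₅ ≤ Δ := ((h11.trans h9).trans h7).trans h5
  refine bAbs (bMP (bAll (h13.trans (bRight h4)) α) (bLeft h12)) ?_
  have h14 : Δ₅ ≤ Nm.mem (Nm.opair (ordn α.1) x) A :=
    Nm.bMemL (Nm.bOpairCongr (bRight h12) (Nm.bRefl x)) ((h11.trans h9).trans h8)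
  refine le_iInf fun ξ => le_iInf fun hξ => ?_
  have h15 := bAll (h11.trans h10) (ordn ξ.1)
  rw [ordn_mem_sn] at h15
  refine bIff (fun Δ₆ h16 h17 => ?_) (fun Δ₆ h16 h17 => ?_)
  · refine bElim h17 fun x' Δ₇ h18 h19 => ?_
    have h20 : Δ₇ ≤ Nm.eq x' x :=
      bMP (bMP (bAll (bAll (bAll (((h18.trans h16).trans h13).trans hA) (ordn α.1)) x') x)
        (bLeft h19)) ((h18.trans h16).trans h14)
    exact bLeft (bIff_mp ((h18.trans h16).trans h15) (Nm.bMemR h20 (bRight h19)))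
  · refine bEx x (le_inf (h16.trans h14) (bIff_mpr (h16.trans h15) (le_inf h17 ?_)))
    exact Nm.bMemR (Nm.bSymm (bRight (h16.trans h12))) (ordn_mem_ordn (show ξ.1 < α.1 from hξ))


end Pool.SND
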