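import Pool.Agent.SND.Nms

set_option autoImplicit false

namespace Pool.SND

open Pool.Agent.Helper23.CK
open Pool.Agent.Helper23.WT (iffV ZM ZF opair bElim bOr bMP bImp bNot bAbs bAll bEx bIff bIff_mp bIff_mpr bLeft bRight bCases bContra eq_of_forall iffV_self iffV_eq_top IsFun App IsOmega)

variable {P : Type 1} [Preorder P] {κ : Ordinal.{0}}

private theorem idnm_fam_ordn_le (γ β : Set.Iio κ) :
    fam κ (ordn γ.1 : Nm P) β ≤ ⨆ _ : β < γ, ⊤ := by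
  unfold fam
  by_cases h : β < γ
  · exact le_top.trans (bEx h le_rfl)
  · refine le_trans ?_ bot_le
    exact mem_ordn_lt (fun h' => h h') le_rfl

private theorem idnm_down {N : (Set.Iio κ → RO P) → RO P} (hN : SatData P κ N) {x y : Nm P}
    {Γ : RO P} (hx : Γ ≤ Nm.mem x (idn N)) (h : Γ ≤ SubB y x) : Γ ≤ Nm.mem y (idn N) := by
  have h1 : Γ ≤ SubB x (ordn κ) := mem_idn_sub hx
  have h2 : Γ ≤ SubB y (ordn κ) := by
    refine le_iInf fun z => bImp fun Δ hΔ hz => ?_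
    exact bMP (bAll (hΔ.trans h1) z) (bMP (bAll (hΔ.trans h) z) hz)
  refine (mem_idn_iff hN h2).2 (N_le hN (D := fam κ x) (fun β Δ hΔ hβ => ?_)
    ((mem_idn_iff hN h1).1 hx))
  exact bMP (bAll (hΔ.trans h) _) hβ

theorem idn_id {N : (Set.Iio κ → RO P) → RO P} (hN : SatData P κ N) : IdN (ordn κ) (idn N) := by
  refine ⟨fun x => mem_idn_sub le_rfl, fun x y => ?_, ?_, fun a => ?_, fun a f u => ?_⟩
  · exact idnm_down hN (bLeft le_rfl) (bRight le_rfl)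
  · refine le_bot_iff.1 ?_
    have h1 : Nm.mem (ordn κ) (idn N) ≤ SubB (ordn κ : Nm P) (ordn κ) := mem_idn_sub le_rfl
    have h2 := (mem_idn_iff hN h1).1 le_rfl
    have h3 : N (fam κ (ordn κ)) ≤ N (fun _ => ⊤) := by
      refine N_le hN (D := fam κ (ordn κ)) (fun β Δ _ _ => ?_) le_rfl
      exact ordn_mem_ordn β.2
    rw [hN.proper] at h3
    exact h2.trans h3
  · have h0 : Nm.mem a (ordn κ) ≤ ⨆ β : Set.Iio κ, Nm.eq a (ordn β.1) := by rw [mem_ordn]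
    refine bElim h0 fun γ Δ _ h2 => ?_
    refine Nm.bMemL (Nm.bSymm h2) ?_
    have h3 : Δ ≤ SubB (ordn γ.1 : Nm P) (ordn κ) := by
      refine le_iInf fun z => bImp fun Δ' _ hz => mem_ordn_mono (le_of_lt γ.2) hz
    refine (mem_idn_iff hN h3).2 (N_le hN (D := fun β => ⨆ _ : β < γ, ⊤) (fun β Δ' _ hβ => ?_)
      (le_top.trans (hN.bdd γ)))
    exact hβ.trans (idnm_fam_ordn_le γ β)
  · set Γ : RO P := Nm.mem a (ordn κ) ⊓ (FunB f ⊓
      ((⨅ x, Nm.mem x a ⇨ ⨆ y, Nm.mem y (idn N) ⊓ Nm.mem (Nm.opair x y) f) ⊓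
        ⨅ z, iffV (Nm.mem z u)
          (⨆ x, Nm.mem x a ⊓ ⨆ y, Nm.mem (Nm.opair x y) f ⊓ Nm.mem z y))) with hΓ
    have ha : Γ ≤ ⨆ β : Set.Iio κ, Nm.eq a (ordn β.1) := by
      rw [← mem_ordn]
      exact bLeft le_rfl
    have hf : Γ ≤ FunB f := bLeft (bRight le_rfl)
    have hI : Γ ≤ ⨅ x, Nm.mem x a ⇨ ⨆ y, Nm.mem y (idn N) ⊓ Nm.mem (Nm.opair x y) f :=
      bLeft (bRight (bRight le_rfl))
    have hu : Γ ≤ ⨅ z, iffV (Nm.mem z u)
          (⨆ x, Nm.mem x a ⊓ ⨆ y, Nm.mem (Nm.opair x y) f ⊓ Nm.mem z y) :=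
      bRight (bRight (bRight le_rfl))
    clear_value Γ
    refine bElim ha fun δ Δ hΔ h2 => ?_
    let D : Set.Iio δ.1 → Set.Iio κ → RO P := fun ξ β =>
      ⨆ y, Nm.mem (Nm.opair (ordn ξ.1) y) f ⊓ Nm.mem (ordn β.1) y
    -- two values of the function are equal
    have hfun : ∀ x y y' : Nm P, ∀ Δ' ≤ Δ, Δ' ≤ Nm.mem (Nm.opair x y) f →
        Δ' ≤ Nm.mem (Nm.opair x y') f → Δ' ≤ Nm.eq y y' := fun x y y' Δ' h3 h4 h5 =>
      bMP (bMP (bAll (bAll (bAll ((h3.trans hΔ).trans hf) x) y) y') h4) h5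
    have hD : Δ ≤ ⨅ ξ, N (D ξ) := by
      refine le_iInf fun ξ => ?_
      have h3 : Δ ≤ Nm.mem (ordn ξ.1) a := Nm.bMemR (Nm.bSymm h2) (ordn_mem_ordn ξ.2)
      refine bElim (bMP (bAll (hΔ.trans hI) (ordn ξ.1)) h3) fun y Δ' h4 h5 => ?_
      refine N_le hN (D := fam κ y) (fun β Δ₂ h6 h7 => ?_)
        ((mem_idn_iff hN (mem_idn_sub (bLeft h5))).1 (bLeft h5))
      refine bElim h7 fun y' Δ₃ h8 h9 => ?_
      exact Nm.bMemR (hfun _ _ _ Δ₃ ((h8.trans h6).trans h4) (bLeft h9)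
        (bRight ((h8.trans h6).trans h5))) (bRight h9)
    have hD2 : Δ ≤ N (fun β => ⨆ ξ, D ξ β) := hD.trans (hN.compl δ D)
    have hsub : Δ ≤ SubB u (ordn κ) := by
      refine le_iInf fun z => bImp fun Δ₁ h3 h4 => ?_
      refine bElim (bIff_mp (bAll ((h3.trans hΔ).trans hu) z) h4) fun x Δ₂ h5 h6 => ?_
      refine bElim (bRight h6) fun y Δ₃ h7 h8 => ?_
      refine bElim (bMP (bAll ((((h7.trans h5).trans h3).trans hΔ).trans hI) x)
        (bLeft (h7.trans h6))) fun y' Δ₄ h9 h10 => ?_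
      have h11 : Δ₄ ≤ Nm.eq y y' := hfun x y y' Δ₄ (((h9.trans h7).trans h5).trans h3)
        (bLeft (h9.trans h8)) (bRight h10)
      exact bMP (bAll (mem_idn_sub (bLeft h10)) z) (Nm.bMemR h11 (bRight (h9.trans h8)))
    refine (mem_idn_iff hN hsub).2 (N_le hN (D := fun β => ⨆ ξ, D ξ β)
      (fun β Δ₁ h3 h4 => ?_) hD2)
    refine bElim (bIff_mp (bAll ((h3.trans hΔ).trans hu) (ordn β.1)) h4) fun x Δ₂ h5 h6 => ?_
    have h7 : Δ₂ ≤ ⨆ ξ : Set.Iio δ.1, Nm.eq x (ordn ξ.1) := by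
      rw [← mem_ordn]
      exact Nm.bMemR ((h5.trans h3).trans h2) (bLeft h6)
    refine bElim h7 fun ξ Δ₃ h8 h9 => ?_
    refine bElim (bRight (h8.trans h6)) fun y Δ₄ h10 h11 => ?_
    refine bEx ξ (bEx y (le_inf ?_ (bRight h11)))
    exact Nm.bMemL (Nm.bOpairCongr (h10.trans h9) (Nm.bRefl y)) (bLeft h11)


end Pool.SND
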