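import Pool.Agent.SND.Ro

set_option autoImplicit false

namespace Pool.SND

open Pool.Agent.Helper23.CK
open Pool.Agent.Helper23.WT (iffV ZM ZF opair bElim bOr bMP bImp bNot bAbs bAll bEx bIff bIff_mp bIff_mpr bLeft bRight bCases bContra eq_of_forall iffV_self iffV_eq_top IsFun App IsOmega)

variable {M : ZFSet.{0}} [TM M]

theorem isInaccessible_of {t om : Mo M} (ht : t.1.IsOrdinal) (hom : IsOm om.1)
    (hom' : ZM.E om t) (hr : RegS t) (hp : PowS t) : IsInaccessible ZM.E t := by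
  refine ⟨isOrdinal_iff.2 ht, ⟨om, (isOmega_iff hom).2 rfl, hom'⟩, fun a f ha hf => ?_,
    fun a ha => ?_⟩
  · have hf' := Pool.Agent.Helper23.WT.isFun_iff.1 hf
    obtain ⟨b, hb, h⟩ := hr a f ⟨ha, fun x y z h1 h2 =>
      (hf'.2 x (hf'.mem_dom h1).1).unique h1 h2, fun x hx => by
        obtain ⟨y, hy, _⟩ := hf'.2 x hx
        exact ⟨y, (hf'.mem_dom hy).2, hy⟩⟩
    refine ⟨b, hb, fun x y hxy => ?_⟩
    have h1 := Pool.Agent.Helper23.WT.app_iff.1 hxy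
    exact h x (hf'.mem_dom h1).1 y h1
  · obtain ⟨b, hb, c, hc, h⟩ := hp a ha
    refine ⟨Pool.Agent.Helper23.WT.pow a, b, fun x => Pool.Agent.Helper23.WT.mem_pow, hb,
      cardLe_of_list (c := c) (ht.mem hb) (fun s hs => ?_) fun ξ s s' h1 h2 => hc _ _ _ h1 h2⟩
    exact h s (Pool.Agent.Helper23.WT.mem_pow.1 hs)

theorem isIdeal_of {t I : Mo M} (h : IdS t I) : IsIdeal ZM.E t I := by
  refine ⟨h.sub, fun x y h1 h2 => h.down x y ⟨h1, h2⟩, h.proper, h.bdd,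
    fun a f u ha hf hu => ?_⟩
  have hf' := Pool.Agent.Helper23.WT.isFun_iff.1 hf
  refine h.union a f u ⟨ha, fun x y z h1 h2 =>
      (hf'.2 x (hf'.mem_dom h1).1).unique h1 h2, fun x hx => ?_, fun z => ?_⟩
  · obtain ⟨y, hy, _⟩ := hf'.2 x hx
    exact ⟨y, (hf'.mem_dom hy).2, hy⟩
  · rw [hu]
    constructor
    · rintro ⟨x, y, h1, h2⟩
      have h3 := Pool.Agent.Helper23.WT.app_iff.1 h1
      exact ⟨x, (hf'.mem_dom h3).1, y, h3, h2⟩
    · rintro ⟨x, _, y, h1, h2⟩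
      exact ⟨x, y, Pool.Agent.Helper23.WT.app_iff.2 h1, h2⟩

theorem isSaturated_of {t I : Mo M} (ht : t.1.IsOrdinal) (h : SatS t I) :
    IsSaturated ZM.E t I := by
  intro F h1 h2
  obtain ⟨c, hc, h3⟩ := h F ⟨fun x hx => h1 x hx,
    fun x hx y hy hxy z hz => h2 x y z hx hy hxy hz⟩
  exact cardLe_of_list ht h3 fun ξ s s' h4 h5 => hc _ _ _ h4 h5

theorem not_diamond_of {t : Mo M} (h : NoDiaS t) : ¬ Diamond ZM.E t := by
  rintro ⟨A, _, hA, hD⟩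
  obtain ⟨X, C, hX, ⟨hC1, hC2, hC3⟩, hN⟩ := h A fun x y z h1 h2 =>
    hA x y z (Pool.Agent.Helper23.WT.app_iff.2 h1) (Pool.Agent.Helper23.WT.app_iff.2 h2)
  obtain ⟨a, x, ha, hx, hz⟩ := hD X C hX ⟨hC1, hC2, fun a ha hb hc => hC3 a ha hb fun b hb' => by
    obtain ⟨c, h1, h2, h3⟩ := hc b hb'
    exact ⟨c, h1, h2, h3⟩⟩
  exact hN a ha x (Pool.Agent.Helper23.WT.app_iff.1 hx) hz

end Pool.SND
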