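import Pool.Agent.SND.Ro

set_option autoImplicit false

namespace Pool.SND

open Pool.Agent.Helper23.CK
open Pool.Agent.Helper23.WT (iffV ZM ZF opair bElim bOr bMP bImp bNot bAbs bAll bEx bIff bIff_mp bIff_mpr bLeft bRight bCases bContra eq_of_forall iffV_self iffV_eq_top IsFun App IsOmega)

variable {P : Type 1} [Preorder P] {κ : Ordinal.{0}}

theorem ordn_pow (h : PowB P κ) : PowN (ordn κ : Nm P) := by
  intro a
  have ha := le_refl (Nm.mem a (ordn κ))
  refine bElim (ha.trans (le_of_eq (mem_ordn a κ))) fun δ Δ hΔ hδ => ?_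
  refine bElim (le_top.trans (h δ)) fun η Δ₁ h1 h2 => ?_
  refine bElim h2 fun Y Δ₂ h3 h4 => ?_
  refine bEx (ordn η.1) (le_inf (ordn_mem_ordn η.2) ?_)
  refine bEx (Nm.mk (Set.Iio η.1) (fun i => Nm.opair (ordn i.1)
    (Nm.mk (Set.Iio δ.1) (fun ξ => ordn ξ.1) (Y i))) (fun _ => ⊤)) (le_inf ?_ ?_)
  · refine funB_pairs (a := fun i : Set.Iio η.1 => (ordn i.1 : Nm P))
      (b := fun i : Set.Iio η.1 => Nm.mk (Set.Iio δ.1) (fun ξ => ordn ξ.1) (Y i))
      fun i j Γ _ _ hij => ?_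
    by_cases hne : i = j
    · rw [hne]; exact Nm.bRefl _
    · exact (eq_ordn (fun h' => hne (Subtype.ext h')) hij).trans bot_le
  · refine le_iInf fun x => bImp fun Δ₃ h5 h6 => ?_
    refine bElim (bAll (h5.trans h4) fun ξ : Set.Iio δ.1 => Nm.mem (ordn ξ.1) x)
      fun i Δ₄ h7 h8 => ?_
    refine bEx (ordn i.1) (le_inf (ordn_mem_ordn i.2) ?_)
    refine bPairs (a := fun i : Set.Iio η.1 => (ordn i.1 : Nm P))
      (b := fun i : Set.Iio η.1 => Nm.mk (Set.Iio δ.1) (fun ξ => ordn ξ.1) (Y i)) i le_top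
      (Nm.bRefl _) ?_
    refine Nm.bExt (fun z Δ₅ h9 h10 => ?_) (fun z Δ₅ h9 h10 => ?_)
    · have h11 : Δ₅ ≤ Nm.mem z (ordn δ.1) :=
        Nm.bMemR (((((h9.trans h7).trans h5).trans h3).trans h1).trans hδ)
          (bMP (bAll ((h9.trans h7).trans h6) z) h10)
      rw [mem_ordn] at h11
      refine bElim h11 fun ξ Δ₆ h12 h13 => ?_
      exact Nm.bMemMk ξ (bIff_mp (bAll ((h12.trans h9).trans h8) ξ)
        (Nm.bMemL h13 (h12.trans h10))) h13
    · rw [Nm.mem_mk] at h10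
      refine bElim h10 fun ξ Δ₆ h12 h13 => ?_
      exact Nm.bMemL (Nm.bSymm (bRight h13))
        (bIff_mpr (bAll ((h12.trans h9).trans h8) ξ) (bLeft h13))

end Pool.SND
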