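import Pool.Agent.SND.Ro

set_option autoImplicit false

namespace Pool.SND

open Pool.Agent.Helper23.CK
open Pool.Agent.Helper23.WT (iffV ZM ZF opair bElim bOr bMP bImp bNot bAbs bAll bEx bIff bIff_mp bIff_mpr bLeft bRight bCases bContra eq_of_forall iffV_self iffV_eq_top IsFun App IsOmega)

variable {P : Type 1} [Preorder P] {κ : Ordinal.{0}}

theorem ordn_reg (h : RegB P κ) : RegN (ordn κ : Nm P) := by
  intro a f
  have h0 := (le_refl (Nm.mem a (ordn κ) ⊓ (FunB f ⊓ ⨅ x, Nm.mem x a ⇨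
    ⨆ y, Nm.mem y (ordn κ) ⊓ Nm.mem (Nm.opair x y) f)))
  have ha := bLeft h0
  have hF := bLeft (bRight h0)
  have hT := bRight (bRight h0)
  refine bElim (ha.trans (le_of_eq (mem_ordn a κ))) fun δ Δ hΔ hδ => ?_
  -- the values of the function
  have h1 : Δ ≤ ⨅ ξ : Set.Iio δ.1, ⨆ α : Set.Iio κ,
      Nm.mem (Nm.opair (ordn ξ.1) (ordn α.1)) f := by
    refine le_iInf fun ξ => ?_
    have h2 : Δ ≤ Nm.mem (ordn ξ.1) a := Nm.bMemR (Nm.bSymm hδ) (ordn_mem_ordn ξ.2)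
    refine bElim (bMP (bAll (hΔ.trans hT) (ordn ξ.1)) h2) fun y Δ₁ h3 h4 => ?_
    have h5 := bLeft h4
    rw [mem_ordn] at h5
    refine bElim h5 fun α Δ₂ h6 h7 => ?_
    exact bEx α (Nm.bMemL (Nm.bOpairCongr (Nm.bRefl _) h7) (bRight (h6.trans h4)))
  refine bElim (h1.trans (h δ fun ξ α => Nm.mem (Nm.opair (ordn ξ.1) (ordn α.1)) f))
    fun γ Δ₁ h2 h3 => ?_
  refine bEx (ordn γ.1) (le_inf (ordn_mem_ordn γ.2) ?_)
  refine le_iInf fun x => bImp fun Δ₂ h4 h5 => le_iInf fun y => bImp fun Δ₃ h6 h7 => ?_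
  have h8 : Δ₃ ≤ Nm.mem x (ordn δ.1) :=
    Nm.bMemR (((h6.trans h4).trans h2).trans hδ) (h6.trans h5)
  rw [mem_ordn] at h8
  refine bElim h8 fun ξ Δ₄ h9 h10 => ?_
  refine bElim (bAll (((h9.trans h6).trans h4).trans h3) ξ) fun α Δ₅ h11 h12 => ?_
  refine bElim h12 fun hα Δ₆ h13 h14 => ?_
  have h15 : Δ₆ ≤ Nm.mem (Nm.opair (ordn ξ.1) y) f :=
    Nm.bMemL (Nm.bOpairCongr ((h13.trans h11).trans h10) (Nm.bRefl _))
      (((h13.trans h11).trans h9).trans h7)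
  have h16 : Δ₆ ≤ FunB f :=
    (((((((h13.trans h11).trans h9).trans h6).trans h4).trans h2).trans hΔ).trans hF)
  have h17 : Δ₆ ≤ Nm.eq (ordn α.1) y :=
    bMP (bMP (bAll (bAll (bAll h16 (ordn ξ.1)) (ordn α.1)) y) h14) h15
  exact Nm.bMemL h17 (ordn_mem_ordn hα)

end Pool.SND
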