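import Pool.Agent.SND.Nms

set_option autoImplicit false

namespace Pool.SND

open Pool.Agent.Helper23.CK
open Pool.Agent.Helper23.WT (iffV ZM ZF opair bElim bOr bMP bImp bNot bAbs bAll bEx bIff bIff_mp bIff_mpr bLeft bRight bCases bContra eq_of_forall iffV_self iffV_eq_top IsFun App IsOmega)

variable {P : Type 1} [Preorder P] {κ : Ordinal.{0}}

/-- the intersection of two subsets of `κ` -/
private theorem SatNm_inter {x y : Nm P} {Γ : RO P} (hx : Γ ≤ SubB x (ordn κ)) :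
    Γ ≤ ⨅ w, iffV (Nm.mem w (sn (κ := κ) fun β => fam κ x β ⊓ fam κ y β))
      (Nm.mem w x ⊓ Nm.mem w y) := by
  refine le_iInf fun w => bIff (fun Δ hΔ h => ?_) (fun Δ hΔ h => ?_)
  · rw [mem_sn] at h
    refine bElim h fun β Δ' _ h2 => ?_
    exact le_inf (Nm.bMemL (Nm.bSymm (bRight h2)) (bLeft (bLeft h2)))
      (Nm.bMemL (Nm.bSymm (bRight h2)) (bRight (bLeft h2)))
  · have h1 : Δ ≤ Nm.mem w (ordn κ) := bMP (bAll (hΔ.trans hx) w) (bLeft h)
    rw [mem_ordn] at h1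
    rw [mem_sn]
    refine bElim h1 fun β Δ' h2 h3 => ?_
    exact bEx β (le_inf (le_inf (Nm.bMemL h3 (bLeft (h2.trans h)))
      (Nm.bMemL h3 (bRight (h2.trans h)))) h3)

theorem idn_sat {N : (Set.Iio κ → RO P) → RO P} (hN : SatData P κ N) : SatN (ordn κ) (idn N) := by
  intro F
  cases F with
  | mk ι a v =>
    obtain ⟨Γ, hΓ⟩ : ∃ Γ : RO P, Γ = (⨅ x, Nm.mem x (Nm.mk ι a v) ⇨
        SubB x (ordn κ) ⊓ (Nm.mem x (idn N))ᶜ) ⊓
      (⨅ x, Nm.mem x (Nm.mk ι a v) ⇨ ⨅ y, Nm.mem y (Nm.mk ι a v) ⇨ ((Nm.eq x y)ᶜ ⇨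
        ⨅ z, (⨅ w, iffV (Nm.mem w z) (Nm.mem w x ⊓ Nm.mem w y)) ⇨ Nm.mem z (idn N))) :=
      ⟨_, rfl⟩
    rw [← hΓ]
    let r : ι → ι → Prop := WellOrderingRel
    have hr : IsWellOrder ι r := WellOrderingRel.isWellOrder
    obtain ⟨b, hb⟩ : ∃ b : ι → RO P, ∀ i, b i = (Γ ⊓ v i) ⊓
      ⨅ j, ⨅ _ : r j i, (v j ⊓ Nm.eq (a j) (a i))ᶜ := ⟨_, fun _ => rfl⟩
    have hbΓ : ∀ i, b i ≤ Γ := fun i => by
      rw [hb]
      exact bLeft (bLeft le_rfl)
    have hbv : ∀ i, b i ≤ v i := fun i => by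
      rw [hb]
      exact bRight (bLeft le_rfl)
    have hbm : ∀ i, ∀ Δ ≤ b i, Δ ≤ Nm.mem (a i) (Nm.mk ι a v) := fun i Δ hΔ =>
      Nm.bMemMk i (hΔ.trans (hbv i)) (Nm.bRefl _)
    have hbs : ∀ i, ∀ Δ ≤ b i, Δ ≤ SubB (a i) (ordn κ) ∧ Δ ≤ (Nm.mem (a i) (idn N))ᶜ := by
      intro i Δ hΔ
      have h1 : Δ ≤ Γ := hΔ.trans (hbΓ i)
      rw [hΓ] at h1
      have h2 := bMP (bAll (bLeft h1) (a i)) (hbm i Δ hΔ)
      exact ⟨bLeft h2, bRight h2⟩
    have hne : ∀ i j, r i j → ∀ Δ, Δ ≤ b i → Δ ≤ b j → Δ ≤ (Nm.eq (a i) (a j))ᶜ := by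
      intro i j hij Δ h1 h2
      refine bNot fun Δ' h3 h4 => ?_
      have h5 := h3.trans h2
      rw [hb] at h5
      exact bAbs (bAll (bAll (bRight h5) i) hij) (le_inf (h3.trans (h1.trans (hbv i))) h4)
    have hne' : ∀ i j, i ≠ j → ∀ Δ, Δ ≤ b i → Δ ≤ b j → Δ ≤ (Nm.eq (a i) (a j))ᶜ := by
      intro i j hij Δ h1 h2
      by_cases hA : r i j
      · exact hne i j hA Δ h1 h2
      · by_cases hB : r j i
        · rw [Nm.eq_symm]
          exact hne j i hB Δ h2 h1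
        · exact absurd (hr.trichotomous i j hA hB) hij
    obtain ⟨f, hf⟩ := hN.sat {i : ι // b i ≠ ⊥} (fun i => fam κ (a i.1)) (fun i => b i.1)
      (fun i => i.2) (fun i => by
        refine bNot fun Δ h1 h2 => ?_
        obtain ⟨h3, h4⟩ := hbs i.1 Δ h1
        exact bAbs h4 ((mem_idn_iff hN h3).2 h2)) (fun i j hij => by
        have h1 : b i.1 ⊓ b j.1 ≤ b i.1 := inf_le_left
        have h2 : b i.1 ⊓ b j.1 ≤ b j.1 := inf_le_right
        have h3 := hne' i.1 j.1 (fun h => hij (Subtype.ext h)) _ h1 h2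
        have h4 : b i.1 ⊓ b j.1 ≤ Γ := h1.trans (hbΓ i.1)
        rw [hΓ] at h4
        have h5 := bMP (bMP (bAll (bMP (bAll (bRight h4) (a i.1)) (hbm i.1 _ h1)) (a j.1))
          (hbm j.1 _ h2)) h3
        have h6 := bMP (bAll h5 (sn (κ := κ) fun β => fam κ (a i.1) β ⊓ fam κ (a j.1) β))
          (SatNm_inter (hbs i.1 _ h1).1)
        have h7 := (mem_idn_iff hN (sn_sub _)).1 h6
        have h8 : fam κ (sn (κ := κ) fun β => fam κ (a i.1) β ⊓ fam κ (a j.1) β) =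
            fun β => fam κ (a i.1) β ⊓ fam κ (a j.1) β := funext fun β => ordn_mem_sn β _
        rwa [h8] at h7)
    refine bEx (Nm.mk {i : ι // b i ≠ ⊥} (fun i => Nm.opair (ordn (f i).1) (a i.1))
      (fun i => b i.1)) (le_inf ?_ ?_)
    · refine funB_pairs (a := fun i : {i : ι // b i ≠ ⊥} => (ordn (f i).1 : Nm P))
        (b := fun i : {i : ι // b i ≠ ⊥} => a i.1) fun i j Γ' _ _ h => ?_
      by_cases hij : i = j
      · rw [hij]; exact Nm.bRefl _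
      · exact (eq_ordn (fun h' => hij (hf (Subtype.ext h'))) h).trans bot_le
    · refine le_iInf fun x => bImp fun Δ hΔ h1 => ?_
      rw [Nm.mem_mk] at h1
      refine bElim (h1.trans (Nm.wf_sup r hr.wf _)) fun i Δ' h2 h3 => ?_
      have h4 : Δ' ≤ b i := by
        rw [hb]
        refine le_inf (le_inf (h2.trans hΔ) (bLeft (bLeft h3))) (le_iInf fun j =>
          le_iInf fun hj => bNot fun Δ'' h5 h6 => ?_)
        refine bAbs (bAll (bAll (bRight (h5.trans h3)) j) hj) (le_inf (bLeft h6) ?_)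
        exact Nm.bTrans (bRight (bLeft (h5.trans h3))) (Nm.bSymm (bRight h6))
      by_cases hi : b i = ⊥
      · rw [hi] at h4
        exact h4.trans bot_le
      · refine bEx (ordn (f ⟨i, hi⟩).1) (le_inf (ordn_mem_ordn (f ⟨i, hi⟩).2) ?_)
        exact bPairs (a := fun i : {i : ι // b i ≠ ⊥} => (ordn (f i).1 : Nm P))
          (b := fun i : {i : ι // b i ≠ ⊥} => a i.1) ⟨i, hi⟩ h4 (Nm.bRefl _) (bRight (bLeft h3))

end Pool.SND
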