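import Pool.Agent.SND.Trn
import Pool.Agent.SND.Mdl
import Pool.Agent.SND.IdNm
import Pool.Agent.SND.SatNm
import Pool.Agent.SND.RegNm
import Pool.Agent.SND.PowNm
import Pool.Agent.SND.DiaNm
import Pool.Agent.Helper23.KB.Gn
import Pool.Agent.Helper23.CK.Ma

set_option autoImplicit false

namespace Pool.SND

open Pool.Agent.Helper23.CK
open Pool.Agent.Helper23.WT (iffV ZM ZF opair bElim bOr bMP bImp bNot bAbs bAll bEx bIff bIff_mp bIff_mpr bLeft bRight bCases bContra eq_of_forall iffV_self iffV_eq_top IsFun App IsOmega)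

private theorem Ctm_mem {P : Type 1} [Preorder P] {S : Set (Nm P)} {U : Set (RO P)}
    (hG : Gen S U) :
    hG.Tr (n := 2) (fun v => ZM.E (v 0) (v 1)) (fun v => Nm.mem (v 0) (v 1)) := by
  (repeat' first
      | with_reducible exact Gen.TrF.var _
      | with_reducible apply Gen.Tr.mem)

theorem ctm_of_ro (P : Type 1) [Preorder P] [Nonempty P] (κ : Ordinal.{0})
    (hω : Ordinal.omega0 < κ) (N : (Set.Iio κ → RO P) → RO P) (hN : SatData P κ N)
    (hR : RegB P κ) (hP : PowB P κ) (hD : NoDiaB P κ) : ∃ M : ZFSet.{0}, IsExample M := by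
  have htop : (⊤ : RO P) ≠ ⊥ := by
    intro h
    obtain ⟨p⟩ := (inferInstance : Nonempty P)
    have h1 : p ∈ (⊤ : RO P).carrier := trivial
    rw [h] at h1
    exact h1
  obtain ⟨S, U, hG, hAS, -⟩ := Pool.Agent.Helper23.KB.exists_gen (P := P) (O := Nm P) id id
    (fun _ => rfl) (K := Empty) (fun k => k.elim) (fun k => k.elim)
    ({(ordn κ : Nm P), idn N, Nm.omg} ∪ Set.range fun n => (Nm.nat n : Nm P))
    (((Set.toFinite _).countable).union (Set.countable_range _)) ⊤ htop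
  have h1 : (ordn κ : Nm P) ∈ S := hAS (Or.inl (by simp))
  have h2 : (idn N : Nm P) ∈ S := hAS (Or.inl (by simp))
  have h3 : (Nm.omg : Nm P) ∈ S := hAS (Or.inl (by simp))
  have h4 : ∀ n, (Nm.nat n : Nm P) ∈ S := fun n => hAS (Or.inr ⟨n, rfl⟩)
  have hG' : Gen S U := hG
  have h5 : ZM.E (hG'.el Nm.omg h3) (hG'.el (ordn κ) h1) := by
    refine ((Ctm_mem hG').iff_mem ![Nm.omg, ordn κ] (by intro i; fin_cases i <;> assumption)).2 ?_
    show Nm.mem Nm.omg (ordn κ) ∈ U
    rw [omg_mem_ordn hω]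
    exact hG'.top
  have h6 := hG'.isOm h4
  refine ⟨hG'.M, hG'.M_transitive, hG'.M_countable, hG'.zfc, hG'.el (ordn κ) h1,
    hG'.el (idn N) h2, ?_, ?_, ?_, ?_⟩
  · exact isInaccessible_of (hG'.val_ordn_ord κ) (om := hG'.el Nm.omg h3) h6 h5
      (regS_of hG' h1 (ordn_reg hR)) (powS_of hG' h1 (ordn_pow hP))
  · exact isIdeal_of (idS_of hG' h1 h2 (idn_id hN))
  · exact isSaturated_of (hG'.val_ordn_ord κ) (satS_of hG' h1 h2 (idn_sat hN))
  · exact not_diamond_of (noDiaS_of hG' h1 (ordn_dia hD))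

end Pool.SND
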