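import Pool.Agent.SND.Rfl
import Pool.Agent.SND.Cnt2

set_option autoImplicit false

namespace Pool.SND

open MagRad Set

universe u v

variable {κ k : Ordinal.{u}}
variable {o : Ordinal.{u} → Ordinal.{u}} {U : Ordinal.{u} → Ordinal.{u} → Ultrafilter Ordinal.{u}}

/-- the Boolean value of `A_α = Y` -/
def EqSet (o : Ordinal.{u} → Ordinal.{u})
    (U : Ordinal.{u} → Ordinal.{u} → Ultrafilter Ordinal.{u}) (κ : Ordinal.{u})
    (A : Ordinal.{u} → Ordinal.{u} → Set (Cnd o U)) (α : Ordinal.{u}) (Y : Set Ordinal.{u}) :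
    Set (Cnd o U) :=
  {p | p ∈ TopC o U κ ∧ ∀ ξ < α, (ξ ∈ Y → p ∈ A α ξ) ∧ (ξ ∉ Y → p ∈ nega (TopC o U κ) (A α ξ))}

private theorem guess_down {A : Ordinal.{u} → Ordinal.{u} → Set (Cnd o U)} {α : Ordinal.{u}}
    (hA : ∀ ξ < α, IsReg (TopC o U κ) (A α ξ)) {Y : Set Ordinal.{u}} {p q : Cnd o U}
    (hp : p ∈ EqSet o U κ A α Y) (hq : q ≤ p) : q ∈ EqSet o U κ A α Y := by
  refine ⟨TopC_comp p hp.1 q hq, fun ξ hξ => ⟨fun h => ?_, fun h => ?_⟩⟩
  · exact (hA ξ hξ).down p ((hp.2 ξ hξ).1 h) q hq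
  · exact (nega_reg TopC_comp (hA ξ hξ).down).down p ((hp.2 ξ hξ).2 h) q hq

/-- one stem and one measure determine the guessed set -/
private theorem guess_inj (H : IsCoherent κ o U) {γ : Ordinal.{u}} (hγ : γ < o κ)
    {A : Ordinal.{u} → Ordinal.{u} → Set (Cnd o U)}
    (hA : ∀ α < κ, ∀ ξ < α, IsReg (TopC o U κ) (A α ξ)) {w : Cnd o U} (hw : Below κ w)
    {X Y : Set Ordinal.{u}} (hX : X ⊆ Iio κ) (hY : Y ⊆ Iio κ) {B C : Set Ordinal.{u}}
    (h1 : {α | ∃ h : Big o U α B, cat H α w B h ∈ phi H κ α (EqSet o U κ A α (X ∩ Iio α))} ∈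
      U κ γ)
    (h2 : {α | ∃ h : Big o U α C, cat H α w C h ∈ phi H κ α (EqSet o U κ A α (Y ∩ Iio α))} ∈
      U κ γ) : X = Y := by
  have hN := H.normal κ γ hγ
  obtain ⟨μ, hμ, hμw⟩ := Below.bound (theta_pos hN) hw
  have key : {α | ∀ ξ < α, (ξ ∈ X ↔ ξ ∈ Y)} ∈ U κ γ := by
    refine um_mono (um_inter (um_inter h1 h2) (um_inter (hN.tail μ hμ) hN.conc)) ?_
    rintro α ⟨⟨⟨hB, h1⟩, hC, h2⟩, hαμ, hακ⟩ ξ hξ
    obtain ⟨t1, D1, hD1, m1⟩ := h1
    obtain ⟨t2, D2, hD2, m2⟩ := h2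
    have hb : Below α w := fun β hβ => (hμw β hβ).trans_lt hαμ
    have hBC : Big o U α (B ∩ C) := hB.inter hC
    have hv : cat H α w (B ∩ C) hBC ∈ TopC o U α := cat_top hb
    have e1 : cat H κ (cat H α w (B ∩ C) hBC) (D1 ∩ D2) (hD1.inter hD2) ∈
        EqSet o U κ A α (X ∩ Iio α) := by
      refine guess_down (hA α hακ) m1 ?_
      exact cat_le (cat_le le_rfl hb inter_subset_left) (below_top hακ t1) inter_subset_left
    have e2 : cat H κ (cat H α w (B ∩ C) hBC) (D1 ∩ D2) (hD1.inter hD2) ∈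
        EqSet o U κ A α (Y ∩ Iio α) := by
      refine guess_down (hA α hακ) m2 ?_
      exact cat_le (cat_le le_rfl hb inter_subset_right) (below_top hακ t2) inter_subset_right
    constructor
    · intro hx
      by_contra hy
      have a1 := (e1.2 ξ hξ).1 ⟨hx, hξ⟩
      have a2 := (e2.2 ξ hξ).2 (fun t => hy t.1)
      exact a2.2 _ le_rfl a1
    · intro hy
      by_contra hx
      have a1 := (e2.2 ξ hξ).1 ⟨hy, hξ⟩
      have a2 := (e1.2 ξ hξ).2 (fun t => hx t.1)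
      exact a2.2 _ le_rfl a1
  have key2 : ∀ ξ < κ, (ξ ∈ X ↔ ξ ∈ Y) := by
    intro ξ hξ
    obtain ⟨α, h3, h4⟩ := um_ne (um_inter key (hN.tail ξ hξ))
    exact h3 ξ h4
  ext ξ
  constructor
  · intro h
    exact (key2 ξ (hX h)).1 h
  · intro h
    exact (key2 ξ (hY h)).2 h

/-- some subset of `κ` is not guessed by the parts up to `α`, for large sets of `α` -/
theorem exists_unguessed (H : IsCoherent κ o U) (hpos : 0 < o κ)
    (hc : (o κ).card < 2 ^ κ.card) (A : Ordinal.{u} → Ordinal.{u} → Set (Cnd o U))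
    (hA : ∀ α < κ, ∀ ξ < α, IsReg (TopC o U κ) (A α ξ)) :
    ∃ X ⊆ Iio κ, Big o U κ {α | phi H κ α (EqSet o U κ A α (X ∩ Iio α)) = ∅} := by
  classical
  have hW0 := H.normal κ 0 hpos
  have hω := nm_omega hW0
  obtain ⟨e, he1, he2⟩ := nm_stem (o := o) (U := U) hW0
  by_contra hcon
  have h1 : ∀ X : Set Ordinal.{u}, X ⊆ Iio κ → ∃ γ, γ < o κ ∧ ∃ (w : Cnd o U)
      (B : Set Ordinal.{u}), Below κ w ∧ {α | ∃ h : Big o U α B, cat H α w B h ∈
        phi H κ α (EqSet o U κ A α (X ∩ Iio α))} ∈ U κ γ := by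
    intro X hX
    by_contra hno
    refine hcon ⟨X, hX, fun γ hγ => ?_⟩
    by_contra hn
    have h2 : {α | ¬ phi H κ α (EqSet o U κ A α (X ∩ Iio α)) = ∅} ∈ U κ γ := um_not_setOf hn
    have hex : ∀ α : Ordinal.{u}, ∃ r : Cnd o U,
        ¬ phi H κ α (EqSet o U κ A α (X ∩ Iio α)) = ∅ →
          r ∈ phi H κ α (EqSet o U κ A α (X ∩ Iio α)) := by
      intro α
      by_cases h3 : phi H κ α (EqSet o U κ A α (X ∩ Iio α)) = ∅
      · exact ⟨emp o U, fun h => absurd h3 h⟩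
      · obtain ⟨r, hr⟩ := nonempty_iff_ne_empty.2 h3
        exact ⟨r, fun _ => hr⟩
    choose r hr using hex
    obtain ⟨q, hq, hqr⟩ := rf_lift H hγ r (um_mono h2 fun α hα => (hr α hα).1)
    refine hno ⟨γ, hγ, low q, q.S κ, low_below q, um_mono (um_inter h2 hqr) ?_⟩
    rintro α ⟨h3, h4, h5⟩
    refine ⟨h4, ?_⟩
    have h6 := hr α h3
    rw [← h5] at h6
    exact h6
  choose γ hγ w B hw hB using h1
  have hinj : Function.Injective (fun X : 𝒫 (Iio κ) =>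
      ((⟨e (w X.1 X.2), he1 _ (hw X.1 X.2)⟩, ⟨γ X.1 X.2, hγ X.1 X.2⟩) :
        Iio κ × Iio (o κ))) := by
    rintro ⟨X, hX⟩ ⟨Y, hY⟩ hXY
    have e1 : e (w X hX) = e (w Y hY) := congrArg (fun t => t.1.1) hXY
    have e2 : γ X hX = γ Y hY := congrArg (fun t => t.2.1) hXY
    have e3 := he2 _ _ (hw X hX) (hw Y hY) e1
    have h3 := hB X hX
    have h4 := hB Y hY
    rw [← e2, ← e3] at h4
    exact Subtype.ext (guess_inj H (hγ X hX) hA (hw X hX) hX hY h3 h4)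
  have hcard := Cardinal.mk_le_of_injective hinj
  rw [Cardinal.mk_powerset, ← Cardinal.mul_def, Cardinal.mk_Iio_ordinal,
    Cardinal.mk_Iio_ordinal, ← Cardinal.lift_mul, ← Cardinal.lift_two_power,
    Cardinal.lift_le] at hcard
  have hinf : Cardinal.aleph0 ≤ κ.card := Ordinal.aleph0_le_card.2 hω.le
  have h3 : κ.card * (o κ).card < 2 ^ κ.card :=
    Cardinal.mul_lt_of_lt (hinf.trans (Cardinal.cantor _).le) (Cardinal.cantor _) hc
  exact absurd hcard (not_le.2 h3)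


end Pool.SND
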