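import Pool.Agent.SND.Guess

set_option autoImplicit false

namespace Pool.SND

open MagRad Set

universe u v

variable {κ k : Ordinal.{u}}
variable {o : Ordinal.{u} → Ordinal.{u}} {U : Ordinal.{u} → Ordinal.{u} → Ultrafilter Ordinal.{u}}

/-- the Boolean values of `A_α = Y` are regular -/
theorem NoDia_reg (A : Ordinal.{u} → Ordinal.{u} → Set (Cnd o U))
    (hA : ∀ α < κ, ∀ ξ < α, IsReg (TopC o U κ) (A α ξ)) {α : Ordinal.{u}} (hα : α < κ)
    (Y : Set Ordinal.{u}) : IsReg (TopC o U κ) (EqSet o U κ A α Y) := by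
  refine ⟨fun p hp => hp.1, fun p hp q hq => ⟨TopC_comp p hp.1 q hq, fun ξ hξ => ⟨fun h => ?_,
    fun h => ?_⟩⟩, fun p hp h => ⟨hp, fun ξ hξ => ⟨fun h' => ?_, fun h' => ?_⟩⟩⟩
  · exact (hA α hα ξ hξ).down p ((hp.2 ξ hξ).1 h) q hq
  · exact (nega_reg TopC_comp (hA α hα ξ hξ).down).down p ((hp.2 ξ hξ).2 h) q hq
  · refine (hA α hα ξ hξ).dense p hp fun q hq => ?_
    obtain ⟨r, hr, hrE⟩ := h q hq
    exact ⟨r, hr, (hrE.2 ξ hξ).1 h'⟩
  · refine (nega_reg TopC_comp (hA α hα ξ hξ).down).dense p hp fun q hq => ?_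
    obtain ⟨r, hr, hrE⟩ := h q hq
    exact ⟨r, hr, (hrE.2 ξ hξ).2 h'⟩

/-- one measure one set decides everything about the stems up to `α` -/
theorem NoDia_set (H : IsCoherent κ o U) (A : Ordinal.{u} → Ordinal.{u} → Set (Cnd o U))
    (hA : ∀ α < κ, ∀ ξ < α, IsReg (TopC o U κ) (A α ξ)) {α : Ordinal.{u}} (hα : α < κ) :
    ∃ (B : Set Ordinal.{u}) (hB : Big o U κ B), ∀ w : Cnd o U, (∀ β ∈ w.dom, β ≤ α) →
      ∀ Y ⊆ Iio α, Good H κ (EqSet o U κ A α Y) w →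
        cat H κ w B hB ∈ EqSet o U κ A α Y ∨
          cat H κ w B hB ∈ nega (TopC o U κ) (EqSet o U κ A α Y) := by
  have hex : ∀ (Y : Set Ordinal.{u}) (w : Cnd o U), ∃ (C : Set Ordinal.{u}) (hC : Big o U κ C),
      Good H κ (EqSet o U κ A α Y) w → cat H κ w C hC ∈ EqSet o U κ A α Y ∨
        cat H κ w C hC ∈ nega (TopC o U κ) (EqSet o U κ A α Y) := by
    intro Y w
    by_cases hg : Good H κ (EqSet o U κ A α Y) w
    · obtain ⟨C, hC, h⟩ := hg
      exact ⟨C, hC, fun _ => h⟩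
    · exact ⟨univ, Big.univ, fun h => absurd h hg⟩
  choose C hC hCd using hex
  have hB : Big o U κ {z | ∀ Y : {Y : Set Ordinal.{u} // Y ⊆ Iio α},
      ∀ w : Cnd o U, (∀ β ∈ w.dom, β ≤ α) → z ∈ C Y.1 w} := by
    intro γ hγ
    have hN := H.normal κ γ hγ
    obtain ⟨η, hη, e, he, hinj⟩ := nm_pow hN hα
    refine nm_complete hN hη (fun Y : {Y : Set Ordinal.{u} // Y ⊆ Iio α} => e Y.1) ?_ ?_
      (Q := fun Y z => ∀ w : Cnd o U, (∀ β ∈ w.dom, β ≤ α) → z ∈ C Y.1 w) ?_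
    · intro Y Y' h
      exact Subtype.ext (hinj Y.1 Y.2 Y'.1 Y'.2 h)
    · intro Y
      exact he Y.1 Y.2
    · intro Y
      exact all_stem hN hα (Q := fun w z => z ∈ C Y.1 w) fun w _ => hC Y.1 w γ hγ
  refine ⟨_, hB, fun w hw Y hY hg => ?_⟩
  have hbw : Below κ w := fun β hβ => (hw β hβ).trans_lt hα
  have hle : cat H κ w _ hB ≤ cat H κ w (C Y w) (hC Y w) :=
    cat_le le_rfl hbw fun z hz => hz ⟨Y, hY⟩ w hw
  rcases hCd Y w hg with h | h
  · exact Or.inl ((NoDia_reg A hA hα Y).down _ h _ hle)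
  · exact Or.inr ((nega_reg TopC_comp (NoDia_reg A hA hα Y).down).down _ h _ hle)

/-- the diamond principle fails -/
theorem no_dia (H : IsCoherent κ o U) (hpos : 0 < o κ)
    (hc : (o κ).card < 2 ^ κ.card) (A : Ordinal.{u} → Ordinal.{u} → Set (Cnd o U))
    (hA : ∀ α < κ, ∀ ξ < α, IsReg (TopC o U κ) (A α ξ)) {p : Cnd o U} (hp : p ∈ TopC o U κ) :
    ∃ q ≤ p, ∃ X ⊆ Iio κ, ∃ γ < κ, ∀ α, γ < α → α < κ → ∀ r ≤ q, α ∈ r.dom →
      r ∉ EqSet o U κ A α (X ∩ Iio α) := by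
  obtain ⟨X, hX, hXB⟩ := exists_unguessed H hpos hc A hA
  -- the sets deciding the stems
  have hex : ∀ α : Ordinal.{u}, ∃ B : Set Ordinal.{u}, ∃ hB : Big o U κ B, α < κ →
      ∀ w : Cnd o U, (∀ β ∈ w.dom, β ≤ α) →
      ∀ Y ⊆ Iio α, Good H κ (EqSet o U κ A α Y) w →
        cat H κ w B hB ∈ EqSet o U κ A α Y ∨
          cat H κ w B hB ∈ nega (TopC o U κ) (EqSet o U κ A α Y) := by
    intro α
    by_cases hα : α < κ
    · obtain ⟨B, hB, h⟩ := NoDia_set H A hA hα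
      exact ⟨B, hB, fun _ => h⟩
    · exact ⟨univ, Big.univ, fun h => absurd h hα⟩
  choose B hB hBd using hex
  have hΔ : Big o U κ {ν | ∀ α < ν, ν ∈ B α} := fun γ hγ =>
    (H.normal κ γ hγ).diag B fun ξ _ => hB ξ γ hγ
  have hpos' : 0 < κ := theta_pos (H.normal κ 0 hpos)
  have hD : Big o U κ (p.S κ ∩ ({ν | ∀ α < ν, ν ∈ B α} ∩
      {α | phi H κ α (EqSet o U κ A α (X ∩ Iio α)) = ∅})) :=
    (p.big hp.1).inter (hΔ.inter hXB)
  obtain ⟨γ, hγ, hγb⟩ := Below.bound hpos' (below_rst (q := p) (z := κ))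
  refine ⟨cat H κ (rst p (Iio κ)) _ hD, ?_, X, hX, γ, hγ, ?_⟩
  · have h1 : cat H κ (rst p (Iio κ)) _ hD ≤ cat H κ (rst p (Iio κ)) (p.S κ) (p.big hp.1) :=
      cat_le le_rfl below_rst inter_subset_left
    rw [← top_eq_cat (H := H) hp] at h1
    exact h1
  · intro α hγα hακ r hr hαr hrE
    obtain ⟨-, -, h3⟩ := le_cat_gt hr hγb hαr hγα
    have hαE : phi H κ α (EqSet o U κ A α (X ∩ Iio α)) = ∅ := by
      rcases h3 with h3 | h3
      · exact absurd h3 hακ.ne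
      · exact h3.2.2
    obtain ⟨r', hr', hdom, hcl⟩ := clean_dense H α r
    have hreg := NoDia_reg A hA hακ (X ∩ Iio α)
    have hr'E : r' ∈ EqSet o U κ A α (X ∩ Iio α) := hreg.down r hrE r' hr'
    have hαr' : α ∈ r'.dom := by
      rw [hdom]
      exact hαr
    have hv : rst r' (Iic α) ∈ TopC o U α := rst_top hαr'
    obtain ⟨v, hvle, hvg⟩ := prikry H hreg hακ (w := rst r' (Iic α)) hv.2
    have hvT : v ∈ TopC o U α := TopC_comp _ hv v hvle
    obtain ⟨s, hs, hsv, hsdom, hsS, -⟩ := graft H hvle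
    have hsT : s ∈ TopC o U κ := TopC_comp _ (TopC_comp _ hrE.1 r' hr') s hs
    have hsE : s ∈ EqSet o U κ A α (X ∩ Iio α) := hreg.down r' hr'E s hs
    have hsc : s ≤ cat H κ v (B α) (hB α) := by
      refine le_cat_intro (μ := α) hsT hsv.le hvT.2 hακ fun β hβ hαβ => ?_
      have hβr' : β ∈ r'.dom := (hsdom β hαβ).1 hβ
      obtain ⟨-, h5, h6⟩ := le_cat_gt (hr'.trans hr) hγb hβr' (hγα.trans hαβ)
      refine ⟨?_, ?_⟩
      · rw [hsS β hαβ]
        intro x hx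
        exact (h5 hx).2.1 α (hcl β hβr' hαβ hx)
      · rcases h6 with h6 | h6
        · exact Or.inl h6
        · exact Or.inr (h6.2.1 α hαβ)
    rcases hBd α hακ v hvT.2 (X ∩ Iio α) inter_subset_right hvg with h | h
    · have : v ∈ phi H κ α (EqSet o U κ A α (X ∩ Iio α)) := ⟨hvT, B α, hB α, h⟩
      rw [hαE] at this
      exact this
    · exact h.2 s hsc hsE


end Pool.SND
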