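import Pool.Agent.SND.RoD
import Pool.Agent.SND.NoDia
import Pool.Agent.SND.Club

set_option autoImplicit false

namespace Pool.SND

open MagRad
open Pool.Agent.Helper23.CK
open Pool.Agent.Helper23.WT (iffV ZM opair)

variable {κ : Ordinal.{0}}
variable {o : Ordinal.{0} → Ordinal.{0}} {U : Ordinal.{0} → Ordinal.{0} → Ultrafilter Ordinal.{0}}

open Classical in
/-- the sequence as sets of conditions -/
private noncomputable def roN_seq (A : Set.Iio κ → Set.Iio κ → RO (MR o U κ)) :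
    Ordinal.{0} → Ordinal.{0} → Set (Cnd o U) :=
  fun α ξ => if h : α < κ ∧ ξ < κ then cr (A ⟨α, h.1⟩ ⟨ξ, h.2⟩) else ∅

private theorem roN_seq_of (A : Set.Iio κ → Set.Iio κ → RO (MR o U κ)) {α ξ : Ordinal.{0}}
    (hα : α < κ) (hξ : ξ < κ) : roN_seq A α ξ = cr (A ⟨α, hα⟩ ⟨ξ, hξ⟩) := by
  unfold roN_seq
  rw [dif_pos ⟨hα, hξ⟩]

open Classical in
/-- the name of the club -/
private noncomputable def roN_club (o : Ordinal.{0} → Ordinal.{0})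
    (U : Ordinal.{0} → Ordinal.{0} → Ultrafilter Ordinal.{0}) (κ γ : Ordinal.{0}) :
    Set.Iio κ → RO (MR o U κ) :=
  fun α => if γ < α.1 then occR α.1 else ⊥

private theorem roN_occ {α : Ordinal.{0}} {p : MR o U κ} :
    p ∈ (occR α : RO (MR o U κ)).carrier ↔ ∀ q ≤ p, ∃ r ≤ q, α ∈ r.1.dom := Iff.rfl

private theorem roN_club_lt {γ : Ordinal.{0}} {α : Set.Iio κ} {p : MR o U κ}
    (h : p ∈ (roN_club o U κ γ α).carrier) : γ < α.1 ∧ p ∈ (occR α.1 : RO (MR o U κ)).carrier := by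
  unfold roN_club at h
  by_cases h' : γ < α.1
  · rw [if_pos h'] at h
    exact ⟨h', h⟩
  · rw [if_neg h'] at h
    exact absurd h RO.not_mem_bot

private theorem roN_club_of {γ : Ordinal.{0}} {α : Set.Iio κ} {p : MR o U κ} (h : γ < α.1)
    (hp : p ∈ (occR α.1 : RO (MR o U κ)).carrier) : p ∈ (roN_club o U κ γ α).carrier := by
  unfold roN_club
  rw [if_pos h]
  exact hp

private theorem roN_unb (H : IsCoherent κ o U) (hpos : 0 < o κ) {γ : Ordinal.{0}} (hγ : γ < κ)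
    (p : MR o U κ) :
    p ∈ (⨅ β : Set.Iio κ, ⨆ γ' : Set.Iio κ, ⨆ _ : β < γ', roN_club o U κ γ γ').carrier := by
  refine RO.mem_iInf.2 fun β => RO.mem_iSup.2 fun q hq => ?_
  obtain ⟨r, hr, α, hα, h1, h2⟩ := occ_unb H hpos (max_lt hγ β.2) q.2
  refine ⟨⟨r, TopC_comp q.1 q.2 r hr⟩, hr, ⟨α, h2⟩, ?_⟩
  have h3 : β < (⟨α, h2⟩ : Set.Iio κ) := (le_max_right γ β.1).trans_lt h1
  refine mem_iSup_of h3 (roN_club_of ((le_max_left γ β.1).trans_lt h1) ?_)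
  intro s hs
  exact ⟨s, le_rfl, hs.1 hα⟩

private theorem roN_closed (H : IsCoherent κ o U) {γ : Ordinal.{0}} (δ : Set.Iio κ)
    (hδ : (0 : Ordinal.{0}) < δ.1) (p : MR o U κ)
    (h : p ∈ (⨅ β : Set.Iio κ, ⨅ _ : β < δ, ⨆ γ' : Set.Iio κ, ⨆ _ : β < γ' ∧ γ' < δ,
      roN_club o U κ γ γ').carrier) : p ∈ (roN_club o U κ γ δ).carrier := by
  have key : ∀ q ≤ p, ∀ β : Ordinal.{0}, β < δ.1 → ∃ r ≤ q, ∃ γ' : Set.Iio κ,
      (β < γ'.1 ∧ γ'.1 < δ.1) ∧ r ∈ (roN_club o U κ γ γ').carrier := by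
    intro q hq β hβ
    have h1 := RO.mem_iInf.1 (RO.mem_iInf.1 h ⟨β, hβ.trans δ.2⟩) hβ
    obtain ⟨r, hr, γ', h2⟩ := RO.mem_iSup.1 h1 q hq
    obtain ⟨s, hs, h3, h4⟩ := RO.mem_iSup.1 h2 r le_rfl
    exact ⟨s, hs.trans hr, γ', ⟨h3.1, h3.2⟩, h4⟩
  obtain ⟨r, -, γ', ⟨-, h2⟩, h3⟩ := key p le_rfl 0 hδ
  refine roN_club_of ((roN_club_lt h3).1.trans h2) ?_
  intro q hq
  by_contra hc
  push Not at hc
  obtain ⟨q', hq', β, hβ, h4⟩ := occ_closed H hδ δ.2 q.2 (hc q le_rfl)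
  have hq'2 : (⟨q', TopC_comp q.1 q.2 q' hq'⟩ : MR o U κ) ≤ p := le_trans (show _ ≤ q from hq') hq
  obtain ⟨r, hr, γ', ⟨h5, h6⟩, h7⟩ := key _ hq'2 β hβ
  obtain ⟨s, hs, h8⟩ := (roN_club_lt h7).2 r le_rfl
  exact absurd (h4 s.1 (hs.trans hr) γ'.1 h8 h6) (not_le.2 h5)

theorem mr_dia (H : IsCoherent κ o U) (hpos : 0 < o κ) (hc : (o κ).card < 2 ^ κ.card) :
    NoDiaB (MR o U κ) κ := by
  intro A p _
  refine RO.mem_iSup.2 fun q _ => ?_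
  obtain ⟨q0, hq0, X, hX, γ, hγ, hno⟩ := no_dia H hpos hc (roN_seq A) (by
    intro α hα ξ hξ
    rw [roN_seq_of A hα (hξ.trans hα)]
    exact cr_reg _) q.2
  refine ⟨⟨q0, TopC_comp q.1 q.2 q0 hq0⟩, hq0, {ξ | ξ.1 ∈ X}, ?_⟩
  refine mem_iSup_of (roN_club o U κ γ) ?_
  refine RO.mem_inf.2 ⟨RO.mem_inf.2 ⟨roN_unb H hpos hγ _, ?_⟩, ?_⟩
  · refine RO.mem_iInf.2 fun δ => RO.mem_iInf.2 fun hδ => RO.mem_himp.2 fun q1 _ h1 => ?_
    exact roN_closed H δ hδ q1 h1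
  · refine RO.mem_iInf.2 fun α => RO.mem_himp.2 fun q1 hq1 h1 => ?_
    rw [RO.mem_compl]
    intro q2 hq2 h2
    obtain ⟨hγα, hocc⟩ := roN_club_lt h1
    obtain ⟨r, hr, hαr⟩ := hocc q2 hq2
    refine hno α.1 hγα α.2 r.1 (hr.trans (hq2.trans hq1)) hαr ⟨r.2, ?_⟩
    intro ξ hξ
    have hξκ : ξ < κ := hξ.trans α.2
    have h3 := RO.mem_iInf.1 (RO.mem_iInf.1 h2 ⟨ξ, hξκ⟩) hξ
    rw [roN_seq_of A α.2 hξκ]
    constructor
    · intro hξX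
      refine mem_cr.2 ?_
      refine RO.mem_himp.1 (RO.mem_inf.1 h3).2 r hr ?_
      exact mem_iSup_of (show (⟨ξ, hξκ⟩ : Set.Iio κ) ∈ {ξ : Set.Iio κ | ξ.1 ∈ X} from hξX.1)
        RO.mem_top
    · intro hξX
      rw [← cr_compl]
      refine mem_cr.2 ?_
      rw [RO.mem_compl]
      intro s hs hsA
      have h4 := RO.mem_himp.1 (RO.mem_inf.1 h3).1 s (hs.trans hr) hsA
      obtain ⟨t, -, h5, -⟩ := RO.mem_iSup.1 h4 s le_rfl
      exact hξX ⟨h5, hξ⟩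

end Pool.SND
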