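import Pool.Agent.SND.RoD
import Pool.Agent.SND.Code
import Pool.Agent.SND.Club

set_option autoImplicit false

namespace Pool.SND

open MagRad
open Pool.Agent.Helper23.CK
open Pool.Agent.Helper23.WT (iffV ZM opair)

variable {κ : Ordinal.{0}}
variable {o : Ordinal.{0} → Ordinal.{0}} {U : Ordinal.{0} → Ordinal.{0} → Ultrafilter Ordinal.{0}}

theorem mr_pow (H : IsCoherent κ o U) (hpos : 0 < o κ) : PowB (MR o U κ) κ := by
  classical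
  intro δ p _
  refine RO.mem_iSup.2 fun q _ => ?_
  obtain ⟨r, hrq, α, hαr, hδα, hακ⟩ := occ_unb H hpos (γ := δ.1) δ.2 q.2
  have hrK : r ∈ TopC o U κ := TopC_comp q.1 q.2 r hrq
  obtain ⟨η, hη, Y, hY⟩ := nm_fam (o := o) (U := U) (H.normal κ 0 hpos) (δ := α) (ε := δ.1)
    hακ δ.2
  refine ⟨⟨r, hrK⟩, hrq, ⟨η, hη⟩, ?_⟩
  refine mem_iSup_of (fun c ξ => ro (lft o U κ α (Y c.1 ξ.1)) (lft_reg _)) ?_
  refine RO.mem_iInf.2 fun D => RO.mem_iSup.2 fun t ht => ?_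
  have hαt : α ∈ t.1.dom := ht.1 hαr
  set D' : Ordinal.{0} → Set (Cnd o U) :=
    fun ξ => if h : ξ < δ.1 then cr (D ⟨ξ, h⟩) else ∅ with hD'
  have hD'r : ∀ ξ < δ.1, IsReg (TopC o U κ) (D' ξ) := by
    intro ξ hξ
    rw [hD']
    simp only [dif_pos hξ]
    exact cr_reg _
  obtain ⟨s, hst, c, hc, hs⟩ := code_lemma H hδα.le κ hακ D' hD'r t.1 t.2 hαt
  have hsK : s ∈ TopC o U κ := TopC_comp t.1 t.2 s hst
  obtain ⟨i, hi, hYi⟩ := hY c fun ξ hξ w hw β hβ => ((hc ξ hξ).sub hw).2 β hβ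
  refine ⟨⟨s, hsK⟩, hst, ⟨i, hi⟩, RO.mem_iInf.2 fun ξ => ?_⟩
  have h1 : ∀ u : MR o U κ, u.1 ≤ s → (u ∈ (D ξ).carrier ↔
      u ∈ (ro (lft o U κ α (Y i ξ.1)) (lft_reg _) : RO (MR o U κ)).carrier) := by
    intro u hu
    have h2 := hs ξ.1 ξ.2 u.1 hu
    rw [mem_ro, hYi ξ.1 ξ.2, ← h2, hD']
    simp only [dif_pos (show ξ.1 < δ.1 from ξ.2)]
    exact mem_cr.symm
  exact RO.mem_inf.2 ⟨RO.mem_himp.2 fun u hu h => (h1 u hu).1 h,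
    RO.mem_himp.2 fun u hu h => (h1 u hu).2 h⟩


end Pool.SND
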