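import Pool.Agent.SND.RoD
import Pool.Agent.SND.Bound

set_option autoImplicit false

namespace Pool.SND

open MagRad
open Pool.Agent.Helper23.CK
open Pool.Agent.Helper23.WT (iffV ZM opair)

variable {κ : Ordinal.{0}}
variable {o : Ordinal.{0} → Ordinal.{0}} {U : Ordinal.{0} → Ordinal.{0} → Ultrafilter Ordinal.{0}}

theorem mr_reg (H : IsCoherent κ o U) (hL : IsLong κ (o κ)) : RegB (MR o U κ) κ := by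
  classical
  intro δ G p hp
  have hp' : ∀ ξ : Set.Iio δ.1, p ∈ (⨆ α, G ξ α).carrier := fun ξ => RO.mem_iInf.1 hp ξ
  refine RO.mem_iSup.2 fun q hq => ?_
  have hqξ : ∀ ξ : Set.Iio δ.1, ∀ q' ≤ q, ∃ r ≤ q', ∃ α, r ∈ (G ξ α).carrier := fun ξ q' hq' =>
    RO.mem_iSup.1 (hp' ξ) q' (hq'.trans hq)
  obtain ⟨r, hr, γ, hγ, hrγ⟩ := reg_bound H hL (δ := δ.1) δ.2
    (fun ξ α => if h : ξ < δ.1 ∧ α < κ then cr (G ⟨ξ, h.1⟩ ⟨α, h.2⟩) else ∅)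
    (by
      intro ξ hξ α hα
      rw [dif_pos ⟨hξ, hα⟩]
      exact cr_reg _)
    (p := q.1) q.2
    (by
      intro ξ hξ q' hq'
      have hK : q' ∈ TopC o U κ := TopC_comp _ q.2 _ hq'
      obtain ⟨r, hr, α, hα⟩ := hqξ ⟨ξ, hξ⟩ ⟨q', hK⟩ hq'
      refine ⟨r.1, hr, α.1, α.2, ?_⟩
      rw [dif_pos ⟨hξ, α.2⟩]
      exact mem_cr.2 hα)
  have hrK : r ∈ TopC o U κ := TopC_comp _ q.2 _ hr
  refine ⟨⟨r, hrK⟩, hr, ⟨γ, hγ⟩, RO.mem_iInf.2 fun ξ => RO.mem_iSup.2 fun q' hq' => ?_⟩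
  obtain ⟨s, hs, α, hα, hsα⟩ := hrγ ξ.1 ξ.2 q'.1 hq'
  have hακ : α < κ := hα.trans hγ
  rw [dif_pos ⟨ξ.2, hακ⟩] at hsα
  obtain ⟨hsK, hsG⟩ := hsα
  refine ⟨⟨s, hsK⟩, hs, ⟨α, hακ⟩, RO.mem_iSup.2 fun s' hs' => ⟨s', le_rfl, hα, ?_⟩⟩
  exact (G ξ ⟨α, hακ⟩).lower hs' hsG

end Pool.SND
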