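import Pool.Agent.SND.Lng
import Pool.Agent.SND.DkR
import Pool.Agent.SND.DkM

set_option autoImplicit false

namespace Pool.SND

open MagRad Set

universe u v

variable {κ k : Ordinal.{u}}
variable {o : Ordinal.{u} → Ordinal.{u}} {U : Ordinal.{u} → Ordinal.{u} → Ultrafilter Ordinal.{u}}

private theorem top_reg : RegFam o U κ (fun _ => TopC o U κ) := fun _ _ =>
  ⟨fun _ h => h, TopC_comp, fun _ h _ => h⟩

private theorem inter_reg {δ : Ordinal.{u}} {F : Ordinal.{u} → Ordinal.{u} → Set (Cnd o U)}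
    (hF : ∀ ξ < δ, RegFam o U κ (F ξ)) :
    RegFam o U κ (fun α => {q | q ∈ TopC o U κ ∧ ∀ ξ < δ, q ∈ F ξ α}) := by
  refine fun α hα => ⟨fun q hq => hq.1, fun q hq r hr =>
    ⟨TopC_comp q hq.1 r hr, fun ξ hξ => (hF ξ hξ α hα).down q (hq.2 ξ hξ) r hr⟩,
    fun q hq h => ⟨hq, fun ξ hξ => (hF ξ hξ α hα).dense q hq fun r hr => ?_⟩⟩
  obtain ⟨s, hs, hsm⟩ := h r hr
  exact ⟨s, hs, hsm.2 ξ hξ⟩

theorem null_top (H : IsCoherent κ o U) {J : Set (Set Ordinal.{u})}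
    (hJ : IsSatIdeal κ (o κ) J) : Null H J (fun _ => TopC o U κ) = ∅ := by
  refine eq_empty_of_forall_notMem fun p hp => ?_
  obtain ⟨hpT, Z, hZ, h⟩ := hp
  refine hJ.proper (hJ.down Z hZ _ fun k hk => ?_)
  by_contra hkZ
  have hk' : k < o κ := hk
  obtain ⟨α, -, -, r, -, hr⟩ := dk_wit H hk' (cpl_reg top_reg) hpT (h k hk' hkZ)
    (U κ k).univ_mem
  exact hr.2 r le_rfl hr.1

theorem null_mono (H : IsCoherent κ o U) {J : Set (Set Ordinal.{u})}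
    {F G : Ordinal.{u} → Set (Cnd o U)} (hF : RegFam o U κ F) (hG : RegFam o U κ G)
    {p : Cnd o U} (hp : p ∈ Null H J F) (h : ∀ α < κ, ∀ r ≤ p, r ∈ G α → r ∈ F α) :
    p ∈ Null H J G := by
  obtain ⟨hpT, Z, hZ, h'⟩ := hp
  refine ⟨hpT, Z, hZ, fun k hk hkZ => dk_mono H hk (cpl_reg hF) hpT ?_ (h' k hk hkZ)⟩
  intro α hα r hr hrF
  exact ⟨hrF.1, fun q hq hqG => hrF.2 q hq (h α hα q (hq.trans hr) hqG)⟩

theorem null_bdd (H : IsCoherent κ o U) {J : Set (Set Ordinal.{u})} (hJ : IsSatIdeal κ (o κ) J)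
    {F : Ordinal.{u} → Set (Cnd o U)} (hF : RegFam o U κ F) {γ : Ordinal.{u}} (hγ : γ < κ)
    (h : ∀ α, γ ≤ α → α < κ → F α = ∅) : Null H J F = TopC o U κ := by
  refine Subset.antisymm (fun p hp => hp.1) fun p hp => ⟨hp, ∅, hJ.empty, fun k hk _ => ?_⟩
  refine dk_of_mem H hk (cpl_reg hF) hp ?_
  have hN := H.normal κ k hk
  refine um_mono (um_inter (hN.tail γ hγ) hN.conc) ?_
  rintro α ⟨h1, h2⟩
  refine ⟨hp, fun q _ hqF => ?_⟩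
  rw [h α (show γ < α from h1).le h2] at hqF
  exact hqF

theorem null_compl (H : IsCoherent κ o U) {J : Set (Set Ordinal.{u})}
    (hJ : IsSatIdeal κ (o κ) J) {δ : Ordinal.{u}} (hδ : δ < κ)
    {F : Ordinal.{u} → Ordinal.{u} → Set (Cnd o U)} (hF : ∀ ξ < δ, RegFam o U κ (F ξ))
    {p : Cnd o U} (hp : p ∈ TopC o U κ) (h : ∀ ξ < δ, p ∈ Null H J (F ξ))
    {G : Ordinal.{u} → Set (Cnd o U)} (hG : RegFam o U κ G)
    (hGF : ∀ α < κ, ∀ r ∈ G α, ∃ s ≤ r, ∃ ξ < δ, s ∈ F ξ α) : p ∈ Null H J G := by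
  have hex : ∀ ξ : Ordinal.{u}, ∃ Z ∈ J, ξ < δ → ∀ (k : Ordinal.{u}) (hk : k < o κ), k ∉ Z →
      tk hk.le p ∈ Dk H k (cpl κ (F ξ)) := by
    intro ξ
    by_cases hξ : ξ < δ
    · obtain ⟨_, Z, hZ, hZ'⟩ := h ξ hξ
      exact ⟨Z, hZ, fun _ => hZ'⟩
    · exact ⟨∅, hJ.empty, fun h' => absurd h' hξ⟩
  choose Z hZ hZ' using hex
  refine ⟨hp, _, hJ.union Z fun ξ _ => hZ ξ, fun k hk hkZ => ?_⟩
  have h1 : ∀ ξ < δ, RegFam o U κ (cpl κ (F ξ)) := fun ξ hξ => cpl_reg (hF ξ hξ)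
  refine dk_mono H hk (inter_reg h1) hp ?_ (dk_inter H hk hδ h1 (tk_top.2 hp) fun ξ hξ =>
    hZ' ξ hξ k hk fun hkξ => hkZ ⟨ξ, hξ.trans hδ, hkξ⟩)
  intro α hα r hr hrI
  refine ⟨hrI.1, fun q hq hqG => ?_⟩
  obtain ⟨s, hs, ξ, hξ, hsF⟩ := hGF α hα q hqG
  exact (hrI.2 ξ hξ).2 s (hs.trans hq) hsF

end Pool.SND
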