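import Pool.Agent.SND.Cap
import Pool.Agent.SND.DkR
import Pool.Agent.SND.DkM

set_option autoImplicit false

namespace Pool.SND

open MagRad Set

universe u v

variable {κ k : Ordinal.{u}}
variable {o : Ordinal.{u} → Ordinal.{u}} {U : Ordinal.{u} → Ordinal.{u} → Ultrafilter Ordinal.{u}}

private theorem nullR_union {μ : Ordinal.{u}} {J : Set (Set Ordinal.{u})} (hJ : IsSatIdeal κ μ J)
    (h1 : 1 < κ) {A B : Set Ordinal.{u}} (hA : A ∈ J) (hB : B ∈ J) : A ∪ B ∈ J := by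
  classical
  refine hJ.down _ (hJ.union (fun ξ => if ξ = 0 then A else B) fun ξ _ => ?_) _ ?_
  · by_cases h : ξ = 0
    · simp only [h, if_true]
      exact hA
    · simp only [h, if_false]
      exact hB
  · rintro x (hx | hx)
    · exact ⟨0, zero_lt_one.trans h1, by simpa using hx⟩
    · exact ⟨1, h1, by simpa using hx⟩

theorem null_reg (H : IsCoherent κ o U) {J : Set (Set Ordinal.{u})} (hJ : IsSatIdeal κ (o κ) J)
    {F : Ordinal.{u} → Set (Cnd o U)} (hF : RegFam o U κ F) :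
    IsReg (TopC o U κ) (Null H J F) := by
  classical
  have hL := hJ.long
  have hcF := cpl_reg hF
  refine ⟨fun p hp => hp.1, fun p hp q hq => ?_, fun p hp hd => ?_⟩
  · obtain ⟨hp1, Z, hZ, hp2⟩ := hp
    exact ⟨TopC_comp p hp1 q hq, Z, hZ, fun k hk hkZ =>
      (dk_reg H hk hcF).down _ (hp2 k hk hkZ) (tk hk.le q) hq⟩
  · have hW := H.normal κ 0 hL.pos
    obtain ⟨e, he, hinj⟩ := nm_stem (o := o) (U := U) hW
    have h1 : (1 : Ordinal.{u}) < κ := by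
      have h2 := nm_succ hW (theta_pos hW)
      rwa [Ordinal.succ_zero] at h2
    have hz : ∀ ξ : Ordinal.{u}, ∃ Z ∈ J, ∃ a : Cnd o U,
        (∃ q : Cnd o U, q ≤ p ∧ q ∈ Null H J F ∧ e (rst q (Iio κ)) = ξ) →
          (a ≤ p ∧ a ∈ TopC o U κ ∧ e (rst a (Iio κ)) = ξ) ∧
            ∀ (k : Ordinal.{u}) (hk : k < o κ), k ∉ Z → tk hk.le a ∈ Dk H k (cpl κ F) := by
      intro ξ
      by_cases hq : ∃ q : Cnd o U, q ≤ p ∧ q ∈ Null H J F ∧ e (rst q (Iio κ)) = ξ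
      · obtain ⟨q, hq1, ⟨hq2, Z, hZ, hq3⟩, hq4⟩ := hq
        exact ⟨Z, hZ, q, fun _ => ⟨⟨hq1, hq2, hq4⟩, hq3⟩⟩
      · exact ⟨∅, hJ.empty, p, fun h => absurd h hq⟩
    choose Z hZ a ha using hz
    obtain ⟨γ, hγ, hcap⟩ := capture H hL (𝒜 := {x | ∃ ξ < κ,
        (∃ q : Cnd o U, q ≤ p ∧ q ∈ Null H J F ∧ e (rst q (Iio κ)) = ξ) ∧ x = a ξ})
      (by
        rintro x ⟨ξ, _, hq, rfl⟩
        exact (ha ξ hq).1.2.1) hp (by
        intro q hq
        obtain ⟨r, hr, hrN⟩ := hd q hq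
        have hb : Below κ (rst r (Iio κ)) := below_rst
        have hex : ∃ q : Cnd o U, q ≤ p ∧ q ∈ Null H J F ∧
            e (rst q (Iio κ)) = e (rst r (Iio κ)) := ⟨r, hr.trans hq, hrN, rfl⟩
        obtain ⟨⟨_, ha2, ha3⟩, _⟩ := ha _ hex
        have hst : rst r (Iio κ) = rst (a (e (rst r (Iio κ)))) (Iio κ) :=
          (hinj _ _ below_rst below_rst ha3).symm
        obtain ⟨s, _, _, _, hs1, hs2⟩ := same_stem H hrN.1 ha2 hst
        exact ⟨s, hs1.trans hr, _, ⟨_, he _ hb, hex, rfl⟩, hs2⟩)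
    refine ⟨hp, Iic γ ∪ {ν | ∃ ξ < κ, ν ∈ Z ξ},
      nullR_union hJ h1 (hJ.bdd γ hγ) (hJ.union Z fun ξ _ => hZ ξ), fun k hk hkZ => ?_⟩
    have hγk : γ ≤ k := by
      by_contra hc
      exact hkZ (Or.inl (not_le.1 hc).le)
    have hR := dk_reg H hk hcF
    refine hR.dense _ (tk_top.2 hp) fun q hq => ?_
    obtain ⟨r, hr, x, ⟨ξ, hξ, hex, rfl⟩, hrx⟩ := hcap k hk hγk q hq
    refine ⟨r, hr, hR.down _ ((ha ξ hex).2 k hk fun hc => hkZ (Or.inr ⟨ξ, hξ, hc⟩)) r hrx⟩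

end Pool.SND
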