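import Pool.Agent.SND.Cnt2
import Pool.Agent.SND.Lng
import Pool.Agent.SND.DkR
import Pool.Agent.SND.DkM

set_option autoImplicit false

namespace Pool.SND

open MagRad Set

universe u v

variable {κ k : Ordinal.{u}}
variable {o : Ordinal.{u} → Ordinal.{u}} {U : Ordinal.{u} → Ordinal.{u} → Ultrafilter Ordinal.{u}}

/-- a common extension of two conditions with the same stem extends their meet -/
theorem NullS_glb {p q r x : Cnd o U} (hd : p.dom = q.dom) (hd' : r.dom = p.dom)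
    (hSr : ∀ α, α ∈ p.dom → α ≠ κ → r.S α = p.S α) (hS : r.S κ = p.S κ ∩ q.S κ)
    (hx : x ≤ p) (hx' : x ≤ q) : x ≤ r := by
  refine ⟨fun α hα => hx.1 (hd' ▸ hα), fun α hα => ?_⟩
  obtain ⟨β, hβ, hαβ, hmin, h3, h4⟩ := hx.2 α hα
  obtain ⟨γ, hγ, hαγ, hmin', h3', h4'⟩ := hx'.2 α hα
  have hβγ : β = γ := le_antisymm (hmin γ (hd ▸ hγ) hαγ) (hmin' β (hd ▸ hβ) hαβ)
  subst hβγ
  refine ⟨β, hd' ▸ hβ, hαβ, fun δ hδ hαδ => hmin δ (hd' ▸ hδ) hαδ, ?_⟩
  by_cases h : β = κ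
  · subst h
    rw [hS]
    refine ⟨subset_inter h3 h3', ?_⟩
    by_cases hα : α = β
    · exact Or.inl hα
    · exact Or.inr ⟨h4.resolve_left hα, h4'.resolve_left hα⟩
  · rw [hSr β hβ h]
    exact ⟨h3, h4⟩

theorem NullS_ds {p q : Cnd o U} (hp : p ∈ TopC o U κ) (hq : q ∈ TopC o U κ)
    (h : rst p (Iio κ) = rst q (Iio κ)) : p.dom = q.dom ∧ ∀ α < κ, p.S α = q.S α := by
  refine ⟨Finset.ext fun α => ?_, fun α hα => ?_⟩
  · rcases lt_trichotomy α κ with h1 | h1 | h1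
    · have h2 : α ∈ (rst p (Iio κ)).dom ↔ α ∈ (rst q (Iio κ)).dom := by rw [h]
      rw [mem_rst, mem_rst] at h2
      exact ⟨fun h3 => (h2.1 ⟨h3, h1⟩).1, fun h3 => (h2.2 ⟨h3, h1⟩).1⟩
    · rw [h1]
      exact iff_of_true hp.1 hq.1
    · exact iff_of_false (fun h3 => absurd (hp.2 α h3) (not_le.2 h1))
        (fun h3 => absurd (hq.2 α h3) (not_le.2 h1))
  · rw [← rst_S (p := p) (show α ∈ Iio κ from hα), h, rst_S (show α ∈ Iio κ from hα)]

theorem NullS_low {p q : Cnd (oc o κ k) U} (h : low p = low q) :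
    rst p (Iio κ) = rst q (Iio κ) := by
  refine Cnd.ext' (Finset.ext fun α => ?_) fun α hα => ?_
  · have h2 : α ∈ (low p).dom ↔ α ∈ (low q).dom := by rw [h]
    rw [mem_low, mem_low] at h2
    rw [mem_rst, mem_rst]
    exact h2
  · have h1 : α < κ := (mem_rst.1 hα).2
    rw [rst_S (show α ∈ Iio κ from h1), rst_S (show α ∈ Iio κ from h1), ← low_S h1, h, low_S h1]

theorem NullS_inter_reg {K b c : Set (Cnd o U)} (hK : Comp K) (hb : IsReg K b)
    (hc : IsReg K c) : IsReg K (b ∩ c) := by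
  refine ⟨fun p hp => hb.sub hp.1, fun p hp q hq => ⟨hb.down p hp.1 q hq, hc.down p hp.2 q hq⟩,
    fun p hp h => ⟨hb.dense p hp fun q hq => ?_, hc.dense p hp fun q hq => ?_⟩⟩
  · obtain ⟨r, hr, hr'⟩ := h q hq
    exact ⟨r, hr, hr'.1⟩
  · obtain ⟨r, hr, hr'⟩ := h q hq
    exact ⟨r, hr, hr'.2⟩

/-- the decision sets of an intersection -/
theorem NullS_dk (H : IsCoherent κ o U) (hk : k < o κ) {F G : Ordinal.{u} → Set (Cnd o U)}
    (hF : RegFam o U κ F) (hG : RegFam o U κ G) {r : Cnd (oc o κ k) U}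
    (h1 : r ∈ Dk H k F) (h2 : r ∈ Dk H k G) : r ∈ Dk H k (fun α => F α ∩ G α) := by
  refine ⟨h1.1, ?_⟩
  have hN := H.normal κ k hk
  refine um_mono (um_inter (um_inter h1.2 h2.2) hN.conc) ?_
  rintro α ⟨⟨⟨h, hw, A, hA, ha⟩, ⟨h', hw', B, hB, hb⟩⟩, hα⟩
  have hακ : α < κ := hα
  refine ⟨h, hw, A ∩ B, hA.inter hB, ?_, ?_⟩
  · exact (hF α hακ).down _ ha _ (cat_le le_rfl (below_top hακ hw) inter_subset_left)
  · exact (hG α hακ).down _ hb _ (cat_le le_rfl (below_top hακ hw) inter_subset_right)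

/-- the indices `k` for which an extension of `p` with the stem `t` decides a measure one set -/
def NullS_E (H : IsCoherent κ o U) (F : Ordinal.{u} → Set (Cnd o U)) (p t : Cnd o U) :
    Set Ordinal.{u} :=
  {k | ∃ hk : k < o κ, ∃ r ≤ tk hk.le p, r ∈ Dk H k F ∧ low r = t}

theorem NullS_pos (H : IsCoherent κ o U) {J : Set (Set Ordinal.{u})} (hJ : IsSatIdeal κ (o κ) J)
    {F : Ordinal.{u} → Set (Cnd o U)} (hF : RegFam o U κ F) {p : Cnd o U}
    (hp : p ∈ TopC o U κ) (h1 : p ∉ Null H J F) {e : Cnd o U → Ordinal.{u}}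
    (he : ∀ w : Cnd o U, Below κ w → e w < κ)
    (he' : ∀ w w' : Cnd o U, Below κ w → Below κ w' → e w = e w' → w = w') :
    ∃ t, Below κ t ∧ NullS_E H F p t ∉ J := by
  by_contra hcon
  push Not at hcon
  refine h1 ⟨hp, {ν | ∃ ξ < κ, ν ∈ {k | ∃ hk : k < o κ, ∃ r ≤ tk hk.le p, r ∈ Dk H k F ∧
    e (low r) = ξ}}, hJ.union _ fun ξ _ => ?_, fun k hk hkZ => ?_⟩
  · by_cases hne : ∃ k, ∃ hk : k < o κ, ∃ r ≤ tk hk.le p, r ∈ Dk H k F ∧ e (low r) = ξ
    · obtain ⟨k, hk, r, hr, hrD, hξ⟩ := hne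
      refine hJ.down _ (hcon (low r) (low_below r)) _ ?_
      rintro k' ⟨hk', r', hr', hrD', hξ'⟩
      exact ⟨hk', r', hr', hrD', he' _ _ (low_below r') (low_below r) (hξ'.trans hξ.symm)⟩
    · refine hJ.down _ hJ.empty _ ?_
      rintro k hk
      exact absurd ⟨k, hk⟩ hne
  · rw [dk_neg H hk hF]
    refine ⟨tk_top.2 hp, fun r hr hrD => hkZ ?_⟩
    exact ⟨e (low r), he _ (low_below r), hk, r, hr, hrD, rfl⟩

theorem NullS_disj (H : IsCoherent κ o U) {J : Set (Set Ordinal.{u})}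
    (hJ : IsSatIdeal κ (o κ) J) {F G : Ordinal.{u} → Set (Cnd o U)} (hF : RegFam o U κ F)
    (hG : RegFam o U κ G) {p q t : Cnd o U} (hp : p ∈ TopC o U κ) (hq : q ∈ TopC o U κ)
    (h2 : ∀ r, r ≤ p → r ≤ q → r ∈ Null H J (fun α => F α ∩ G α))
    (hpq : rst p (Iio κ) = rst q (Iio κ)) : NullS_E H F p t ∩ NullS_E H G q t ∈ J := by
  obtain ⟨r, hr, hrst, hrS, hrp, hrq⟩ := same_stem H hp hq hpq
  obtain ⟨_, Z, hZ, hZ'⟩ := h2 r hrp hrq
  refine hJ.down _ hZ _ ?_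
  rintro k ⟨⟨hk, a, ha, haD, hat⟩, ⟨_, b, hb, hbD, hbt⟩⟩
  by_contra hkZ
  have h3 := hZ' k hk hkZ
  have hFG : RegFam o U κ (fun α => F α ∩ G α) := fun α hα =>
    NullS_inter_reg TopC_comp (hF α hα) (hG α hα)
  rw [dk_neg H hk hFG] at h3
  have hH := oc_coh H hk.le
  obtain ⟨x, hx, _, _, hxa, hxb⟩ := same_stem hH haD.1 hbD.1 (NullS_low (hat.trans hbt.symm))
  have hxF : x ∈ Dk H k F := (dk_reg H hk hF).down _ haD _ hxa
  have hxG : x ∈ Dk H k G := (dk_reg H hk hG).down _ hbD _ hxb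
  have hd := NullS_ds hp hq hpq
  have hd' := NullS_ds hr hp hrst
  refine h3.2 x ?_ (NullS_dk H hk hF hG hxF hxG)
  refine NullS_glb (κ := κ) (p := tk hk.le p) (q := tk hk.le q) (r := tk hk.le r) hd.1 hd'.1
    (fun α hα hne => hd'.2 α ((hp.2 α hα).lt_of_ne hne)) hrS (hxa.trans ha) (hxb.trans hb)

theorem null_sat (H : IsCoherent κ o U) {J : Set (Set Ordinal.{u})} (hJ : IsSatIdeal κ (o κ) J)
    {T : Type v} (F : T → Ordinal.{u} → Set (Cnd o U)) (hF : ∀ i, RegFam o U κ (F i))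
    (p : T → Cnd o U) (hp : ∀ i, p i ∈ TopC o U κ) (h1 : ∀ i, p i ∉ Null H J (F i))
    (h2 : ∀ i j, i ≠ j → ∀ r, r ≤ p i → r ≤ p j → r ∈ Null H J (fun α => F i α ∩ F j α)) :
    ∃ f : T → Ordinal.{u}, Function.Injective f ∧ ∀ i, f i < κ := by
  classical
  have hN := H.normal κ 0 hJ.long.pos
  obtain ⟨e, he, he'⟩ := nm_stem (o := o) (U := U) hN
  choose t ht htE using fun i => NullS_pos H hJ (hF i) (hp i) (h1 i) he he'
  have hcard : Cardinal.mk (Iio κ) = Cardinal.lift.{u + 1} κ.card := Cardinal.mk_Iio_ordinal κ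
  -- the classes
  let 𝓔 : Ordinal.{u} × Ordinal.{u} → Set (Set Ordinal.{u}) := fun c =>
    {X | ∃ i, e (rst (p i) (Iio κ)) = c.1 ∧ e (t i) = c.2 ∧ X = NullS_E H (F i) (p i) (t i)}
  have hst : ∀ i j, e (rst (p i) (Iio κ)) = e (rst (p j) (Iio κ)) → e (t i) = e (t j) →
      i ≠ j → NullS_E H (F i) (p i) (t i) ∩ NullS_E H (F j) (p j) (t j) ∈ J := by
    intro i j hs htt hij
    rw [he' _ _ (ht i) (ht j) htt]
    exact NullS_disj H hJ (hF i) (hF j) (hp i) (hp j) (h2 i j hij)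
      (he' _ _ below_rst below_rst hs)
  have hsat : ∀ c, Nonempty ((𝓔 c) ↪ (Iio κ)) := by
    intro c
    rw [← Cardinal.le_def, hcard]
    refine hJ.sat (𝓔 c) ?_ ?_
    · rintro X ⟨i, _, _, rfl⟩
      exact ⟨fun k hk => hk.1, htE i⟩
    · rintro X ⟨i, hi, hi', rfl⟩ Y ⟨j, hj, hj', rfl⟩ hXY
      refine hst i j (hi.trans hj.symm) (hi'.trans hj'.symm) fun hij => hXY ?_
      rw [hij]
  have hinf : Infinite (Iio κ) := by
    rw [← Cardinal.aleph0_le_mk_iff, hcard]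
    have := nm_omega hN
    rw [← Cardinal.lift_aleph0.{u + 1, u}, Cardinal.lift_le]
    rw [← Ordinal.card_omega0]
    exact Ordinal.card_le_card this.le
  have hprod : Nonempty (((Iio κ) × (Iio κ) × (Iio κ)) ↪ (Iio κ)) := by
    rw [← Cardinal.le_def, Cardinal.mk_prod, Cardinal.mk_prod]
    simp only [Cardinal.lift_id]
    rw [Cardinal.mul_eq_self (Cardinal.aleph0_le_mk _), Cardinal.mul_eq_self
      (Cardinal.aleph0_le_mk _)]
  obtain ⟨g⟩ := hprod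
  have c : ∀ c, (𝓔 c) ↪ (Iio κ) := fun c => (hsat c).some
  have hc : ∀ i, NullS_E H (F i) (p i) (t i) ∈ 𝓔 (e (rst (p i) (Iio κ)), e (t i)) :=
    fun i => ⟨i, rfl, rfl, rfl⟩
  refine ⟨fun i => (g (⟨e (rst (p i) (Iio κ)), he _ below_rst⟩, ⟨e (t i), he _ (ht i)⟩,
    c (e (rst (p i) (Iio κ)), e (t i)) ⟨_, hc i⟩)).1, fun i j hij => ?_, fun i => ?_⟩
  · by_contra hne
    have h3 := g.injective (Subtype.ext hij)
    have h4 : e (rst (p i) (Iio κ)) = e (rst (p j) (Iio κ)) :=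
      congrArg Subtype.val (congrArg Prod.fst h3)
    have h5 : e (t i) = e (t j) :=
      congrArg Subtype.val (congrArg Prod.fst (congrArg Prod.snd h3))
    have h6 := congrArg Prod.snd (congrArg Prod.snd h3)
    have h7 : ∀ (a a' : Ordinal.{u} × Ordinal.{u}) (haa : a = a') (X Y : Set Ordinal.{u})
        (hX : X ∈ 𝓔 a) (hY : Y ∈ 𝓔 a'), c a ⟨X, hX⟩ = c a' ⟨Y, hY⟩ → X = Y := by
      intro a a' haa X Y hX hY h
      subst haa
      exact congrArg Subtype.val ((c a).injective h)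
    have h8 := h7 _ _ (by rw [h4, h5]) _ _ _ _ h6
    have h9 := hst i j h4 h5 hne
    rw [← h8, inter_self] at h9
    exact htE i h9
  · exact (g _).2

end Pool.SND
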