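import Pool.Agent.SND.RoD
import Pool.Agent.SND.NullR
import Pool.Agent.SND.NullM
import Pool.Agent.SND.NullS

set_option autoImplicit false

namespace Pool.SND

open MagRad
open Pool.Agent.Helper23.CK
open Pool.Agent.Helper23.WT (iffV ZM opair)

variable {κ : Ordinal.{0}}
variable {o : Ordinal.{0} → Ordinal.{0}} {U : Ordinal.{0} → Ordinal.{0} → Ultrafilter Ordinal.{0}}

/-- the Boolean value of the statement that the set with the name `D` belongs to the ideal -/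
noncomputable def nl (H : IsCoherent κ o U) {J : Set (Set Ordinal.{0})}
    (hJ : IsSatIdeal κ (o κ) J) (D : Set.Iio κ → RO (MR o U κ)) : RO (MR o U κ) :=
  ro (Null H J (fr D)) (null_reg H hJ (fr_reg D))

theorem ros_mem_nl {H : IsCoherent κ o U} {J : Set (Set Ordinal.{0})}
    {hJ : IsSatIdeal κ (o κ) J} {D : Set.Iio κ → RO (MR o U κ)} {p : MR o U κ} :
    p ∈ (nl H hJ D).carrier ↔ p.1 ∈ Null H J (fr D) := Iff.rfl

theorem ros_empty_reg : IsReg (TopC o U κ) (∅ : Set (Cnd o U)) where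
  sub := Set.empty_subset _
  down := fun _ hp => hp.elim
  dense := fun p _ h => by
    obtain ⟨r, _, hr⟩ := h p le_rfl
    exact hr.elim

theorem ros_top_reg : IsReg (TopC o U κ) (TopC o U κ : Set (Cnd o U)) where
  sub := subset_rfl
  down := fun p hp q hq => TopC_comp p hp q hq
  dense := fun _ hp _ => hp

/-- membership in a family of Boolean values -/
theorem ros_mem_fr {D : Set.Iio κ → RO (MR o U κ)} {α : Ordinal.{0}} (h : α < κ)
    {p : MR o U κ} : p.1 ∈ fr D α ↔ p ∈ (D ⟨α, h⟩).carrier := by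
  rw [fr_of_lt D h]
  exact mem_cr

theorem ros_fr_top {D : Set.Iio κ → RO (MR o U κ)} {α : Ordinal.{0}} {p : Cnd o U}
    (h : p ∈ fr D α) : p ∈ TopC o U κ := by
  by_cases hα : α < κ
  · exact (fr_reg D α hα).sub h
  · rw [fr, dif_neg hα] at h
    exact h.elim

theorem ros_fr_inf (D E : Set.Iio κ → RO (MR o U κ)) :
    fr (fun β => D β ⊓ E β) = fun α => fr D α ∩ fr E α := by
  funext α
  by_cases hα : α < κ
  · ext p
    constructor
    · intro h
      have hp := ros_fr_top h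
      have h' := RO.mem_inf.1 ((ros_mem_fr hα (p := ⟨p, hp⟩)).1 h)
      exact ⟨(ros_mem_fr hα (p := ⟨p, hp⟩)).2 h'.1, (ros_mem_fr hα (p := ⟨p, hp⟩)).2 h'.2⟩
    · rintro ⟨h1, h2⟩
      have hp := ros_fr_top h1
      exact (ros_mem_fr hα (p := ⟨p, hp⟩)).2 (RO.mem_inf.2
        ⟨(ros_mem_fr hα (p := ⟨p, hp⟩)).1 h1, (ros_mem_fr hα (p := ⟨p, hp⟩)).1 h2⟩)
  · rw [fr, fr, fr, dif_neg hα, dif_neg hα, dif_neg hα, Set.empty_inter]

theorem nl_data (H : IsCoherent κ o U) {J : Set (Set Ordinal.{0})} (hJ : IsSatIdeal κ (o κ) J) :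
    SatData (MR o U κ) κ (nl H hJ) := by
  refine ⟨?_, ?_, ?_, ?_, ?_⟩
  · intro D E p hp
    rw [RO.mem_inf] at hp
    obtain ⟨h1, h2⟩ := hp
    rw [RO.mem_iInf] at h1
    rw [ros_mem_nl] at h2 ⊢
    refine null_mono H (fr_reg D) (fr_reg E) h2 fun α hα r hr hrE => ?_
    have hrT : r ∈ TopC o U κ := TopC_comp p.1 p.2 r hr
    exact (ros_mem_fr hα (p := ⟨r, hrT⟩)).2
      (RO.mem_himp.1 (h1 ⟨α, hα⟩) ⟨r, hrT⟩ hr ((ros_mem_fr hα (p := ⟨r, hrT⟩)).1 hrE))
  · refine RO.ext' (Set.eq_empty_of_forall_notMem fun p hp => ?_)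
    rw [ros_mem_nl] at hp
    have h : p.1 ∈ Null H J (fun _ => TopC o U κ) :=
      null_mono H (fr_reg _) (fun _ _ => ros_top_reg) hp fun α hα r hr hrT =>
        (ros_mem_fr hα (p := ⟨r, hrT⟩)).2 RO.mem_top
    rw [null_top H hJ] at h
    exact h
  · intro γ p _
    rw [ros_mem_nl, null_bdd H hJ (fr_reg _) γ.2 fun α h1 h2 => ?_]
    · exact p.2
    · refine Set.eq_empty_of_forall_notMem fun r hr => ?_
      have hrT := ros_fr_top hr
      have h' := RO.mem_iSup.1 ((ros_mem_fr h2 (p := ⟨r, hrT⟩)).1 hr)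
      obtain ⟨s, _, hlt, _⟩ := h' _ le_rfl
      exact absurd (show α < γ.1 from hlt) (not_lt.2 h1)
  · intro δ D p hp
    rw [RO.mem_iInf] at hp
    rw [ros_mem_nl]
    classical
    refine null_compl H hJ δ.2
      (F := fun ξ => if h : ξ < δ.1 then fr (D ⟨ξ, h⟩) else fun _ => ∅) ?_ p.2 ?_ (fr_reg _) ?_
    · intro ξ hξ
      rw [dif_pos hξ]
      exact fr_reg _
    · intro ξ hξ
      rw [dif_pos hξ]
      exact hp ⟨ξ, hξ⟩
    · intro α hα r hr
      have hrT := ros_fr_top hr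
      have h' := RO.mem_iSup.1 ((ros_mem_fr hα (p := ⟨r, hrT⟩)).1 hr)
      obtain ⟨s, hs, ξ, hξ⟩ := h' _ le_rfl
      refine ⟨s.1, hs, ξ.1, ξ.2, ?_⟩
      rw [dif_pos (show ξ.1 < δ.1 from ξ.2)]
      exact (ros_mem_fr hα (p := s)).2 hξ
  · intro T D b h0 h1 h2
    choose p hp using fun i => RO.ne_bot (h0 i)
    have k1 : ∀ i, (p i).1 ∉ Null H J (fr (D i)) := fun i hi =>
      RO.mem_compl.1 (h1 i (hp i)) (p i) le_rfl hi
    have k2 : ∀ i j, i ≠ j → ∀ r, r ≤ (p i).1 → r ≤ (p j).1 →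
        r ∈ Null H J (fun α => fr (D i) α ∩ fr (D j) α) := by
      intro i j hij r hri hrj
      have hrT : r ∈ TopC o U κ := TopC_comp (p i).1 (p i).2 r hri
      rw [← ros_fr_inf]
      have : (⟨r, hrT⟩ : MR o U κ) ∈ (b i ⊓ b j).carrier :=
        RO.mem_inf.2 ⟨(b i).lower (p := p i) hri (hp i), (b j).lower (p := p j) hrj (hp j)⟩
      exact h2 i j hij this
    obtain ⟨f, hf, hlt⟩ := null_sat H hJ (fun i => fr (D i)) (fun i => fr_reg (D i))
      (fun i => (p i).1) (fun i => (p i).2) k1 k2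
    exact ⟨fun i => ⟨f i, hlt i⟩, fun i j hij => hf (congrArg Subtype.val hij)⟩

end Pool.SND
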