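import Pool.Agent.SND.Ctm
import Pool.Agent.SND.RoS
import Pool.Agent.SND.RoR
import Pool.Agent.SND.RoP
import Pool.Agent.SND.RoN

set_option autoImplicit false

/-!
# A strongly inaccessible cardinal with a saturated ideal and without diamond, from a coherent
sequence of normal measures

The definitions are in `Pool.Agent.SND.Defs` (and in `Pool.Agent.MagRad.Defs`,
`Pool.Agent.Helper23.CK.Defs`).
-/

namespace Pool.SND

open MagRad

theorem mr_nonempty {κ : Ordinal.{0}} {o : Ordinal.{0} → Ordinal.{0}}
    {U : Ordinal.{0} → Ordinal.{0} → Ultrafilter Ordinal.{0}} (H : IsCoherent κ o U) :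
    Nonempty (MR o U κ) := by
  refine ⟨⟨mkC H {κ} (fun _ => Set.univ) fun _ _ => Big.univ, ?_, ?_⟩⟩
  · rw [mkC_dom]
    exact Finset.mem_singleton_self κ
  · intro α hα
    rw [mkC_dom] at hα
    exact (Finset.mem_singleton.1 hα).le

/-- If `U` is a coherent sequence of normal measures with top `κ`, if `o κ` carries a
`κ⁺`-complete `κ⁺`-saturated ideal containing the bounded sets, and if `|o κ| < 2 ^ κ`, then there
is a countable transitive model of ZFC in which some strongly inaccessible cardinal carries a
saturated ideal and the diamond principle fails for it. -/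
theorem example_of_coherent (κ : Ordinal.{0}) (o : Ordinal.{0} → Ordinal.{0})
    (U : Ordinal.{0} → Ordinal.{0} → Ultrafilter Ordinal.{0}) (J : Set (Set Ordinal.{0}))
    (H : IsCoherent κ o U) (hJ : IsSatIdeal κ (o κ) J) (hc : (o κ).card < 2 ^ κ.card) :
    ∃ M : ZFSet.{0}, IsExample M := by
  have hL := hJ.long
  have := mr_nonempty H
  exact ctm_of_ro (MR o U κ) κ (nm_omega (H.normal κ 0 hL.pos)) (nl H hJ) (nl_data H hJ)
    (mr_reg H hL) (mr_pow H hL.pos) (mr_dia H hL.pos hc)

end Pool.SND
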