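import Pool.Agent.SND.Ro

set_option autoImplicit false

namespace Pool.SND

open Pool.Agent.Helper23.CK
open Pool.Agent.Helper23.WT (iffV ZM ZF opair bElim bOr bMP bImp bNot bAbs bAll bEx bIff bIff_mp bIff_mpr bLeft bRight bCases bContra eq_of_forall iffV_self iffV_eq_top IsFun App IsOmega)

variable {P : Type 1} [Preorder P] {κ : Ordinal.{0}}

theorem mem_sn (x : Nm P) (D : Set.Iio κ → RO P) :
    Nm.mem x (sn D) = ⨆ β : Set.Iio κ, D β ⊓ Nm.eq x (ordn β.1) := rfl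

theorem ordn_mem_sn (β : Set.Iio κ) (D : Set.Iio κ → RO P) :
    Nm.mem (ordn β.1) (sn D) = D β := by
  rw [mem_sn]
  refine le_antisymm (iSup_le fun γ => ?_) (bEx β (le_inf le_rfl (Nm.bRefl _)))
  by_cases h : β.1 = γ.1
  · have h' : β = γ := Subtype.ext h
    subst h'
    exact inf_le_left
  · exact (eq_ordn h inf_le_right).trans bot_le

theorem sn_sub (D : Set.Iio κ → RO P) {Γ : RO P} : Γ ≤ SubB (sn D) (ordn κ) := by
  refine le_iInf fun z => bImp fun Δ _ h => ?_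
  rw [mem_sn] at h
  rw [mem_ordn]
  exact bElim h fun β Δ' _ h' => bEx β (bRight h')

/-- a subset of `κ` is equal to the name given by its Boolean values -/
theorem eq_sn_fam {x : Nm P} {Γ : RO P} (h : Γ ≤ SubB x (ordn κ)) :
    Γ ≤ Nm.eq x (sn (fam κ x)) := by
  refine Nm.bExt (fun z Δ hΔ hz => ?_) (fun z Δ _ hz => ?_)
  · have h1 := bMP (bAll (hΔ.trans h) z) hz
    rw [mem_ordn] at h1
    rw [mem_sn]
    refine bElim h1 fun β Δ' h2 h3 => bEx β (le_inf ?_ h3)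
    exact Nm.bMemL h3 (h2.trans hz)
  · rw [mem_sn] at hz
    refine bElim hz fun β Δ' _ h3 => ?_
    exact Nm.bMemL (Nm.bSymm (bRight h3)) (bLeft h3)

theorem mem_idn (x : Nm P) (N : (Set.Iio κ → RO P) → RO P) :
    Nm.mem x (idn N) = ⨆ D, N D ⊓ Nm.eq x (sn D) := rfl

theorem mem_idn_sub {N : (Set.Iio κ → RO P) → RO P} {x : Nm P} {Γ : RO P}
    (h : Γ ≤ Nm.mem x (idn N)) : Γ ≤ SubB x (ordn κ) := by
  rw [mem_idn] at h
  refine bElim h fun D Δ _ h2 => le_iInf fun z => bImp fun Δ' h3 h4 => ?_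
  exact bMP (bAll (sn_sub D) z) (Nm.bMemR (h3.trans (bRight h2)) h4)

theorem mem_idn_iff {N : (Set.Iio κ → RO P) → RO P} (hN : SatData P κ N) {x : Nm P} {Γ : RO P}
    (h : Γ ≤ SubB x (ordn κ)) : Γ ≤ Nm.mem x (idn N) ↔ Γ ≤ N (fam κ x) := by
  constructor
  · intro h1
    rw [mem_idn] at h1
    refine bElim h1 fun D Δ _ h2 => ?_
    refine (le_inf (le_iInf fun β => bImp fun Δ' h3 h4 => ?_) (bLeft h2)).trans
      (hN.mono D (fam κ x))
    have h5 := Nm.bMemR (h3.trans (bRight h2)) h4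
    rwa [ordn_mem_sn] at h5
  · intro h1
    rw [mem_idn]
    exact bEx (fam κ x) (le_inf h1 (eq_sn_fam h))

/-- the Boolean value `Γ ≤ D β ⇨ E β` for all `β` gives `Γ ⊓ N E ≤ N D` -/
theorem N_le {N : (Set.Iio κ → RO P) → RO P} (hN : SatData P κ N) {D E : Set.Iio κ → RO P}
    {Γ : RO P} (h : ∀ β, ∀ Δ ≤ Γ, Δ ≤ E β → Δ ≤ D β) (hD : Γ ≤ N D) : Γ ≤ N E :=
  (le_inf (le_iInf fun β => bImp (h β)) hD).trans (hN.mono D E)

/-- elements of an ordinal name -/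
theorem mem_ordn_mono {x : Nm P} {α : Ordinal.{0}} (hα : α ≤ κ) {Γ : RO P}
    (h : Γ ≤ Nm.mem x (ordn α)) : Γ ≤ Nm.mem x (ordn κ) := by
  rw [mem_ordn] at h ⊢
  exact bElim h fun β Δ' _ h' => bEx ⟨β.1, β.2.trans_le hα⟩ h'

end Pool.SND
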