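import Pool.Agent.SND.Base

set_option autoImplicit false

namespace Pool.SND

open MagRad Set

universe u v

variable {κ k : Ordinal.{u}}
variable {o : Ordinal.{u} → Ordinal.{u}} {U : Ordinal.{u} → Ordinal.{u} → Ultrafilter Ordinal.{u}}

theorem rf_big (H : IsCoherent κ o U) (hk : k < o κ) {A : Set Ordinal.{u}}
    (hA : Big (oc o κ k) U κ A) : {α | Big o U α A} ∈ U κ k := by
  obtain ⟨F, hF1, hF2, hF3, hF4⟩ := H.coh κ k hk
  by_contra hcon
  have h1 := um_not_setOf hcon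
  have h2 : ∀ ν : Ordinal.{u}, ∃ i, (¬ Big o U ν A) → i < o ν ∧ A ∉ U ν i := by
    intro ν
    by_cases hν : Big o U ν A
    · exact ⟨0, fun h => absurd hν h⟩
    · unfold Big at hν
      push Not at hν
      obtain ⟨i, hi, hA⟩ := hν
      exact ⟨i, fun _ => ⟨hi, hA⟩⟩
  choose g hg using h2
  obtain ⟨i, hi, hgi⟩ := hF3 g (um_mono h1 fun ν hν => (hg ν hν).1)
  have h3 : {ν | A ∈ U ν (F i ν)} ∈ U κ k := (hF4 i hi A).1 (hA i (by rw [oc_self]; exact hi))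
  obtain ⟨ν, ⟨hν1, hν2⟩, hν3⟩ := um_ne (um_inter (um_inter h1 hgi) h3)
  have := (hg ν hν1).2
  rw [hν2] at this
  exact this hν3

theorem big_rf (H : IsCoherent κ o U) (hk : k < o κ) {A : Set Ordinal.{u}}
    (h : {α | Big o U α A} ∈ U κ k) : Big (oc o κ k) U κ A := by
  intro i hi
  rw [oc_self] at hi
  obtain ⟨F, hF1, hF2, hF3, hF4⟩ := H.coh κ k hk
  refine (hF4 i hi A).2 (um_mono (um_inter h (hF1 i hi)) ?_)
  rintro ν ⟨h1, h2⟩
  exact h1 _ h2

theorem Rfl_below (H : IsCoherent κ o U) (hk : k < o κ) (p : Cnd (oc o κ k) U) :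
    {α | Below α (low p)} ∈ U κ k := by
  have hN := H.normal κ k hk
  obtain ⟨μ, hμ, h⟩ := (low_below p).bound (theta_pos hN)
  exact um_mono (hN.tail μ hμ) fun α hα β hβ => (h β hβ).trans_lt hα

/-- the reflections of a condition are conditions -/
theorem rf_top (H : IsCoherent κ o U) (hk : k < o κ) {p : Cnd (oc o κ k) U}
    (hp : p ∈ TopC (oc o κ k) U κ) :
    {α | ∃ h : Big o U α (p.S κ), rf H α p h ∈ TopC o U α} ∈ U κ k := by
  refine um_mono (um_inter (rf_big H hk (p.big hp.1)) (Rfl_below H hk p)) ?_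
  rintro α ⟨h1, h2⟩
  exact ⟨h1, cat_top h2⟩

theorem Rfl_top_S {p q : Cnd (oc o κ k) U} (hp : p ∈ TopC (oc o κ k) U κ) (hq : q ≤ p) :
    q.S κ ⊆ p.S κ := by
  obtain ⟨β, hβ, h1, -, h2, -⟩ := hq.2 κ (hq.1 hp.1)
  have h3 : β = κ := le_antisymm (hp.2 β hβ) h1
  rw [h3] at h2
  exact h2

theorem Rfl_mem (H : IsCoherent κ o U) {α β : Ordinal.{u}} {p : Cnd (oc o κ k) U}
    {h : Big o U α (p.S κ)} : β ∈ (rf H α p h).dom ↔ β = α ∨ (β ∈ p.dom ∧ β < κ) := by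
  unfold rf
  rw [mem_cat, mem_low]

theorem Rfl_S (H : IsCoherent κ o U) {α β : Ordinal.{u}} {p : Cnd (oc o κ k) U}
    {h : Big o U α (p.S κ)} (hβ : β ≠ α) (hκ : β < κ) : (rf H α p h).S β = p.S β := by
  unfold rf
  rw [cat_S hβ, low_S hκ]

theorem Rfl_S_top (H : IsCoherent κ o U) {α : Ordinal.{u}} {p : Cnd (oc o κ k) U}
    {h : Big o U α (p.S κ)} : (rf H α p h).S α = p.S κ ∩ Iio α := by
  unfold rf
  rw [cat_S_top]

theorem rf_le (H : IsCoherent κ o U) (hk : k < o κ) {p q : Cnd (oc o κ k) U}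
    (hp : p ∈ TopC (oc o κ k) U κ) (hq : q ≤ p) :
    {α | ∃ (h : Big o U α (q.S κ)) (h' : Big o U α (p.S κ)), rf H α q h ≤ rf H α p h'} ∈ U κ k := by
  have hqt := TopC_comp p hp q hq
  refine um_mono (um_inter (um_inter (rf_big H hk (q.big hqt.1)) (rf_big H hk (p.big hp.1)))
    (um_inter (Rfl_below H hk q) (Rfl_below H hk p))) ?_
  rintro α ⟨⟨h1, h2⟩, h3, h4⟩
  refine ⟨h1, h2, ?_, ?_⟩
  · intro β hβ
    rw [Rfl_mem] at hβ ⊢
    exact hβ.imp id fun h => ⟨hq.1 h.1, h.2⟩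
  · intro β hβ
    rw [Rfl_mem] at hβ
    rcases hβ with rfl | ⟨hβ, hβκ⟩
    · refine ⟨β, (Rfl_mem H).2 (Or.inl rfl), le_rfl, fun _ _ h => h, ?_, Or.inl rfl⟩
      rw [Rfl_S_top, Rfl_S_top]
      exact inter_subset_inter_left _ (Rfl_top_S hp hq)
    · have hβα : β < α := h3 β (mem_low.2 ⟨hβ, hβκ⟩)
      obtain ⟨γ, hγ, hβγ, hmin, hS, hor⟩ := hq.2 β hβ
      rcases (hp.2 γ hγ).eq_or_lt with hγκ | hγκ
      · subst hγκ
        refine ⟨α, (Rfl_mem H).2 (Or.inl rfl), hβα.le, ?_, ?_, ?_⟩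
        · intro δ hδ hβδ
          rw [Rfl_mem] at hδ
          rcases hδ with rfl | ⟨hδ, hδγ⟩
          · exact le_rfl
          · exact absurd (hmin δ hδ hβδ) (not_le.2 hδγ)
        · rw [Rfl_S H hβα.ne hβκ, Rfl_S_top]
          exact fun x hx => ⟨hS hx, (show x < β from q.sub β hx).trans hβα⟩
        · rw [Rfl_S_top]
          rcases hor with h | h
          · exact absurd h hβκ.ne
          · exact Or.inr ⟨h, hβα⟩
      · have hγα : γ < α := h4 γ (mem_low.2 ⟨hγ, hγκ⟩)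
        refine ⟨γ, (Rfl_mem H).2 (Or.inr ⟨hγ, hγκ⟩), hβγ, ?_, ?_, ?_⟩
        · intro δ hδ hβδ
          rw [Rfl_mem] at hδ
          rcases hδ with rfl | ⟨hδ, hδκ⟩
          · exact hγα.le
          · exact hmin δ hδ hβδ
        · rw [Rfl_S H hβα.ne hβκ, Rfl_S H hγα.ne hγκ]
          exact hS
        · rw [Rfl_S H hγα.ne hγκ]
          exact hor

theorem le_rf (H : IsCoherent κ o U) (hk : k < o κ) {p q : Cnd (oc o κ k) U}
    (hp : p ∈ TopC (oc o κ k) U κ) (hq : q ∈ TopC (oc o κ k) U κ)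
    (h : {α | ∃ (h : Big o U α (q.S κ)) (h' : Big o U α (p.S κ)),
      rf H α q h ≤ rf H α p h'} ∈ U κ k) : q ≤ p := by
  have hN := H.normal κ k hk
  have key : ∀ x < κ, ∃ α, x < α ∧ α < κ ∧ Below α (low q) ∧ Below α (low p) ∧
      ∃ (h : Big o U α (q.S κ)) (h' : Big o U α (p.S κ)), rf H α q h ≤ rf H α p h' := by
    intro x hx
    obtain ⟨α, ⟨⟨h1, h2⟩, ⟨h3, h4⟩⟩, h5⟩ := um_ne (um_inter (um_inter (um_inter h hN.conc)
      (um_inter (Rfl_below H hk q) (Rfl_below H hk p))) (hN.tail x hx))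
    exact ⟨α, h5, h2, h3, h4, h1⟩
  refine ⟨?_, ?_⟩
  · intro β hβ
    rcases (hp.2 β hβ).eq_or_lt with hβκ | hβκ
    · rw [hβκ]
      exact hq.1
    · obtain ⟨α, h1, -, h3, h4, h5, h6, h7⟩ := key β hβκ
      have h8 := h7.1 ((Rfl_mem H).2 (Or.inr ⟨hβ, hβκ⟩))
      rw [Rfl_mem] at h8
      rcases h8 with h8 | h8
      · exact absurd h8 h1.ne
      · exact h8.1
  · intro β hβ
    rcases (hq.2 β hβ).eq_or_lt with hβκ | hβκ
    · subst hβκ
      refine ⟨β, hp.1, le_rfl, fun _ _ h => h, ?_, Or.inl rfl⟩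
      intro x hx
      obtain ⟨α, h1, -, h3, h4, h5, h6, h7⟩ := key x (q.sub β hx)
      obtain ⟨γ, hγ, hαγ, -, hS, -⟩ := h7.2 α ((Rfl_mem H).2 (Or.inl rfl))
      have hγα : γ = α := by
        rw [Rfl_mem] at hγ
        rcases hγ with hγ | ⟨hγ, hγκ⟩
        · exact hγ
        · exact absurd (h4 γ (mem_low.2 ⟨hγ, hγκ⟩)) (not_lt.2 hαγ)
      rw [hγα, Rfl_S_top, Rfl_S_top] at hS
      exact (hS ⟨hx, h1⟩).1
    · obtain ⟨α, h1, hακ, h3, h4, h5, h6, h7⟩ := key β hβκ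
      obtain ⟨γ, hγ, hβγ, hmin, hS, hor⟩ := h7.2 β ((Rfl_mem H).2 (Or.inr ⟨hβ, hβκ⟩))
      rw [Rfl_mem] at hγ
      rcases hγ with hγα | ⟨hγ, hγκ⟩
      · subst hγα
        rw [Rfl_S H h1.ne hβκ, Rfl_S_top] at hS
        rw [Rfl_S_top] at hor
        refine ⟨κ, hp.1, hβκ.le, ?_, fun x hx => (hS hx).1, ?_⟩
        · intro δ hδ hβδ
          by_contra hc
          have hδκ := not_le.1 hc
          have h8 := hmin δ ((Rfl_mem H).2 (Or.inr ⟨hδ, hδκ⟩)) hβδ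
          exact absurd (h4 δ (mem_low.2 ⟨hδ, hδκ⟩)) (not_lt.2 h8)
        · rcases hor with h8 | h8
          · exact absurd h8 h1.ne
          · exact Or.inr h8.1
      · have hγα : γ < α := h4 γ (mem_low.2 ⟨hγ, hγκ⟩)
        rw [Rfl_S H h1.ne hβκ, Rfl_S H hγα.ne hγκ] at hS
        rw [Rfl_S H hγα.ne hγκ] at hor
        refine ⟨γ, hγ, hβγ, ?_, hS, hor⟩
        intro δ hδ hβδ
        rcases (hp.2 δ hδ).eq_or_lt with hδκ | hδκ
        · rw [hδκ]
          exact hγκ.le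
        · exact hmin δ ((Rfl_mem H).2 (Or.inr ⟨hδ, hδκ⟩)) hβδ

/-- almost every choice of conditions is the reflection of one condition -/
theorem rf_lift (H : IsCoherent κ o U) (hk : k < o κ) (r : Ordinal.{u} → Cnd o U)
    (hr : {α | r α ∈ TopC o U α} ∈ U κ k) : ∃ q ∈ TopC (oc o κ k) U κ,
      {α | ∃ h : Big o U α (q.S κ), rf H α q h = r α} ∈ U κ k := by
  have hN := H.normal κ k hk
  obtain ⟨w, hwκ, hw⟩ := press_stem hN (f := fun α => rst (r α) (Iio α))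
    (um_mono Filter.univ_mem fun α _ => below_rst)
  have hd : ∀ ξ : Ordinal.{u}, ∃ d : Prop, {α | ξ ∈ (r α).S α ↔ d} ∈ U κ k := fun ξ => decided _
  choose d hd using hd
  have hB : {α | ∀ ξ < α, (ξ ∈ (r α).S α ↔ d ξ)} ∈ U κ k :=
    hN.diag (fun ξ => {α | ξ ∈ (r α).S α ↔ d ξ}) fun ξ _ => hd ξ
  have hbig : Big (oc o κ k) U κ {ξ | d ξ} := by
    apply big_rf H hk
    refine um_mono (um_inter hr hB) ?_
    rintro α ⟨h1, h2⟩
    refine ((r α).big h1.1).mono fun ξ hξ => ?_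
    exact (h2 ξ ((r α).sub α hξ)).1 hξ
  have hbt : Below κ (tk hk.le w) := hwκ
  refine ⟨cat (oc_coh H hk.le) κ (tk hk.le w) {ξ | d ξ} hbig, cat_top hbt, ?_⟩
  set q := cat (oc_coh H hk.le) κ (tk hk.le w) {ξ | d ξ} hbig with hq
  have hqS : q.S κ = {ξ | d ξ} ∩ Iio κ := cat_S_top
  have hqd : ∀ β, β ∈ q.dom ↔ β = κ ∨ β ∈ w.dom := fun β => mem_cat
  have hqt : q ∈ TopC (oc o κ k) U κ := cat_top hbt
  refine um_mono (um_inter (um_inter (um_inter hr hB) (um_inter hw hN.conc))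
    (rf_big H hk (q.big hqt.1))) ?_
  rintro α ⟨⟨⟨h1, h2⟩, h3, h4⟩, h5⟩
  have h3' : rst (r α) (Iio α) = w := h3
  have h4' : α < κ := h4
  refine ⟨h5, ?_⟩
  have hmem : ∀ β, β ∈ w.dom ↔ β ∈ (r α).dom ∧ β < α := by
    intro β
    rw [← h3', mem_rst]
    exact Iff.rfl
  apply Cnd.ext'
  · ext β
    rw [Rfl_mem, hqd, hmem]
    constructor
    · rintro (h | ⟨h | h, h'⟩)
      · rw [h]
        exact h1.1
      · exact absurd h h'.ne
      · exact h.1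
    · intro h
      rcases (h1.2 β h).eq_or_lt with h' | h'
      · exact Or.inl h'
      · exact Or.inr ⟨Or.inr ⟨h, h'⟩, h'.trans h4'⟩
  · intro β hβ
    rw [Rfl_mem, hqd, hmem] at hβ
    by_cases hβα : β = α
    · subst hβα
      rw [Rfl_S_top, hqS]
      ext x
      constructor
      · rintro ⟨⟨h6, -⟩, h7⟩
        exact (h2 x h7).2 h6
      · intro h6
        have h7 : x < β := (r β).sub β h6
        exact ⟨⟨(h2 x h7).1 h6, h7.trans h4'⟩, h7⟩
    · have hβ' : β ∈ (r α).dom ∧ β < α := by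
        rcases hβ with h | ⟨h | h, h'⟩
        · exact absurd h hβα
        · exact absurd h h'.ne
        · exact h
      have hβκ := hβ'.2.trans h4'
      rw [Rfl_S H hβα hβκ, hq, cat_S hβκ.ne]
      show w.S β = (r α).S β
      rw [← h3', rst_S (show β ∈ Iio α from hβ'.2)]

end Pool.SND
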