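import Pool.Agent.Helper23.CK.NK
import Pool.Agent.Helper23.CK.Fo
import Pool.Agent.SND.Defs

set_option autoImplicit false

/-!
# The statements about the complete Boolean algebra, about names, and about transitive models

`P` is a forcing, `κ` an ordinal and `N D` is the Boolean value of the statement that the subset
of `κ` with the name `D` belongs to the ideal.
-/

namespace Pool.SND

open Pool.Agent.Helper23.CK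
open Pool.Agent.Helper23.WT (iffV ZM opair)

section
variable (P : Type 1) [Preorder P] (κ : Ordinal.{0})

/-- `N` gives the Boolean values for a `κ⁺`-saturated ideal on `κ` -/
structure SatData (N : (Set.Iio κ → RO P) → RO P) : Prop where
  mono : ∀ D E, (⨅ β, E β ⇨ D β) ⊓ N D ≤ N E
  proper : N (fun _ => ⊤) = ⊥
  bdd : ∀ γ : Set.Iio κ, ⊤ ≤ N (fun β => ⨆ _ : β < γ, ⊤)
  compl : ∀ (δ : Set.Iio κ) (D : Set.Iio δ.1 → Set.Iio κ → RO P),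
    ⨅ ξ, N (D ξ) ≤ N (fun β => ⨆ ξ, D ξ β)
  sat : ∀ (T : Type 1) (D : T → Set.Iio κ → RO P) (b : T → RO P), (∀ i, b i ≠ ⊥) →
    (∀ i, b i ≤ (N (D i))ᶜ) → (∀ i j, i ≠ j → b i ⊓ b j ≤ N (fun β => D i β ⊓ D j β)) →
    ∃ f : T → Set.Iio κ, Function.Injective f

/-- functions from an ordinal below `κ` to `κ` are bounded -/
def RegB : Prop := ∀ (δ : Set.Iio κ) (G : Set.Iio δ.1 → Set.Iio κ → RO P),
  (⨅ ξ, ⨆ α, G ξ α) ≤ ⨆ γ : Set.Iio κ, ⨅ ξ, ⨆ α, ⨆ _ : α < γ, G ξ α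

/-- ordinals below `κ` have fewer than `κ` subsets -/
def PowB : Prop := ∀ δ : Set.Iio κ, ⊤ ≤ ⨆ η : Set.Iio κ,
  ⨆ Y : Set.Iio η.1 → Set.Iio δ.1 → RO P, ⨅ D : Set.Iio δ.1 → RO P, ⨆ c, ⨅ ξ,
    iffV (D ξ) (Y c ξ)

/-- no sequence guesses all the subsets of `κ` that belong to the ground model on all closed
unbounded sets -/
def NoDiaB : Prop := ∀ A : Set.Iio κ → Set.Iio κ → RO P,
  ⊤ ≤ ⨆ X : Set (Set.Iio κ), ⨆ C : Set.Iio κ → RO P,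
    ((⨅ β, ⨆ γ, ⨆ _ : β < γ, C γ) ⊓
      ⨅ δ : Set.Iio κ, ⨅ _ : (0 : Ordinal.{0}) < δ.1,
        (⨅ β, ⨅ _ : β < δ, ⨆ γ, ⨆ _ : β < γ ∧ γ < δ, C γ) ⇨ C δ) ⊓
      ⨅ α, C α ⇨ (⨅ ξ, ⨅ _ : ξ < α, iffV (A α ξ) (⨆ _ : ξ ∈ X, ⊤))ᶜ

end

/-! ### names -/

section
variable {P : Type 1} [Preorder P] {κ : Ordinal.{0}}

/-- the name of the subset of `κ` with the Boolean values `D` -/
noncomputable def sn (D : Set.Iio κ → RO P) : Nm P :=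
  Nm.mk (Set.Iio κ) (fun β => ordn β.1) D

/-- the name of the ideal -/
noncomputable def idn (N : (Set.Iio κ → RO P) → RO P) : Nm P :=
  Nm.mk (Set.Iio κ → RO P) (fun D => sn D) N

/-- the Boolean values of the elements of `κ` in a name -/
noncomputable def fam (κ : Ordinal.{0}) (x : Nm P) : Set.Iio κ → RO P :=
  fun β => Nm.mem (ordn β.1) x

/-- `x ⊆ y` -/
noncomputable def SubB (x y : Nm P) : RO P := ⨅ z, Nm.mem z x ⇨ Nm.mem z y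

/-- `C` is a closed unbounded subset of `t` -/
noncomputable def ClubB (t C : Nm P) : RO P :=
  SubB C t ⊓ ((⨅ a, Nm.mem a t ⇨ ⨆ c, Nm.mem c C ⊓ Nm.mem a c) ⊓
    ⨅ a, Nm.mem a t ⇨ ((⨆ b, Nm.mem b a) ⇨
      ((⨅ b, Nm.mem b a ⇨ ⨆ c, Nm.mem c C ⊓ (Nm.mem c a ⊓ Nm.mem b c)) ⇨ Nm.mem a C)))

/-- `t` is regular -/
def RegN (t : Nm P) : Prop := ∀ a f : Nm P,
  Nm.mem a t ⊓ (FunB f ⊓ ⨅ x, Nm.mem x a ⇨ ⨆ y, Nm.mem y t ⊓ Nm.mem (Nm.opair x y) f) ≤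
    ⨆ b, Nm.mem b t ⊓ ⨅ x, Nm.mem x a ⇨ ⨅ y, Nm.mem (Nm.opair x y) f ⇨ Nm.mem y b

/-- `t` is a strong limit -/
def PowN (t : Nm P) : Prop := ∀ a : Nm P, Nm.mem a t ≤
  ⨆ b, Nm.mem b t ⊓ ⨆ c, FunB c ⊓ ⨅ x, SubB x a ⇨ ⨆ n, Nm.mem n b ⊓ Nm.mem (Nm.opair n x) c

/-- `I` is an ideal on `t` -/
structure IdN (t I : Nm P) : Prop where
  sub : ∀ x, Nm.mem x I ≤ SubB x t
  down : ∀ x y, Nm.mem x I ⊓ SubB y x ≤ Nm.mem y I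
  proper : Nm.mem t I = ⊥
  bdd : ∀ a, Nm.mem a t ≤ Nm.mem a I
  union : ∀ a f u, Nm.mem a t ⊓ (FunB f ⊓
    ((⨅ x, Nm.mem x a ⇨ ⨆ y, Nm.mem y I ⊓ Nm.mem (Nm.opair x y) f) ⊓
      ⨅ z, iffV (Nm.mem z u)
        (⨆ x, Nm.mem x a ⊓ ⨆ y, Nm.mem (Nm.opair x y) f ⊓ Nm.mem z y))) ≤ Nm.mem u I

/-- the ideal `I` on `t` is `t⁺`-saturated -/
def SatN (t I : Nm P) : Prop := ∀ F : Nm P,
  (⨅ x, Nm.mem x F ⇨ SubB x t ⊓ (Nm.mem x I)ᶜ) ⊓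
    (⨅ x, Nm.mem x F ⇨ ⨅ y, Nm.mem y F ⇨ ((Nm.eq x y)ᶜ ⇨
      ⨅ z, (⨅ w, iffV (Nm.mem w z) (Nm.mem w x ⊓ Nm.mem w y)) ⇨ Nm.mem z I)) ≤
    ⨆ c, FunB c ⊓ ⨅ x, Nm.mem x F ⇨ ⨆ n, Nm.mem n t ⊓ Nm.mem (Nm.opair n x) c

/-- the diamond principle fails for `t` -/
def NoDiaN (t : Nm P) : Prop := ∀ A : Nm P, FunB A ≤ ⨆ X, ⨆ C, SubB X t ⊓ (ClubB t C ⊓
  ⨅ a, Nm.mem a C ⇨ ⨅ x, Nm.mem (Nm.opair a x) A ⇨
    (⨅ z, iffV (Nm.mem z x) (Nm.mem z X ⊓ Nm.mem z a))ᶜ)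

end

/-! ### transitive models -/

section
variable {M : ZFSet.{0}} [TM M]

/-- `x ⊆ y` -/
def SubS (x y : Mo M) : Prop := ∀ z, ZM.E z x → ZM.E z y

/-- `C` is a closed unbounded subset of `t` -/
def ClubS (t C : Mo M) : Prop :=
  SubS C t ∧ ((∀ a, ZM.E a t → ∃ c, ZM.E c C ∧ ZM.E a c) ∧
    ∀ a, ZM.E a t → ((∃ b, ZM.E b a) →
      ((∀ b, ZM.E b a → ∃ c, ZM.E c C ∧ (ZM.E c a ∧ ZM.E b c)) → ZM.E a C)))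

/-- `t` is regular -/
def RegS (t : Mo M) : Prop := ∀ a f : Mo M,
  (ZM.E a t ∧ (FunS f ∧ ∀ x, ZM.E x a → ∃ y, ZM.E y t ∧ ZM.E (opair x y) f)) →
    ∃ b, ZM.E b t ∧ ∀ x, ZM.E x a → ∀ y, ZM.E (opair x y) f → ZM.E y b

/-- `t` is a strong limit -/
def PowS (t : Mo M) : Prop := ∀ a : Mo M, ZM.E a t →
  ∃ b, ZM.E b t ∧ ∃ c, FunS c ∧ ∀ x, SubS x a → ∃ n, ZM.E n b ∧ ZM.E (opair n x) c

/-- `I` is an ideal on `t` -/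
structure IdS (t I : Mo M) : Prop where
  sub : ∀ x, ZM.E x I → SubS x t
  down : ∀ x y, (ZM.E x I ∧ SubS y x) → ZM.E y I
  proper : ¬ ZM.E t I
  bdd : ∀ a, ZM.E a t → ZM.E a I
  union : ∀ a f u, (ZM.E a t ∧ (FunS f ∧
    ((∀ x, ZM.E x a → ∃ y, ZM.E y I ∧ ZM.E (opair x y) f) ∧
      ∀ z, ZM.E z u ↔ ∃ x, ZM.E x a ∧ ∃ y, ZM.E (opair x y) f ∧ ZM.E z y))) → ZM.E u I

/-- the ideal `I` on `t` is `t⁺`-saturated -/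
def SatS (t I : Mo M) : Prop := ∀ F : Mo M,
  ((∀ x, ZM.E x F → SubS x t ∧ ¬ ZM.E x I) ∧
    (∀ x, ZM.E x F → ∀ y, ZM.E y F → (¬ x = y →
      ∀ z, (∀ w, ZM.E w z ↔ ZM.E w x ∧ ZM.E w y) → ZM.E z I))) →
    ∃ c, FunS c ∧ ∀ x, ZM.E x F → ∃ n, ZM.E n t ∧ ZM.E (opair n x) c

/-- the diamond principle fails for `t` -/
def NoDiaS (t : Mo M) : Prop := ∀ A : Mo M, FunS A → ∃ X, ∃ C, SubS X t ∧ (ClubS t C ∧
  ∀ a, ZM.E a C → ∀ x, ZM.E (opair a x) A → ¬ ∀ z, ZM.E z x ↔ ZM.E z X ∧ ZM.E z a)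

end

end Pool.SND
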