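import Pool.Agent.MagRad.Final
import Pool.Agent.SND.Ro
import Pool.Agent.SND.Base

set_option autoImplicit false

namespace Pool.SND

open MagRad
open Pool.Agent.Helper23.CK
open Pool.Agent.Helper23.WT (iffV ZM opair)

variable {κ : Ordinal.{0}}
variable {o : Ordinal.{0} → Ordinal.{0}} {U : Ordinal.{0} → Ordinal.{0} → Ultrafilter Ordinal.{0}}

/-- the conditions in a regular open set, as conditions with top point `κ` -/
def cr (b : RO (MR o U κ)) : Set (Cnd o U) := img b.carrier

theorem cr_reg (b : RO (MR o U κ)) : IsReg (TopC o U κ) (cr b) :=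
  img_reg ⟨fun _ hp _ hq => b.lower hq hp, fun p h => (b.regular p).2 h⟩

theorem mem_cr {b : RO (MR o U κ)} {p : MR o U κ} : p.1 ∈ cr b ↔ p ∈ b.carrier :=
  ⟨fun ⟨_, h⟩ => h, fun h => ⟨p.2, h⟩⟩

theorem cr_top (b : RO (MR o U κ)) {p : Cnd o U} (h : p ∈ cr b) : p ∈ TopC o U κ :=
  h.1

theorem cr_compl (b : RO (MR o U κ)) : cr bᶜ = nega (TopC o U κ) (cr b) :=
  img_neg b.carrier

open Classical in
/-- a family of Boolean values as a family of sets of conditions -/
noncomputable def fr (D : Set.Iio κ → RO (MR o U κ)) : Ordinal.{0} → Set (Cnd o U) :=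
  fun α => if h : α < κ then cr (D ⟨α, h⟩) else ∅

theorem fr_reg (D : Set.Iio κ → RO (MR o U κ)) : RegFam o U κ (fr D) := by
  intro α hα
  have e : fr D α = cr (D ⟨α, hα⟩) := dif_pos hα
  rw [e]
  exact cr_reg _

theorem fr_of_lt (D : Set.Iio κ → RO (MR o U κ)) {α : Ordinal.{0}} (h : α < κ) :
    fr D α = cr (D ⟨α, h⟩) :=
  dif_pos h

/-- the regular open set given by a regular set of conditions with top point `κ` -/
def ro (D : Set (Cnd o U)) (hD : IsReg (TopC o U κ) D) : RO (MR o U κ) where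
  carrier := {p | p.1 ∈ D}
  regular := by
    intro p
    constructor
    · intro hp q hq
      exact ⟨q, le_rfl, hD.down p.1 hp q.1 hq⟩
    · intro h
      exact (pre_reg hD).2 p h

theorem mem_ro {D : Set (Cnd o U)} {hD : IsReg (TopC o U κ) D} {p : MR o U κ} :
    p ∈ (ro D hD).carrier ↔ p.1 ∈ D := Iff.rfl

theorem cr_ro (D : Set (Cnd o U)) (hD : IsReg (TopC o U κ) D) : cr (ro D hD) = D := by
  ext p
  constructor
  · rintro ⟨_, h⟩
    exact h
  · intro h
    exact ⟨hD.sub h, h⟩

/-- the regular open sets that force the point `α` -/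
noncomputable def occR (α : Ordinal.{0}) : RO (MR o U κ) where
  carrier := {p | ∀ q ≤ p, ∃ r ≤ q, α ∈ r.1.dom}
  regular := by
    intro p
    constructor
    · intro hp q hq
      exact ⟨q, le_rfl, fun r hr => hp r (hr.trans hq)⟩
    · intro h q hq
      obtain ⟨r, hr, hr'⟩ := h q hq
      obtain ⟨s, hs, hs'⟩ := hr' r le_rfl
      exact ⟨s, hs.trans hr, hs'⟩


end Pool.SND
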