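import Pool.Agent.SND.ScDefs
import Pool.Agent.MagRad.Defs

set_option autoImplicit false

/-!
# The point `κ ∩ x` and one step of a coherent sequence
-/

universe u

namespace Pool.SND

open MagRad

/-- the least ordinal that is not in `x`; for almost all `x` it is `κ ∩ x` -/
noncomputable def kx (x : Set Ordinal.{u}) : Ordinal.{u} := sInf xᶜ

/-- `D` is a normal measure on `α` which continues the coherent sequence given by `o`, `U`
below `α` and by the `b` measures `s i` on `α` -/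
def ExtC (α b : Ordinal.{u}) (o : Ordinal.{u} → Ordinal.{u})
    (U : Ordinal.{u} → Ordinal.{u} → Ultrafilter Ordinal.{u})
    (s : Ordinal.{u} → Ultrafilter Ordinal.{u}) (D : Ultrafilter Ordinal.{u}) : Prop :=
  IsNormalMeasure α D ∧ ∃ F : Ordinal.{u} → Ordinal.{u} → Ordinal.{u},
    (∀ i < b, {ν | F i ν < o ν} ∈ D) ∧
    (∀ i j, i < j → j < b → {ν | F i ν < F j ν} ∈ D) ∧
    (∀ g : Ordinal.{u} → Ordinal.{u}, {ν | g ν < o ν} ∈ D → ∃ i < b, {ν | g ν = F i ν} ∈ D) ∧
    ∀ i < b, ∀ X : Set Ordinal.{u}, X ∈ s i ↔ {ν | X ∈ U ν (F i ν)} ∈ D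

/-- a coherent sequence that cannot be continued at any ordinal -/
structure IsMaxCoh (o : Ordinal.{u} → Ordinal.{u})
    (U : Ordinal.{u} → Ordinal.{u} → Ultrafilter Ordinal.{u}) : Prop where
  ext : ∀ α, ∀ β < o α, ExtC α β o U (U α) (U α β)
  stop : ∀ α, ¬ ∃ D, ExtC α (o α) o U (U α) D

end Pool.SND
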