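import Mathlib

set_option autoImplicit false

/-!
# Supercompactness measures
-/

universe u

namespace Pool.SND

/-- `W` is a `κ`-complete fine normal measure on the set `P_κ(lam)` of the subsets of `lam` with
fewer than `κ` elements; its existence says that `κ` is `lam`-supercompact -/
structure IsSupercompactMeasure (κ lam : Ordinal.{u}) (W : Ultrafilter (Set Ordinal.{u})) :
    Prop where
  conc : {x | x ⊆ Set.Iio lam ∧ Cardinal.mk x < Cardinal.lift.{u + 1} κ.card} ∈ W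
  complete : ∀ δ < κ, ∀ X : Ordinal.{u} → Set (Set Ordinal.{u}), (∀ ξ < δ, X ξ ∈ W) →
    {x | ∀ ξ < δ, x ∈ X ξ} ∈ W
  fine : ∀ ξ < lam, {x | ξ ∈ x} ∈ W
  normal : ∀ X : Ordinal.{u} → Set (Set Ordinal.{u}), (∀ ξ < lam, X ξ ∈ W) →
    {x | ∀ ξ ∈ x, x ∈ X ξ} ∈ W

end Pool.SND
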