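import Pool.Agent.SND.ScP

set_option autoImplicit false

namespace Pool.SND

open MagRad Set

universe u v

variable {κ lam : Ordinal.{u}} {W : Ultrafilter (Set Ordinal.{u})}

theorem exists_enum (hlam : lam.card = 2 ^ κ.card) : ∃ Y : Ordinal.{u} → Set Ordinal.{u},
    (∀ ξ < lam, Y ξ ⊆ Iio κ) ∧ (∀ A ⊆ Iio κ, ∃ ξ < lam, Y ξ = A) ∧
      ∀ ξ < lam, ∀ η < lam, Y ξ = Y η → ξ = η := by
  classical
  have hc : Cardinal.mk (Iio lam) = Cardinal.mk (Set (Iio κ)) := by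
    rw [Cardinal.mk_set, Cardinal.mk_Iio_ordinal, Cardinal.mk_Iio_ordinal, hlam,
      Cardinal.lift_power, Cardinal.lift_two]
  obtain ⟨e⟩ := Cardinal.eq.1 hc
  refine ⟨fun ξ => if h : ξ < lam then Subtype.val '' (e ⟨ξ, h⟩) else ∅, ?_, ?_, ?_⟩
  · intro ξ h
    simp only [dif_pos h]
    rintro _ ⟨z, _, rfl⟩
    exact z.2
  · intro A hA
    refine ⟨(e.symm (Subtype.val ⁻¹' A)).1, (e.symm (Subtype.val ⁻¹' A)).2, ?_⟩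
    have h : (e.symm (Subtype.val ⁻¹' A)).1 < lam := (e.symm (Subtype.val ⁻¹' A)).2
    simp only [dif_pos h, Subtype.coe_eta, Equiv.apply_symm_apply, Subtype.image_preimage_coe]
    exact inter_eq_right.2 hA
  · intro ξ hξ η hη h
    simp only [dif_pos hξ, dif_pos hη] at h
    have h1 := e.injective (Subtype.val_injective.image_injective h)
    exact congrArg Subtype.val h1

/-- for almost all `x`, the sets `Y ξ ∩ kx x`, `ξ ∈ x`, are exactly all subsets of `kx x` -/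
theorem power_x (hW : IsSupercompactMeasure κ lam W) (hκ : κ ≤ lam)
    {Y : Ordinal.{u} → Set Ordinal.{u}} (hY : ∀ A ⊆ Iio κ, ∃ ξ < lam, Y ξ = A) :
    {x | ∀ A ⊆ Iio (kx x), ∃ ξ ∈ x, A = Y ξ ∩ Iio (kx x)} ∈ W := by
  classical
  by_contra hcon
  have hcon' := Ultrafilter.compl_mem_iff_notMem.2 hcon
  have hch : ∀ x : Set Ordinal.{u}, ∃ A : Set Ordinal.{u},
      x ∈ {x | ∀ A ⊆ Iio (kx x), ∃ ξ ∈ x, A = Y ξ ∩ Iio (kx x)}ᶜ →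
        A ⊆ Iio (kx x) ∧ ∀ ξ ∈ x, A ≠ Y ξ ∩ Iio (kx x) := by
    intro x
    by_cases hx : x ∈ {x | ∀ A ⊆ Iio (kx x), ∃ ξ ∈ x, A = Y ξ ∩ Iio (kx x)}ᶜ
    · simp only [mem_compl_iff, mem_ofPred_eq, not_forall, not_exists, not_and] at hx
      obtain ⟨A, hA, h⟩ := hx
      exact ⟨A, fun _ => ⟨hA, h⟩⟩
    · exact ⟨∅, fun h => absurd h hx⟩
  choose A hA using hch
  obtain ⟨B, hB, hAB⟩ := lim_set hW hκ A
  obtain ⟨ξ, hξ, hξB⟩ := hY B hB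
  obtain ⟨x, ⟨hx1, hx2⟩, hx3⟩ := W.nonempty_of_mem
    (Filter.inter_mem (Filter.inter_mem hcon' hAB) (hW.fine ξ hξ))
  obtain ⟨h1, h2⟩ := hA x hx1
  refine h2 ξ hx3 ?_
  ext ζ
  constructor
  · intro hζ
    refine ⟨?_, h1 hζ⟩
    rw [hξB]
    exact (hx2 ζ (h1 hζ)).1 hζ
  · rintro ⟨hζ1, hζ2⟩
    rw [hξB] at hζ1
    exact (hx2 ζ hζ2).2 hζ1

private theorem ScE_loc (hW : IsSupercompactMeasure κ lam W) (hκ : κ ≤ lam)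
    (Z : Ordinal.{u} → Ordinal.{u} → Ordinal.{u} → Set Ordinal.{u})
    (C : Ordinal.{u} → Ordinal.{u} → Ordinal.{u} → Prop)
    (h : ∀ ξ < lam, ∀ η < lam, ∀ ζ < lam, C ξ η ζ → ∃ ν < κ, ν ∈ Z ξ η ζ) :
    {x | ∀ ξ ∈ x, ∀ η ∈ x, ∀ ζ ∈ x, C ξ η ζ → ∃ ν < kx x, ν ∈ Z ξ η ζ} ∈ W := by
  refine hW.normal (fun ξ => {x | ∀ η ∈ x, ∀ ζ ∈ x, C ξ η ζ → ∃ ν < kx x, ν ∈ Z ξ η ζ})
    fun ξ hξ => ?_
  refine hW.normal (fun η => {x | ∀ ζ ∈ x, C ξ η ζ → ∃ ν < kx x, ν ∈ Z ξ η ζ})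
    fun η hη => ?_
  refine hW.normal (fun ζ => {x | C ξ η ζ → ∃ ν < kx x, ν ∈ Z ξ η ζ}) fun ζ hζ => ?_
  by_cases hC : C ξ η ζ
  · obtain ⟨ν, hν, hν'⟩ := h ξ hξ η hη ζ hζ hC
    exact Filter.mem_of_superset (kx_tail hW hκ hν) fun x hx _ => ⟨ν, hx, hν'⟩
  · exact Filter.mem_of_superset Filter.univ_mem fun x _ h => absurd h hC

theorem power_inj (hW : IsSupercompactMeasure κ lam W) (hκ : κ ≤ lam)
    {Y : Ordinal.{u} → Set Ordinal.{u}} (hY : ∀ ξ < lam, Y ξ ⊆ Iio κ)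
    (hY' : ∀ ξ < lam, ∀ η < lam, Y ξ = Y η → ξ = η) :
    {x | ∀ ξ ∈ x, ∀ η ∈ x, Y ξ ∩ Iio (kx x) = Y η ∩ Iio (kx x) → ξ = η} ∈ W := by
  refine Filter.mem_of_superset (ScE_loc hW hκ (fun ξ η _ => Y ξ \ Y η ∪ Y η \ Y ξ)
    (fun ξ η _ => ξ ≠ η) ?_) ?_
  · intro ξ hξ η hη ζ _ hne
    have h1 : Y ξ ≠ Y η := fun h => hne (hY' ξ hξ η hη h)
    by_contra hcon
    push Not at hcon
    refine h1 (Subset.antisymm ?_ ?_)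
    · intro ν hν
      by_contra hν'
      exact hcon ν (hY ξ hξ hν) (Or.inl ⟨hν, hν'⟩)
    · intro ν hν
      by_contra hν'
      exact hcon ν (hY η hη hν) (Or.inr ⟨hν, hν'⟩)
  · intro x hx ξ hξ η hη he
    by_contra hne
    obtain ⟨ν, hν, h | h⟩ := hx ξ hξ η hη ξ hξ hne
    · have : ν ∈ Y η ∩ Iio (kx x) := he ▸ ⟨h.1, hν⟩
      exact h.2 this.1
    · have : ν ∈ Y ξ ∩ Iio (kx x) := he ▸ ⟨h.1, hν⟩
      exact h.2 this.1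

/-- every normal measure on `κ` is the limit of normal measures on the points `kx x` -/
theorem refl_measure (hW : IsSupercompactMeasure κ lam W) (hκ : κ ≤ lam)
    (hlam : lam.card = 2 ^ κ.card) {D : Ultrafilter Ordinal.{u}} (hD : IsNormalMeasure κ D) :
    ∃ E : Set Ordinal.{u} → Ultrafilter Ordinal.{u},
      {x | IsNormalMeasure (kx x) (E x)} ∈ W ∧
      ∀ (A : Set Ordinal.{u} → Set Ordinal.{u}) (B : Set Ordinal.{u}),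
        {x | ∀ ξ < kx x, ξ ∈ A x ↔ ξ ∈ B} ∈ W → ({x | A x ∈ E x} ∈ W ↔ B ∈ D) := by
  classical
  obtain ⟨Y, hY1, hY2, hY3⟩ := exists_enum (κ := κ) hlam
  -- the family of sets
  have hP : ∃ E : Set Ordinal.{u} → Ultrafilter Ordinal.{u},
      {x | ∀ A : Set Ordinal.{u}, A ∈ E x ↔
        ∃ ξ ∈ x, Y ξ ∈ D ∧ A ∩ Iio (kx x) = Y ξ ∩ Iio (kx x)} ∈ W := by
    have h1 : {x | ∀ ξ ∈ x, ∀ η ∈ x, ∀ ζ ∈ x, (Y ξ ∈ D ∧ Y η ∈ D ∧ Y ζ ∉ D) →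
        ∃ ν < kx x, ν ∈ (Y ξ ∩ Y η) \ Y ζ} ∈ W := by
      refine ScE_loc hW hκ (fun ξ η ζ => (Y ξ ∩ Y η) \ Y ζ) _ ?_
      rintro ξ hξ η hη ζ hζ ⟨a, b, c⟩
      by_contra hcon
      push Not at hcon
      refine c (Filter.mem_of_superset (Filter.inter_mem a b) ?_)
      intro ν hν
      by_contra hν'
      exact hcon ν (hY1 ξ hξ hν.1) ⟨hν, hν'⟩
    have h2 : {x | ∀ ξ ∈ x, ∀ η ∈ x, ∀ ζ ∈ x, (Y ξ ∈ D ∧ Y η ∈ D) →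
        ∃ ν < kx x, ν ∈ Y ξ ∩ Y η} ∈ W := by
      refine ScE_loc hW hκ (fun ξ η _ => Y ξ ∩ Y η) _ ?_
      rintro ξ hξ η hη ζ hζ ⟨a, b⟩
      obtain ⟨ν, hν⟩ := D.nonempty_of_mem (Filter.inter_mem a b)
      exact ⟨ν, hY1 ξ hξ hν.1, hν⟩
    have h3 : {x | ∀ ξ ∈ x, ∀ η ∈ x, ∀ ζ ∈ x, (Y ξ ∉ D ∧ Y η ∉ D) →
        ∃ ν < kx x, ν ∈ (Y ξ ∪ Y η)ᶜ} ∈ W := by
      refine ScE_loc hW hκ (fun ξ η _ => (Y ξ ∪ Y η)ᶜ) _ ?_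
      rintro ξ hξ η hη ζ hζ ⟨a, b⟩
      have a' := Ultrafilter.compl_mem_iff_notMem.2 a
      have b' := Ultrafilter.compl_mem_iff_notMem.2 b
      obtain ⟨ν, ⟨hν1, hν2⟩, hν3⟩ := D.nonempty_of_mem
        (Filter.inter_mem (Filter.inter_mem a' b') hD.conc)
      exact ⟨ν, hν3, by rw [compl_union]; exact ⟨hν1, hν2⟩⟩
    have h4 := power_x hW hκ hY2
    have key : ∀ x : Set Ordinal.{u}, ∃ E : Ultrafilter Ordinal.{u},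
        (∀ ξ ∈ x, ∀ η ∈ x, ∀ ζ ∈ x, (Y ξ ∈ D ∧ Y η ∈ D ∧ Y ζ ∉ D) →
          ∃ ν < kx x, ν ∈ (Y ξ ∩ Y η) \ Y ζ) →
        (∀ ξ ∈ x, ∀ η ∈ x, ∀ ζ ∈ x, (Y ξ ∈ D ∧ Y η ∈ D) → ∃ ν < kx x, ν ∈ Y ξ ∩ Y η) →
        (∀ ξ ∈ x, ∀ η ∈ x, ∀ ζ ∈ x, (Y ξ ∉ D ∧ Y η ∉ D) → ∃ ν < kx x, ν ∈ (Y ξ ∪ Y η)ᶜ) →
        (∀ A ⊆ Iio (kx x), ∃ ξ ∈ x, A = Y ξ ∩ Iio (kx x)) →
        ∀ A : Set Ordinal.{u}, A ∈ E ↔
          ∃ ξ ∈ x, Y ξ ∈ D ∧ A ∩ Iio (kx x) = Y ξ ∩ Iio (kx x) := by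
      intro x
      by_cases hx : (∀ ξ ∈ x, ∀ η ∈ x, ∀ ζ ∈ x, (Y ξ ∈ D ∧ Y η ∈ D ∧ Y ζ ∉ D) →
          ∃ ν < kx x, ν ∈ (Y ξ ∩ Y η) \ Y ζ) ∧
        (∀ ξ ∈ x, ∀ η ∈ x, ∀ ζ ∈ x, (Y ξ ∈ D ∧ Y η ∈ D) → ∃ ν < kx x, ν ∈ Y ξ ∩ Y η) ∧
        (∀ ξ ∈ x, ∀ η ∈ x, ∀ ζ ∈ x, (Y ξ ∉ D ∧ Y η ∉ D) → ∃ ν < kx x, ν ∈ (Y ξ ∪ Y η)ᶜ) ∧
        (∀ A ⊆ Iio (kx x), ∃ ξ ∈ x, A = Y ξ ∩ Iio (kx x))
      · obtain ⟨k1, k2, k3, k4⟩ := hx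
        have k4' : ∀ A : Set Ordinal.{u}, ∃ ξ ∈ x, A ∩ Iio (kx x) = Y ξ ∩ Iio (kx x) :=
          fun A => k4 _ inter_subset_right
        let f : Filter Ordinal.{u} :=
          { sets := {A | ∃ ξ ∈ x, Y ξ ∈ D ∧ A ∩ Iio (kx x) = Y ξ ∩ Iio (kx x)}
            univ_sets := by
              obtain ⟨ξ, hξ, he⟩ := k4' univ
              refine ⟨ξ, hξ, ?_, he⟩
              by_contra hn
              obtain ⟨ν, hν, hν'⟩ := k3 ξ hξ ξ hξ ξ hξ ⟨hn, hn⟩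
              have : ν ∈ Y ξ ∩ Iio (kx x) := he ▸ ⟨mem_univ _, hν⟩
              exact hν' (Or.inl this.1)
            sets_of_superset := by
              rintro A A' ⟨ξ, hξ, hξD, he⟩ hAA
              obtain ⟨η, hη, he'⟩ := k4' A'
              refine ⟨η, hη, ?_, he'⟩
              by_contra hn
              obtain ⟨ν, hν, hν', hν''⟩ := k1 ξ hξ ξ hξ η hη ⟨hξD, hξD, hn⟩
              have h5 : ν ∈ A ∩ Iio (kx x) := he ▸ ⟨hν'.1, hν⟩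
              have h6 : ν ∈ Y η ∩ Iio (kx x) := he' ▸ ⟨hAA h5.1, hν⟩
              exact hν'' h6.1
            inter_sets := by
              rintro A A' ⟨ξ, hξ, hξD, he⟩ ⟨η, hη, hηD, he'⟩
              obtain ⟨ζ, hζ, he''⟩ := k4' (A ∩ A')
              refine ⟨ζ, hζ, ?_, he''⟩
              by_contra hn
              obtain ⟨ν, hν, hν', hν''⟩ := k1 ξ hξ η hη ζ hζ ⟨hξD, hηD, hn⟩
              have h5 : ν ∈ A ∩ Iio (kx x) := he ▸ ⟨hν'.1, hν⟩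
              have h5' : ν ∈ A' ∩ Iio (kx x) := he' ▸ ⟨hν'.2, hν⟩
              have h6 : ν ∈ Y ζ ∩ Iio (kx x) := he'' ▸ ⟨⟨h5.1, h5'.1⟩, hν⟩
              exact hν'' h6.1 }
        have hf : ∀ A : Set Ordinal.{u}, A ∈ f ↔
            ∃ ξ ∈ x, Y ξ ∈ D ∧ A ∩ Iio (kx x) = Y ξ ∩ Iio (kx x) := fun A => Iff.rfl
        refine ⟨Ultrafilter.ofComplNotMemIff f ?_, fun _ _ _ _ A => hf A⟩
        intro s
        constructor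
        · intro hs
          obtain ⟨ξ, hξ, he⟩ := k4' s
          obtain ⟨η, hη, he'⟩ := k4' sᶜ
          rw [hf]
          refine ⟨ξ, hξ, ?_, he⟩
          by_contra hn
          have hn' : Y η ∉ D := fun h => hs ((hf _).2 ⟨η, hη, h, he'⟩)
          obtain ⟨ν, hν, hν'⟩ := k3 ξ hξ η hη ξ hξ ⟨hn, hn'⟩
          by_cases h : ν ∈ s
          · have : ν ∈ Y ξ ∩ Iio (kx x) := he ▸ ⟨h, hν⟩
            exact hν' (Or.inl this.1)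
          · have : ν ∈ Y η ∩ Iio (kx x) := he' ▸ ⟨h, hν⟩
            exact hν' (Or.inr this.1)
        · intro hs hs'
          obtain ⟨ξ, hξ, hξD, he⟩ := (hf _).1 hs
          obtain ⟨η, hη, hηD, he'⟩ := (hf _).1 hs'
          obtain ⟨ν, hν, hν'⟩ := k2 ξ hξ η hη ξ hξ ⟨hξD, hηD⟩
          have h5 : ν ∈ s ∩ Iio (kx x) := he ▸ ⟨hν'.1, hν⟩
          have h6 : ν ∈ sᶜ ∩ Iio (kx x) := he' ▸ ⟨hν'.2, hν⟩
          exact h6.1 h5.1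
      · exact ⟨pure 0, fun a b c d => absurd ⟨a, b, c, d⟩ hx⟩
    choose E hE using key
    refine ⟨E, ?_⟩
    filter_upwards [h1, h2, h3, h4] with x a b c d
    exact hE x a b c d
  obtain ⟨E, hE⟩ := hP
  have hinj := power_inj hW hκ hY1 hY3
  have hkx := kx_lt hW hκ
  -- reflection
  have hrefl : ∀ (A : Set Ordinal.{u} → Set Ordinal.{u}) (B : Set Ordinal.{u}),
      {x | ∀ ξ < kx x, ξ ∈ A x ↔ ξ ∈ B} ∈ W → ({x | A x ∈ E x} ∈ W ↔ B ∈ D) := by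
    intro A B hAB
    obtain ⟨ξ0, hξ0, hξB⟩ := hY2 (B ∩ Iio κ) inter_subset_right
    have hBD : B ∈ D ↔ Y ξ0 ∈ D := by
      rw [hξB]
      exact ⟨fun h => Filter.inter_mem h hD.conc,
        fun h => Filter.mem_of_superset h inter_subset_left⟩
    have hag : {x | A x ∩ Iio (kx x) = Y ξ0 ∩ Iio (kx x)} ∈ W := by
      filter_upwards [hAB, hkx] with x h1 h2
      rw [hξB]
      ext ζ
      constructor
      · rintro ⟨h3, h4⟩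
        exact ⟨⟨(h1 ζ h4).1 h3, lt_trans h4 h2⟩, h4⟩
      · rintro ⟨⟨h3, _⟩, h4⟩
        exact ⟨(h1 ζ h4).2 h3, h4⟩
    rw [hBD]
    constructor
    · intro h
      obtain ⟨x, ⟨⟨⟨⟨h1, h2⟩, h3⟩, h4⟩, h5⟩⟩ := W.nonempty_of_mem
        (Filter.inter_mem (Filter.inter_mem (Filter.inter_mem (Filter.inter_mem h hE) hinj) hag)
          (hW.fine ξ0 hξ0))
      obtain ⟨ξ, hξ, hξD, he⟩ := (h2 (A x)).1 h1
      have h6 : ξ = ξ0 := h3 ξ hξ ξ0 h5 (he.symm.trans h4)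
      rwa [← h6]
    · intro h
      filter_upwards [hE, hag, hW.fine ξ0 hξ0] with x h1 h2 h3
      exact (h1 (A x)).2 ⟨ξ0, h3, h, h2⟩
  refine ⟨E, ?_, hrefl⟩
  have htail : {x | ∀ ξ < kx x, Ioi ξ ∈ E x} ∈ W := by
    refine diag_k hW hκ (fun ξ => {x | Ioi ξ ∈ E x}) fun ξ hξ => ?_
    refine (hrefl (fun _ => Ioi ξ) (Ioi ξ) ?_).2 (hD.tail ξ hξ)
    exact Filter.mem_of_superset Filter.univ_mem fun x _ ζ _ => Iff.rfl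
  have hdiag : {x | ∀ X : Ordinal.{u} → Set Ordinal.{u}, (∀ ξ < kx x, X ξ ∈ E x) →
      {ν | ∀ ξ < ν, ν ∈ X ξ} ∈ E x} ∈ W := by
    by_contra hcon
    have hcon' := Ultrafilter.compl_mem_iff_notMem.2 hcon
    have hch : ∀ x : Set Ordinal.{u}, ∃ X : Ordinal.{u} → Set Ordinal.{u},
        x ∈ {x | ∀ X : Ordinal.{u} → Set Ordinal.{u}, (∀ ξ < kx x, X ξ ∈ E x) →
          {ν | ∀ ξ < ν, ν ∈ X ξ} ∈ E x}ᶜ →
          (∀ ξ < kx x, X ξ ∈ E x) ∧ {ν | ∀ ξ < ν, ν ∈ X ξ} ∉ E x := by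
      intro x
      by_cases hx : x ∈ {x | ∀ X : Ordinal.{u} → Set Ordinal.{u}, (∀ ξ < kx x, X ξ ∈ E x) →
          {ν | ∀ ξ < ν, ν ∈ X ξ} ∈ E x}ᶜ
      · rw [mem_compl_iff, mem_ofPred_eq, not_forall] at hx
        obtain ⟨X, hX⟩ := hx
        rw [Classical.not_imp] at hX
        exact ⟨X, fun _ => hX⟩
      · exact ⟨fun _ => ∅, fun h => absurd h hx⟩
    choose X hX using hch
    have hlim : ∀ ξ : Ordinal.{u}, ∃ B ⊆ Iio κ,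
        {x | ∀ ν < kx x, ν ∈ X x ξ ↔ ν ∈ B} ∈ W := fun ξ => lim_set hW hκ fun x => X x ξ
    choose B _ hBX using hlim
    have hBD : ∀ ξ < κ, B ξ ∈ D := by
      intro ξ hξ
      refine (hrefl (fun x => X x ξ) (B ξ) (hBX ξ)).1 ?_
      filter_upwards [hcon', kx_tail hW hκ hξ] with x h1 h2
      exact (hX x h1).1 ξ h2
    have hC := hD.diag B hBD
    have hag : {x | ∀ ξ < kx x, ∀ ν < kx x, ν ∈ X x ξ ↔ ν ∈ B ξ} ∈ W :=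
      diag_k hW hκ (fun ξ => {x | ∀ ν < kx x, ν ∈ X x ξ ↔ ν ∈ B ξ}) fun ξ _ => hBX ξ
    have hfin := (hrefl (fun x => {ν | ∀ ξ < ν, ν ∈ X x ξ}) {ν | ∀ ξ < ν, ν ∈ B ξ} (by
      filter_upwards [hag] with x h1
      intro ν hν
      constructor
      · intro h ξ hξ
        exact (h1 ξ (lt_trans hξ hν) ν hν).1 (h ξ hξ)
      · intro h ξ hξ
        exact (h1 ξ (lt_trans hξ hν) ν hν).2 (h ξ hξ))).2 hC
    obtain ⟨x, h1, h2⟩ := W.nonempty_of_mem (Filter.inter_mem hfin hcon')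
    exact (hX x h2).2 h1
  filter_upwards [hE, htail, hdiag] with x h1 h2 h3
  refine ⟨?_, h2, h3⟩
  obtain ⟨ξ, hξ, hξD, he⟩ := (h1 univ).1 Filter.univ_mem
  refine (h1 _).2 ⟨ξ, hξ, hξD, ?_⟩
  rw [inter_self, ← he, univ_inter]

end Pool.SND
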