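import Pool.Agent.SND.ScBase

set_option autoImplicit false

namespace Pool.SND

open MagRad Set

universe u v

theorem ExtC.congr {α b : Ordinal.{u}} {o o' : Ordinal.{u} → Ordinal.{u}}
    {U U' : Ordinal.{u} → Ordinal.{u} → Ultrafilter Ordinal.{u}}
    {s s' : Ordinal.{u} → Ultrafilter Ordinal.{u}} {D : Ultrafilter Ordinal.{u}}
    (ho : ∀ ν < α, o ν = o' ν) (hU : ∀ ν < α, U ν = U' ν) (hs : ∀ i < b, s i = s' i)
    (h : ExtC α b o U s D) : ExtC α b o' U' s' D := by
  obtain ⟨hD, F, h1, h2, h3, h4⟩ := h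
  refine ⟨hD, F, fun i hi => ?_, h2, fun g hg => ?_, fun i hi X => ?_⟩
  · filter_upwards [h1 i hi, hD.conc] with ν h5 h6
    have h7 := ho ν h6
    have h5' : F i ν < o ν := h5
    show F i ν < o' ν
    rw [← h7]
    exact h5'
  · refine h3 g ?_
    filter_upwards [hg, hD.conc] with ν h5 h6
    have h7 := ho ν h6
    have h5' : g ν < o' ν := h5
    show g ν < o ν
    rw [h7]
    exact h5'
  · rw [← hs i hi, h4 i hi X]
    constructor
    · intro h5
      filter_upwards [h5, hD.conc] with ν h5 h6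
      have h5' : X ∈ U ν (F i ν) := h5
      show X ∈ U' ν (F i ν)
      rw [← hU ν h6]
      exact h5'
    · intro h5
      filter_upwards [h5, hD.conc] with ν h5 h6
      have h5' : X ∈ U' ν (F i ν) := h5
      show X ∈ U ν (F i ν)
      rw [hU ν h6]
      exact h5'

/-- one inequality between the lengths -/
theorem ScM_length_le {α b b' : Ordinal.{u}} {o : Ordinal.{u} → Ordinal.{u}}
    {U : Ordinal.{u} → Ordinal.{u} → Ultrafilter Ordinal.{u}}
    {s s' : Ordinal.{u} → Ultrafilter Ordinal.{u}} {D : Ultrafilter Ordinal.{u}}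
    (h : ExtC α b o U s D) (h' : ExtC α b' o U s' D) : b ≤ b' := by
  obtain ⟨hD, F, h1, h2, h3, h4⟩ := h
  obtain ⟨hD', F', h1', h2', h3', h4'⟩ := h'
  have hj : ∀ i, ∃ j, i < b → j < b' ∧ {ν | F i ν = F' j ν} ∈ D := by
    intro i
    by_cases hi : i < b
    · obtain ⟨j, hj, hj'⟩ := h3' (F i) (h1 i hi)
      exact ⟨j, fun _ => ⟨hj, hj'⟩⟩
    · exact ⟨0, fun h => absurd h hi⟩
  choose f hf using hj
  have hmono : ∀ i i', i < i' → i' < b → f i < f i' := by
    intro i i' hi hi'
    obtain ⟨h5, h6⟩ := hf i (hi.trans hi')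
    obtain ⟨h7, h8⟩ := hf i' hi'
    by_contra hcon
    push Not at hcon
    have h9 : {ν | F' (f i') ν ≤ F' (f i) ν} ∈ D := by
      rcases hcon.lt_or_eq with h | h
      · filter_upwards [h2' _ _ h h5] with ν hν
        exact le_of_lt hν
      · rw [h]
        exact Filter.mem_of_superset Filter.univ_mem fun ν _ => le_refl (F' (f i) ν)
    obtain ⟨ν, ⟨⟨k1, k2⟩, k3⟩, k4⟩ := D.nonempty_of_mem
      (Filter.inter_mem (Filter.inter_mem (Filter.inter_mem h6 h8) h9) (h2 i i' hi hi'))
    have k1' : F i ν = F' (f i) ν := k1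
    have k2' : F i' ν = F' (f i') ν := k2
    have k3' : F' (f i') ν ≤ F' (f i) ν := k3
    have k4' : F i ν < F i' ν := k4
    rw [k1', k2'] at k4'
    exact absurd k4' (not_lt.2 k3')
  have hle : ∀ i < b, i ≤ f i := by
    intro i
    induction i using WellFoundedLT.induction with
    | ind i ih =>
      intro hi
      by_contra hcon
      push Not at hcon
      have h5 := ih (f i) hcon (hcon.trans hi)
      exact absurd (hmono (f i) i hcon hi) (not_lt.2 h5)
  by_contra hcon
  push Not at hcon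
  have h5 := hle b' hcon
  exact absurd (hf b' hcon).1 (not_lt.2 h5)

/-- the measure determines the length -/
theorem ExtC.length {α b b' : Ordinal.{u}} {o : Ordinal.{u} → Ordinal.{u}}
    {U : Ordinal.{u} → Ordinal.{u} → Ultrafilter Ordinal.{u}}
    {s s' : Ordinal.{u} → Ultrafilter Ordinal.{u}} {D : Ultrafilter Ordinal.{u}}
    (h : ExtC α b o U s D) (h' : ExtC α b' o U s' D) : b = b' :=
  le_antisymm (ScM_length_le h h') (ScM_length_le h' h)

open Classical in
/-- the measures on `α`, chosen one after the other -/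
noncomputable def ScM_next (o : Ordinal.{u} → Ordinal.{u})
    (U : Ordinal.{u} → Ordinal.{u} → Ultrafilter Ordinal.{u}) (α : Ordinal.{u}) :
    Ordinal.{u} → Ultrafilter Ordinal.{u} :=
  WellFounded.fix (C := fun _ => Ultrafilter Ordinal.{u}) (Ordinal.lt_wf) (fun β rec =>
    if h : ∃ D, ExtC α β o U (fun i => if hi : i < β then rec i hi else pure 0) D then h.choose
    else pure 0)

theorem ScM_next_spec {o : Ordinal.{u} → Ordinal.{u}}
    {U : Ordinal.{u} → Ordinal.{u} → Ultrafilter Ordinal.{u}} {α β : Ordinal.{u}}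
    (h : ∃ D, ExtC α β o U (ScM_next o U α) D) :
    ExtC α β o U (ScM_next o U α) (ScM_next o U α β) := by
  classical
  have h1 : ∃ D, ExtC α β o U (fun i => if hi : i < β then ScM_next o U α i else pure 0) D := by
    obtain ⟨D, hD⟩ := h
    refine ⟨D, hD.congr (fun _ _ => rfl) (fun _ _ => rfl) fun i hi => ?_⟩
    rw [dif_pos hi]
  have h2 : ScM_next o U α β = h1.choose := by
    conv_lhs => rw [ScM_next, WellFounded.fix_eq]
    exact dif_pos h1
  rw [h2]
  refine h1.choose_spec.congr (fun _ _ => rfl) (fun _ _ => rfl) fun i hi => ?_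
  rw [dif_pos hi]

theorem ScM_stop (o : Ordinal.{u} → Ordinal.{u})
    (U : Ordinal.{u} → Ordinal.{u} → Ultrafilter Ordinal.{u}) (α : Ordinal.{u}) :
    ∃ β, ¬ ∃ D, ExtC α β o U (ScM_next o U α) D := by
  by_contra hcon
  push Not at hcon
  have h1 : ∀ β, ExtC α β o U (ScM_next o U α) (ScM_next o U α β) := fun β =>
    ScM_next_spec (hcon β)
  have hsm : Small.{u} (Set (Set (Iio α))) := inferInstance
  refine not_injective_of_ordinal
    (fun β : Ordinal.{u} => ({A | Subtype.val '' A ∈ ScM_next o U α β} : Set (Set (Iio α)))) ?_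
  intro β β' h2
  have h3 : ∀ A : Set (Iio α), Subtype.val '' A ∈ ScM_next o U α β ↔
      Subtype.val '' A ∈ ScM_next o U α β' := fun A => by
    have := congrArg (fun S => A ∈ S) h2
    simpa using this
  have h4 : ScM_next o U α β = ScM_next o U α β' := by
    refine Ultrafilter.ext fun X => ?_
    have h5 : ∀ γ, X ∈ ScM_next o U α γ ↔
        Subtype.val '' ({x | x.1 ∈ X} : Set (Iio α)) ∈ ScM_next o U α γ := by
      intro γ
      constructor
      · intro h6
        filter_upwards [h6, (h1 γ).1.conc] with ν h7 h8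
        exact ⟨⟨ν, h8⟩, h7, rfl⟩
      · intro h6
        filter_upwards [h6] with ν h7
        obtain ⟨x, hx, rfl⟩ := h7
        exact hx
    rw [h5, h5, h3]
  have h5 := h1 β'
  rw [← h4] at h5
  exact (h1 β).length h5

open Classical in
/-- the recursion on `α` -/
noncomputable def ScM_G : Ordinal.{u} →
    Ordinal.{u} × (Ordinal.{u} → Ultrafilter Ordinal.{u}) :=
  WellFounded.fix (C := fun _ => Ordinal.{u} × (Ordinal.{u} → Ultrafilter Ordinal.{u}))
    (Ordinal.lt_wf) (fun α rec =>
      (sInf {β | ¬ ∃ D, ExtC α β (fun ν => if h : ν < α then (rec ν h).1 else 0)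
          (fun ν => if h : ν < α then (rec ν h).2 else fun _ => pure 0)
          (ScM_next (fun ν => if h : ν < α then (rec ν h).1 else 0)
            (fun ν => if h : ν < α then (rec ν h).2 else fun _ => pure 0) α) D},
        ScM_next (fun ν => if h : ν < α then (rec ν h).1 else 0)
            (fun ν => if h : ν < α then (rec ν h).2 else fun _ => pure 0) α))

open Classical in
theorem ScM_G_eq (α : Ordinal.{u}) : ScM_G α =
    (sInf {β | ¬ ∃ D, ExtC α β (fun ν => if ν < α then (ScM_G ν).1 else 0)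
          (fun ν => if ν < α then (ScM_G ν).2 else fun _ => pure 0)
          (ScM_next (fun ν => if ν < α then (ScM_G ν).1 else 0)
            (fun ν => if ν < α then (ScM_G ν).2 else fun _ => pure 0) α) D},
        ScM_next (fun ν => if ν < α then (ScM_G ν).1 else 0)
            (fun ν => if ν < α then (ScM_G ν).2 else fun _ => pure 0) α) := by
  conv_lhs => rw [ScM_G, WellFounded.fix_eq]
  rfl

theorem exists_maxCoh : ∃ (o : Ordinal.{u} → Ordinal.{u})
    (U : Ordinal.{u} → Ordinal.{u} → Ultrafilter Ordinal.{u}), IsMaxCoh o U := by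
  classical
  refine ⟨fun α => (ScM_G α).1, fun α => (ScM_G α).2, ?_, ?_⟩
  · intro α β hβ
    have hG := ScM_G_eq α
    set o' : Ordinal.{u} → Ordinal.{u} := fun ν => if ν < α then (ScM_G ν).1 else 0 with ho'
    set U' : Ordinal.{u} → Ordinal.{u} → Ultrafilter Ordinal.{u} :=
      fun ν => if ν < α then (ScM_G ν).2 else fun _ => pure 0 with hU'
    have h1 : ∃ D, ExtC α β o' U' (ScM_next o' U' α) D := by
      by_contra hcon
      have h2 : (ScM_G α).1 ≤ β := by
        rw [hG]
        exact csInf_le' hcon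
      exact absurd hβ (not_lt.2 h2)
    have h2 := ScM_next_spec h1
    have h3 : (ScM_G α).2 = ScM_next o' U' α := by rw [hG]
    show ExtC α β (fun α => (ScM_G α).1) (fun α => (ScM_G α).2) ((ScM_G α).2) ((ScM_G α).2 β)
    rw [h3]
    refine h2.congr (fun ν hν => ?_) (fun ν hν => ?_) fun _ _ => rfl
    · rw [ho']
      exact if_pos hν
    · rw [hU']
      exact if_pos hν
  · intro α
    have hG := ScM_G_eq α
    set o' : Ordinal.{u} → Ordinal.{u} := fun ν => if ν < α then (ScM_G ν).1 else 0 with ho'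
    set U' : Ordinal.{u} → Ordinal.{u} → Ultrafilter Ordinal.{u} :=
      fun ν => if ν < α then (ScM_G ν).2 else fun _ => pure 0 with hU'
    have h3 : (ScM_G α).2 = ScM_next o' U' α := by rw [hG]
    have h4 : ¬ ∃ D, ExtC α (ScM_G α).1 o' U' (ScM_next o' U' α) D := by
      have h5 : (ScM_G α).1 = sInf {β | ¬ ∃ D, ExtC α β o' U' (ScM_next o' U' α) D} := by rw [hG]
      rw [h5]
      exact csInf_mem (s := {β | ¬ ∃ D, ExtC α β o' U' (ScM_next o' U' α) D}) (ScM_stop o' U' α)
    rintro ⟨D, hD⟩
    refine h4 ⟨D, ?_⟩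
    change ExtC α (ScM_G α).1 (fun α => (ScM_G α).1) (fun α => (ScM_G α).2) ((ScM_G α).2) D at hD
    rw [h3] at hD
    refine hD.congr (fun ν hν => ?_) (fun ν hν => ?_) fun _ _ => rfl
    · rw [ho']
      exact (if_pos hν).symm
    · rw [hU']
      exact (if_pos hν).symm

end Pool.SND
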