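import Pool.Agent.SND.ScE
import Pool.Agent.SND.ScB

set_option autoImplicit false

namespace Pool.SND

open MagRad Set

universe u v

variable {κ lam : Ordinal.{u}} {W : Ultrafilter (Set Ordinal.{u})}

variable {o : Ordinal.{u} → Ordinal.{u}} {U : Ordinal.{u} → Ordinal.{u} → Ultrafilter Ordinal.{u}}

theorem scN_mono {α : Type v} {V : Ultrafilter α} {s t : Set α} (h : s ∈ V) (hst : s ⊆ t) :
    t ∈ V := Filter.mem_of_superset h hst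

theorem scN_inter {α : Type v} {V : Ultrafilter α} {s t : Set α} (h : s ∈ V) (h' : t ∈ V) :
    s ∩ t ∈ V := Filter.inter_mem h h'

theorem scN_ne {α : Type v} {V : Ultrafilter α} {s : Set α} (h : s ∈ V) : ∃ x, x ∈ s :=
  V.nonempty_of_mem h

theorem scN_not {α : Type v} {V : Ultrafilter α} {s : Set α} (h : s ∉ V) : sᶜ ∈ V :=
  Ultrafilter.compl_mem_iff_notMem.2 h

/-- if a property with a witness holds almost everywhere then there is a choice of witnesses -/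
theorem scN_choose {α : Type v} {β : Type v} [Nonempty β] {V : Ultrafilter α}
    {p : α → β → Prop} (h : {x | ∃ y, p x y} ∈ V) : ∃ f : α → β, {x | p x (f x)} ∈ V := by
  classical
  refine ⟨fun x => if hx : ∃ y, p x y then hx.choose else Classical.arbitrary β, scN_mono h ?_⟩
  intro x hx
  have hx' : ∃ y, p x y := hx
  show p x (if hx : ∃ y, p x y then hx.choose else Classical.arbitrary β)
  rw [dif_pos hx']
  exact hx'.choose_spec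

/-- for almost all `x` the ordinals below `o (kx x)` are numbered by the subsets of `kx x` -/
theorem exists_numbering (hW : IsSupercompactMeasure κ lam W) (hκ : κ ≤ lam)
    (hlam : lam.card = 2 ^ κ.card) (h : Ordinal.{u} → Set Ordinal.{u} → Ordinal.{u})
    (hh : ∀ g : Set Ordinal.{u} → Ordinal.{u}, {x | g x < o (kx x)} ∈ W →
      ∃ ξ < lam, {x | g x = h ξ x} ∈ W) :
    ∃ π : Ordinal.{u} → Set Ordinal.{u} → Ordinal.{u},
      {x | ∀ i < o (kx x), ∃ A ⊆ Iio (kx x), π (kx x) A = i} ∈ W := by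
  classical
  have h1 : {x | ∀ i < o (kx x), ∃ ξ ∈ x, i = h ξ x} ∈ W := by
    by_contra hn
    have hn' : {x | ∃ i, i < o (kx x) ∧ ∀ ξ ∈ x, i ≠ h ξ x} ∈ W := by
      refine scN_mono (scN_not hn) ?_
      intro x hx
      have hx' : ¬ ∀ i < o (kx x), ∃ ξ ∈ x, i = h ξ x := hx
      push Not at hx'
      obtain ⟨i, hi, hi'⟩ := hx'
      exact ⟨i, hi, hi'⟩
    obtain ⟨g, hg⟩ := scN_choose hn'
    obtain ⟨ξ, hξ, hg'⟩ := hh g (scN_mono hg fun x hx => hx.1)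
    obtain ⟨x, ⟨hx1, hx2⟩, hx3⟩ := scN_ne (scN_inter (scN_inter hg hg') (hW.fine ξ hξ))
    exact hx1.2 ξ hx3 hx2
  obtain ⟨Y, hY1, _, hY3⟩ := exists_enum (κ := κ) (lam := lam) hlam
  have h2 := power_inj hW hκ hY1 hY3
  refine ⟨fun ν => if hν : ∃ φ : Set Ordinal.{u} → Ordinal.{u},
      ∀ i < o ν, ∃ A ⊆ Iio ν, φ A = i then hν.choose else fun _ => 0, ?_⟩
  refine scN_mono (scN_inter h1 h2) ?_
  rintro x ⟨hx1, hx2⟩
  have hx1' : ∀ i < o (kx x), ∃ ξ ∈ x, i = h ξ x := hx1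
  have hx2' : ∀ ξ ∈ x, ∀ η ∈ x, Y ξ ∩ Iio (kx x) = Y η ∩ Iio (kx x) → ξ = η := hx2
  have hν : ∃ φ : Set Ordinal.{u} → Ordinal.{u},
      ∀ i < o (kx x), ∃ A ⊆ Iio (kx x), φ A = i := by
    refine ⟨fun A => if hA : ∃ ξ ∈ x, A = Y ξ ∩ Iio (kx x) then h hA.choose x else 0, ?_⟩
    intro i hi
    obtain ⟨ξ, hξ, hiξ⟩ := hx1' i hi
    refine ⟨Y ξ ∩ Iio (kx x), inter_subset_right, ?_⟩
    have hA : ∃ ξ' ∈ x, Y ξ ∩ Iio (kx x) = Y ξ' ∩ Iio (kx x) := ⟨ξ, hξ, rfl⟩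
    show (if hA : ∃ ξ' ∈ x, Y ξ ∩ Iio (kx x) = Y ξ' ∩ Iio (kx x) then h hA.choose x else 0) = i
    rw [dif_pos hA]
    have e : ξ = hA.choose := hx2' ξ hξ _ hA.choose_spec.1 hA.choose_spec.2
    rw [← e]
    exact hiξ.symm
  show ∀ i < o (kx x), ∃ A ⊆ Iio (kx x), (if hν : ∃ φ : Set Ordinal.{u} → Ordinal.{u},
      ∀ i < o (kx x), ∃ A ⊆ Iio (kx x), φ A = i then hν.choose else fun _ => 0) A = i
  rw [dif_pos hν]
  exact hν.choose_spec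

/-- the data at almost all points -/
structure ScNData (κ lam : Ordinal.{u}) (W : Ultrafilter (Set Ordinal.{u}))
    (o : Ordinal.{u} → Ordinal.{u}) (E : Set Ordinal.{u} → Ultrafilter Ordinal.{u})
    (π : Ordinal.{u} → Set Ordinal.{u} → Ordinal.{u})
    (y : Set Ordinal.{u} → Ordinal.{u} → Set Ordinal.{u}) : Prop where
  sc : IsSupercompactMeasure κ lam W
  le : κ ≤ lam
  nm : {x | IsNormalMeasure (kx x) (E x)} ∈ W
  rf : ∀ (A : Set Ordinal.{u} → Set Ordinal.{u}) (B : Set Ordinal.{u}),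
    {x | ∀ ξ < kx x, ξ ∈ A x ↔ ξ ∈ B} ∈ W → ({x | A x ∈ E x} ∈ W ↔ {x | kx x ∈ B} ∈ W)
  num : {x | ∀ i < o (kx x), y x i ⊆ Iio (kx x) ∧ π (kx x) (y x i) = i} ∈ W

variable {E : Set Ordinal.{u} → Ultrafilter Ordinal.{u}}
  {π : Ordinal.{u} → Set Ordinal.{u} → Ordinal.{u}}
  {y : Set Ordinal.{u} → Ordinal.{u} → Set Ordinal.{u}}

/-- the limit of the sets `y x (i x)` -/
theorem ScNData.lim (d : ScNData κ lam W o E π y) {i : Set Ordinal.{u} → Ordinal.{u}}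
    (hi : {x | i x < o (kx x)} ∈ W) :
    ∃ B : Set Ordinal.{u}, {x | (∀ ν < kx x, π ν (y x (i x) ∩ Iio ν) = π ν (B ∩ Iio ν)) ∧
      π (kx x) (B ∩ Iio (kx x)) = i x} ∈ W := by
  obtain ⟨B, _, hB⟩ := lim_set d.sc d.le (fun x => y x (i x))
  refine ⟨B, scN_mono (scN_inter (scN_inter hi hB) d.num) ?_⟩
  rintro x ⟨⟨hx1, hx2⟩, hx3⟩
  have hx1' : i x < o (kx x) := hx1
  have hx2' : ∀ ξ < kx x, ξ ∈ y x (i x) ↔ ξ ∈ B := hx2
  obtain ⟨h1, h2⟩ := (show ∀ i < o (kx x), y x i ⊆ Iio (kx x) ∧ π (kx x) (y x i) = i from hx3)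
    (i x) hx1'
  refine ⟨fun ν hν => ?_, ?_⟩
  · have e : y x (i x) ∩ Iio ν = B ∩ Iio ν := by
      ext ξ
      constructor
      · rintro ⟨ha, hb⟩
        exact ⟨(hx2' ξ ((show ξ < ν from hb).trans hν)).1 ha, hb⟩
      · rintro ⟨ha, hb⟩
        exact ⟨(hx2' ξ ((show ξ < ν from hb).trans hν)).2 ha, hb⟩
    rw [e]
  · have e : B ∩ Iio (kx x) = y x (i x) := by
      ext ξ
      constructor
      · rintro ⟨ha, hb⟩
        exact (hx2' ξ hb).2 ha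
      · intro ha
        exact ⟨(hx2' ξ (h1 ha)).1 ha, h1 ha⟩
    rw [e]
    exact h2

theorem ScNData.c1 (d : ScNData κ lam W o E π y) {i : Set Ordinal.{u} → Ordinal.{u}}
    (hi : {x | i x < o (kx x)} ∈ W) :
    {x | {ν | π ν (y x (i x) ∩ Iio ν) < o ν} ∈ E x} ∈ W := by
  obtain ⟨B, hB⟩ := d.lim hi
  refine (d.rf (fun x => {ν | π ν (y x (i x) ∩ Iio ν) < o ν}) {ν | π ν (B ∩ Iio ν) < o ν} ?_).2 ?_
  · refine scN_mono hB ?_
    rintro x ⟨h1, _⟩ ν hν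
    show π ν (y x (i x) ∩ Iio ν) < o ν ↔ π ν (B ∩ Iio ν) < o ν
    rw [h1 ν hν]
  · refine scN_mono (scN_inter hB hi) ?_
    rintro x ⟨⟨_, h2⟩, h3⟩
    show π (kx x) (B ∩ Iio (kx x)) < o (kx x)
    rw [h2]
    exact h3

theorem ScNData.c2 (d : ScNData κ lam W o E π y) {i j : Set Ordinal.{u} → Ordinal.{u}}
    (hij : {x | i x < j x} ∈ W) (hj : {x | j x < o (kx x)} ∈ W) :
    {x | {ν | π ν (y x (i x) ∩ Iio ν) < π ν (y x (j x) ∩ Iio ν)} ∈ E x} ∈ W := by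
  have hi : {x | i x < o (kx x)} ∈ W := scN_mono (scN_inter hij hj)
    (fun x hx => (show i x < j x from hx.1).trans hx.2)
  obtain ⟨B, hB⟩ := d.lim hi
  obtain ⟨B', hB'⟩ := d.lim hj
  refine (d.rf (fun x => {ν | π ν (y x (i x) ∩ Iio ν) < π ν (y x (j x) ∩ Iio ν)})
    {ν | π ν (B ∩ Iio ν) < π ν (B' ∩ Iio ν)} ?_).2 ?_
  · refine scN_mono (scN_inter hB hB') ?_
    rintro x ⟨⟨h1, _⟩, ⟨h1', _⟩⟩ ν hν
    show π ν (y x (i x) ∩ Iio ν) < π ν (y x (j x) ∩ Iio ν) ↔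
      π ν (B ∩ Iio ν) < π ν (B' ∩ Iio ν)
    rw [h1 ν hν, h1' ν hν]
  · refine scN_mono (scN_inter (scN_inter hB hB') hij) ?_
    rintro x ⟨⟨⟨_, h2⟩, ⟨_, h2'⟩⟩, h3⟩
    show π (kx x) (B ∩ Iio (kx x)) < π (kx x) (B' ∩ Iio (kx x))
    rw [h2, h2']
    exact h3

theorem ScNData.c3 (d : ScNData κ lam W o E π y) (ho : ∀ ν < κ, o ν < κ)
    {g : Set Ordinal.{u} → Ordinal.{u} → Ordinal.{u}} (hg : {x | {ν | g x ν < o ν} ∈ E x} ∈ W) :
    ∃ i : Set Ordinal.{u} → Ordinal.{u}, {x | i x < o (kx x) ∧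
      {ν | g x ν = π ν (y x (i x) ∩ Iio ν)} ∈ E x} ∈ W := by
  obtain ⟨G, hG⟩ := lim_fun d.sc d.le (fun x ν => min (g x ν) (o ν)) o ho
    (scN_mono hg fun x _ ν _ => min_le_right _ _)
  have hG' : {x | ∀ ν < kx x, min (g x ν) (o ν) = G ν} ∈ W := hG
  have h1 : {x | G (kx x) < o (kx x)} ∈ W := by
    refine (d.rf (fun x => {ν | min (g x ν) (o ν) < o ν}) {ν | G ν < o ν} ?_).1 ?_
    · refine scN_mono hG' ?_
      intro x hx ν hν
      show min (g x ν) (o ν) < o ν ↔ G ν < o ν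
      rw [(show ∀ ν < kx x, min (g x ν) (o ν) = G ν from hx) ν hν]
    · refine scN_mono hg ?_
      intro x hx
      exact scN_mono (show {ν | g x ν < o ν} ∈ E x from hx)
        (fun ν hν => show min (g x ν) (o ν) < o ν from
          (min_le_left _ _).trans_lt (show g x ν < o ν from hν))
  obtain ⟨B, hB⟩ := d.lim (i := fun x => G (kx x)) h1
  have h2 : {x | {ν | min (g x ν) (o ν) = π ν (y x (G (kx x)) ∩ Iio ν)} ∈ E x} ∈ W := by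
    refine (d.rf (fun x => {ν | min (g x ν) (o ν) = π ν (y x (G (kx x)) ∩ Iio ν)})
      {ν | G ν = π ν (B ∩ Iio ν)} ?_).2 ?_
    · refine scN_mono (scN_inter hG' hB) ?_
      rintro x ⟨hx, ⟨h1, _⟩⟩ ν hν
      show min (g x ν) (o ν) = π ν (y x (G (kx x)) ∩ Iio ν) ↔ G ν = π ν (B ∩ Iio ν)
      rw [(show ∀ ν < kx x, min (g x ν) (o ν) = G ν from hx) ν hν, h1 ν hν]
    · refine scN_mono hB ?_
      rintro x ⟨_, h2⟩
      exact h2.symm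
  refine ⟨fun x => G (kx x), scN_mono (scN_inter (scN_inter h1 h2) hg) ?_⟩
  rintro x ⟨⟨hx1, hx2⟩, hx3⟩
  refine ⟨hx1, ?_⟩
  refine scN_mono (scN_inter (show {ν | min (g x ν) (o ν) = π ν (y x (G (kx x)) ∩ Iio ν)} ∈ E x
    from hx2) (show {ν | g x ν < o ν} ∈ E x from hx3)) ?_
  rintro ν ⟨ha, hb⟩
  have ha' : min (g x ν) (o ν) = π ν (y x (G (kx x)) ∩ Iio ν) := ha
  rw [min_eq_left (show g x ν < o ν from hb).le] at ha'
  exact ha'

/-- measures on `α` do not distinguish sets which agree below `α` -/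
theorem scN_congr {α : Ordinal.{u}} {D : Ultrafilter Ordinal.{u}} (hD : Iio α ∈ D)
    {X X' : Set Ordinal.{u}} (h : ∀ ξ < α, ξ ∈ X ↔ ξ ∈ X') : X ∈ D ↔ X' ∈ D := by
  constructor
  · intro hX
    exact scN_mono (scN_inter hX hD) fun ξ hξ => (h ξ hξ.2).1 hξ.1
  · intro hX
    exact scN_mono (scN_inter hX hD) fun ξ hξ => (h ξ hξ.2).2 hξ.1

theorem ScNData.c4 (d : ScNData κ lam W o E π y) (hU : IsMaxCoh o U)
    {i : Set Ordinal.{u} → Ordinal.{u}} (hi : {x | i x < o (kx x)} ∈ W)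
    (X : Set Ordinal.{u} → Set Ordinal.{u}) :
    {x | X x ∈ U (kx x) (i x) ↔ {ν | X x ∈ U ν (π ν (y x (i x) ∩ Iio ν))} ∈ E x} ∈ W := by
  obtain ⟨B, hB⟩ := d.lim hi
  obtain ⟨Z, _, hZ⟩ := lim_set d.sc d.le X
  have hZ' : {x | ∀ ξ < kx x, ξ ∈ X x ↔ ξ ∈ Z} ∈ W := hZ
  have h1 := d.c1 hi
  have h2 : {x | {ν | Z ∈ U ν (π ν (y x (i x) ∩ Iio ν))} ∈ E x} ∈ W ↔
      {x | kx x ∈ {ν | Z ∈ U ν (π ν (B ∩ Iio ν))}} ∈ W := by
    refine d.rf (fun x => {ν | Z ∈ U ν (π ν (y x (i x) ∩ Iio ν))})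
      {ν | Z ∈ U ν (π ν (B ∩ Iio ν))} ?_
    refine scN_mono hB ?_
    rintro x ⟨h1, _⟩ ν hν
    show Z ∈ U ν (π ν (y x (i x) ∩ Iio ν)) ↔ Z ∈ U ν (π ν (B ∩ Iio ν))
    rw [h1 ν hν]
  -- the two sides almost everywhere
  have hP : {x | X x ∈ U (kx x) (i x) ↔ kx x ∈ {ν | Z ∈ U ν (π ν (B ∩ Iio ν))}} ∈ W := by
    refine scN_mono (scN_inter (scN_inter hB hZ') hi) ?_
    rintro x ⟨⟨⟨_, hx1⟩, hx2⟩, hx3⟩
    show X x ∈ U (kx x) (i x) ↔ Z ∈ U (kx x) (π (kx x) (B ∩ Iio (kx x)))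
    rw [hx1]
    exact scN_congr (hU.ext (kx x) (i x) hx3).1.conc hx2
  have hQ : {x | {ν | X x ∈ U ν (π ν (y x (i x) ∩ Iio ν))} ∈ E x ↔
      {ν | Z ∈ U ν (π ν (y x (i x) ∩ Iio ν))} ∈ E x} ∈ W := by
    refine scN_mono (scN_inter (scN_inter h1 hZ') d.nm) ?_
    rintro x ⟨⟨hx1, hx2⟩, hx3⟩
    have hc : {ν | π ν (y x (i x) ∩ Iio ν) < o ν} ∩ Iio (kx x) ∈ E x :=
      scN_inter hx1 (show IsNormalMeasure (kx x) (E x) from hx3).conc
    have key : ∀ ν ∈ {ν | π ν (y x (i x) ∩ Iio ν) < o ν} ∩ Iio (kx x),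
        (X x ∈ U ν (π ν (y x (i x) ∩ Iio ν)) ↔ Z ∈ U ν (π ν (y x (i x) ∩ Iio ν))) := by
      rintro ν ⟨ha, hb⟩
      refine scN_congr (hU.ext ν _ ha).1.conc fun ξ hξ => ?_
      exact (show ∀ ξ < kx x, ξ ∈ X x ↔ ξ ∈ Z from hx2) ξ (hξ.trans hb)
    constructor
    · intro h
      exact scN_mono (scN_inter h hc) fun ν hν => (key ν hν.2).1 hν.1
    · intro h
      exact scN_mono (scN_inter h hc) fun ν hν => (key ν hν.2).2 hν.1
  by_cases hp : {x | kx x ∈ {ν | Z ∈ U ν (π ν (B ∩ Iio ν))}} ∈ W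
  · refine scN_mono (scN_inter (scN_inter hP hQ) (scN_inter hp (h2.2 hp))) ?_
    rintro x ⟨⟨ha, hb⟩, ⟨hc, hd⟩⟩
    have ha' : X x ∈ U (kx x) (i x) ↔ kx x ∈ {ν | Z ∈ U ν (π ν (B ∩ Iio ν))} := ha
    have hb' : {ν | X x ∈ U ν (π ν (y x (i x) ∩ Iio ν))} ∈ E x ↔
      {ν | Z ∈ U ν (π ν (y x (i x) ∩ Iio ν))} ∈ E x := hb
    exact ⟨fun _ => hb'.2 hd, fun _ => ha'.2 hc⟩
  · have hq : {x | {ν | Z ∈ U ν (π ν (y x (i x) ∩ Iio ν))} ∈ E x} ∉ W := fun h => hp (h2.1 h)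
    refine scN_mono (scN_inter (scN_inter hP hQ) (scN_inter (scN_not hp) (scN_not hq))) ?_
    rintro x ⟨⟨ha, hb⟩, ⟨hc, hd⟩⟩
    have ha' : X x ∈ U (kx x) (i x) ↔ kx x ∈ {ν | Z ∈ U ν (π ν (B ∩ Iio ν))} := ha
    have hb' : {ν | X x ∈ U ν (π ν (y x (i x) ∩ Iio ν))} ∈ E x ↔
      {ν | Z ∈ U ν (π ν (y x (i x) ∩ Iio ν))} ∈ E x := hb
    exact ⟨fun h => (hc (ha'.1 h)).elim, fun h => (hd (hb'.1 h)).elim⟩

/-- the ordinals below `o κ` in the ultrapower cannot be listed by the ordinals below `lam` -/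
theorem not_listed (hU : IsMaxCoh o U) (hW : IsSupercompactMeasure κ lam W) (hκ : κ ≤ lam)
    (hlam : lam.card = 2 ^ κ.card) (h : Ordinal.{u} → Set Ordinal.{u} → Ordinal.{u})
    (hh : ∀ g : Set Ordinal.{u} → Ordinal.{u}, {x | g x < o (kx x)} ∈ W →
      ∃ ξ < lam, {x | g x = h ξ x} ∈ W) : False := by
  classical
  have hD : IsNormalMeasure κ (W.map kx) := dm_normal hW hκ
  obtain ⟨E, hE1, hE2⟩ := refl_measure hW hκ hlam hD
  obtain ⟨π, hπ⟩ := exists_numbering hW hκ hlam h hh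
  have hnum : ∃ y : Set Ordinal.{u} → Ordinal.{u} → Set Ordinal.{u},
      {x | ∀ i < o (kx x), y x i ⊆ Iio (kx x) ∧ π (kx x) (y x i) = i} ∈ W := by
    refine ⟨fun x i => if hA : ∃ A ⊆ Iio (kx x), π (kx x) A = i then hA.choose else ∅,
      scN_mono hπ ?_⟩
    intro x hx i hi
    have hA : ∃ A ⊆ Iio (kx x), π (kx x) A = i := hx i hi
    show (if hA : ∃ A ⊆ Iio (kx x), π (kx x) A = i then hA.choose else ∅) ⊆ Iio (kx x) ∧
      π (kx x) (if hA : ∃ A ⊆ Iio (kx x), π (kx x) A = i then hA.choose else ∅) = i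
    rw [dif_pos hA]
    exact hA.choose_spec
  obtain ⟨y, hy⟩ := hnum
  have d : ScNData κ lam W o E π y := ⟨hW, hκ, hE1, hE2, hy⟩
  have ho : ∀ ν < κ, o ν < κ := fun ν hν => maxCoh_lt hU hD hν
  have k1 : {x | ∀ i < o (kx x), {ν | π ν (y x i ∩ Iio ν) < o ν} ∈ E x} ∈ W := by
    by_contra hn
    have hn' : {x | ∃ i, i < o (kx x) ∧ {ν | π ν (y x i ∩ Iio ν) < o ν} ∉ E x} ∈ W := by
      refine scN_mono (scN_not hn) ?_
      intro x hx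
      have hx' : ¬ ∀ i < o (kx x), {ν | π ν (y x i ∩ Iio ν) < o ν} ∈ E x := hx
      push Not at hx'
      exact hx'
    obtain ⟨i, hi⟩ := scN_choose hn'
    obtain ⟨x, hx1, hx2⟩ := scN_ne (scN_inter hi (d.c1 (scN_mono hi fun x hx => hx.1)))
    exact hx1.2 hx2
  have k2 : {x | ∀ i j, i < j → j < o (kx x) →
      {ν | π ν (y x i ∩ Iio ν) < π ν (y x j ∩ Iio ν)} ∈ E x} ∈ W := by
    by_contra hn
    have hn' : {x | ∃ i, ∃ j, i < j ∧ j < o (kx x) ∧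
        {ν | π ν (y x i ∩ Iio ν) < π ν (y x j ∩ Iio ν)} ∉ E x} ∈ W := by
      refine scN_mono (scN_not hn) ?_
      intro x hx
      have hx' : ¬ ∀ i j, i < j → j < o (kx x) →
        {ν | π ν (y x i ∩ Iio ν) < π ν (y x j ∩ Iio ν)} ∈ E x := hx
      push Not at hx'
      obtain ⟨i, j, h1, h2, h3⟩ := hx'
      exact ⟨i, j, h1, h2, h3⟩
    obtain ⟨i, hi⟩ := scN_choose hn'
    obtain ⟨j, hj⟩ := scN_choose hi
    obtain ⟨x, hx1, hx2⟩ := scN_ne (scN_inter hj (d.c2 (scN_mono hj fun x hx => hx.1)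
      (scN_mono hj fun x hx => hx.2.1)))
    exact hx1.2.2 hx2
  have k3 : {x | ∀ g : Ordinal.{u} → Ordinal.{u}, {ν | g ν < o ν} ∈ E x →
      ∃ i < o (kx x), {ν | g ν = π ν (y x i ∩ Iio ν)} ∈ E x} ∈ W := by
    by_contra hn
    have hn' : {x | ∃ g : Ordinal.{u} → Ordinal.{u}, {ν | g ν < o ν} ∈ E x ∧
        ∀ i < o (kx x), {ν | g ν = π ν (y x i ∩ Iio ν)} ∉ E x} ∈ W := by
      refine scN_mono (scN_not hn) ?_
      intro x hx
      have hx' : ¬ ∀ g : Ordinal.{u} → Ordinal.{u}, {ν | g ν < o ν} ∈ E x →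
        ∃ i < o (kx x), {ν | g ν = π ν (y x i ∩ Iio ν)} ∈ E x := hx
      push Not at hx'
      exact hx'
    obtain ⟨g, hg⟩ := scN_choose hn'
    obtain ⟨i, hi⟩ := d.c3 ho (scN_mono hg fun x hx => hx.1)
    obtain ⟨x, hx1, hx2⟩ := scN_ne (scN_inter hg hi)
    exact hx1.2 (i x) hx2.1 hx2.2
  have k4 : {x | ∀ i < o (kx x), ∀ X : Set Ordinal.{u},
      X ∈ U (kx x) i ↔ {ν | X ∈ U ν (π ν (y x i ∩ Iio ν))} ∈ E x} ∈ W := by
    by_contra hn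
    have hn' : {x | ∃ i, ∃ X : Set Ordinal.{u}, i < o (kx x) ∧
        ¬ (X ∈ U (kx x) i ↔ {ν | X ∈ U ν (π ν (y x i ∩ Iio ν))} ∈ E x)} ∈ W := by
      refine scN_mono (scN_not hn) ?_
      intro x hx
      have hx' : ¬ ∀ i < o (kx x), ∀ X : Set Ordinal.{u},
        X ∈ U (kx x) i ↔ {ν | X ∈ U ν (π ν (y x i ∩ Iio ν))} ∈ E x := hx
      by_contra hc
      apply hx'
      intro i hi X
      by_contra hX
      exact hc ⟨i, X, hi, hX⟩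
    obtain ⟨i, hi⟩ := scN_choose hn'
    obtain ⟨X, hX⟩ := scN_choose hi
    obtain ⟨x, hx1, hx2⟩ := scN_ne (scN_inter hX (d.c4 hU (scN_mono hX fun x hx => hx.1) X))
    exact hx1.2 hx2
  obtain ⟨x, ⟨⟨hx1, hx2⟩, ⟨hx3, hx4⟩⟩, hx5⟩ :=
    scN_ne (scN_inter (scN_inter (scN_inter k1 k2) (scN_inter k3 k4)) hE1)
  exact hU.stop (kx x) ⟨E x, hx5, fun i ν => π ν (y x i ∩ Iio ν), hx1, hx2, hx3, hx4⟩


end Pool.SND
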