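import Pool.Agent.SND.ScBase

set_option autoImplicit false

namespace Pool.SND

open MagRad Set

universe u v

variable {κ lam : Ordinal.{u}} {W : Ultrafilter (Set Ordinal.{u})}

private theorem ScP_not {p : Set Ordinal.{u} → Prop} (h : {x | p x} ∉ W) : {x | ¬ p x} ∈ W :=
  Ultrafilter.compl_mem_iff_notMem.2 h

private theorem ScP_mem_of_lt {x : Set Ordinal.{u}} {ξ : Ordinal.{u}} (h : ξ < kx x) : ξ ∈ x := by
  by_contra hcon
  have h1 : kx x ≤ ξ := csInf_le' hcon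
  exact absurd h (not_lt.2 h1)

private theorem ScP_ex (hW : IsSupercompactMeasure κ lam W) : {x | ∃ ξ < κ, ξ ∉ x} ∈ W := by
  filter_upwards [hW.conc] with x hx
  by_contra hcon
  have h1 : Iio κ ⊆ x := by
    intro ξ hξ
    by_contra h2
    exact hcon ⟨ξ, hξ, h2⟩
  have h2 := Cardinal.mk_le_mk_of_subset h1
  rw [Cardinal.mk_Iio_ordinal] at h2
  exact absurd hx.2 (not_lt.2 h2)

private theorem ScP_kx_notMem {x : Set Ordinal.{u}} (h : ∃ ξ < κ, ξ ∉ x) : kx x ∉ x := by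
  obtain ⟨ξ, _, hξ⟩ := h
  exact csInf_mem (s := xᶜ) ⟨ξ, hξ⟩

theorem kx_lt (hW : IsSupercompactMeasure κ lam W) (hκ : κ ≤ lam) : {x | kx x < κ} ∈ W := by
  filter_upwards [ScP_ex hW] with x hx
  obtain ⟨ξ, h1, h2⟩ := hx
  have h3 : kx x ≤ ξ := csInf_le' h2
  exact lt_of_le_of_lt h3 h1

theorem press_x (hW : IsSupercompactMeasure κ lam W) (f : Set Ordinal.{u} → Ordinal.{u})
    (hf : {x | f x ∈ x} ∈ W) : ∃ ξ < lam, {x | f x = ξ} ∈ W := by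
  by_contra hcon
  push Not at hcon
  have h1 : ∀ ξ < lam, {x | ¬ f x = ξ} ∈ W := fun ξ hξ => ScP_not (hcon ξ hξ)
  have h2 := hW.normal (fun ξ => {x | ¬ f x = ξ}) h1
  obtain ⟨x, hx1, hx2⟩ := W.nonempty_of_mem (Filter.inter_mem h2 hf)
  exact hx1 (f x) hx2 rfl

theorem const_lt (hW : IsSupercompactMeasure κ lam W) {δ : Ordinal.{u}} (hδ : δ < κ)
    (f : Set Ordinal.{u} → Ordinal.{u}) (hf : {x | f x ≤ δ} ∈ W) :
    ∃ ξ ≤ δ, {x | f x = ξ} ∈ W := by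
  by_contra hcon
  push Not at hcon
  have h1 : ∀ ξ < δ, {x | ¬ f x = ξ} ∈ W := fun ξ hξ => ScP_not (hcon ξ hξ.le)
  have h2 := hW.complete δ hδ (fun ξ => {x | ¬ f x = ξ}) h1
  have h3 : {x | ¬ f x = δ} ∈ W := ScP_not (hcon δ le_rfl)
  obtain ⟨x, ⟨hx1, hx2⟩, hx3⟩ := W.nonempty_of_mem (Filter.inter_mem (Filter.inter_mem h2 h3) hf)
  have hx3' : f x ≤ δ := hx3
  have hx2' : ¬ f x = δ := hx2
  exact hx1 (f x) (lt_of_le_of_ne hx3' hx2') rfl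

theorem kx_eq (hW : IsSupercompactMeasure κ lam W) (hκ : κ ≤ lam) :
    {x | ∀ ξ < κ, ξ ∈ x ↔ ξ < kx x} ∈ W := by
  classical
  by_contra hcon
  have h1 := ScP_not hcon
  have h2 : ∀ x : Set Ordinal.{u}, ∃ η : Ordinal.{u}, (∃ ξ < κ, ξ ∉ x) →
      ¬ (∀ ξ < κ, ξ ∈ x ↔ ξ < kx x) → η ∈ x ∧ η < κ ∧ kx x ≤ η := by
    intro x
    by_cases hx : ∀ ξ < κ, ξ ∈ x ↔ ξ < kx x
    · exact ⟨0, fun _ h => absurd hx h⟩
    · have hx' := hx
      push Not at hx'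
      obtain ⟨ξ, hξ, h3⟩ := hx'
      rcases h3 with ⟨h3, h4⟩ | ⟨h3, h4⟩
      · exact ⟨ξ, fun _ _ => ⟨h3, hξ, h4⟩⟩
      · exact absurd (ScP_mem_of_lt h4) h3
  choose η hη using h2
  have h3 : {x | η x ∈ x} ∈ W := by
    filter_upwards [h1, ScP_ex hW] with x hx hx'
    exact (hη x hx' hx).1
  obtain ⟨ζ, hζ, h4⟩ := press_x hW η h3
  have h5 : {x | kx x ≤ ζ} ∈ W := by
    filter_upwards [h1, ScP_ex hW, h4] with x hx hx' hx''
    have h6 := (hη x hx' hx).2.2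
    have h7 : η x = ζ := hx''
    rw [h7] at h6
    exact h6
  obtain ⟨x, ⟨hx1, hx2⟩, hx3⟩ := W.nonempty_of_mem
    (Filter.inter_mem (Filter.inter_mem h1 (ScP_ex hW)) h4)
  have hζκ : ζ < κ := by
    have h6 := (hη x hx2 hx1).2.1
    have h7 : η x = ζ := hx3
    rw [h7] at h6
    exact h6
  obtain ⟨ξ, hξ, h6⟩ := const_lt hW hζκ kx h5
  obtain ⟨y, ⟨hy1, hy2⟩, hy3⟩ := W.nonempty_of_mem
    (Filter.inter_mem (Filter.inter_mem h6 (ScP_ex hW))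
      (hW.fine ξ ((hξ.trans_lt hζκ).trans_le hκ)))
  have hy1' : kx y = ξ := hy1
  have h7 := ScP_kx_notMem hy2
  rw [hy1'] at h7
  exact h7 hy3

theorem kx_tail (hW : IsSupercompactMeasure κ lam W) (hκ : κ ≤ lam) {ξ : Ordinal.{u}}
    (hξ : ξ < κ) : {x | ξ < kx x} ∈ W := by
  filter_upwards [kx_eq hW hκ, hW.fine ξ (hξ.trans_le hκ)] with x hx hx'
  exact (hx ξ hξ).1 hx'

theorem press_k (hW : IsSupercompactMeasure κ lam W) (hκ : κ ≤ lam)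
    (f : Set Ordinal.{u} → Ordinal.{u}) (hf : {x | f x < kx x} ∈ W) :
    ∃ ξ < κ, {x | f x = ξ} ∈ W := by
  have h1 : {x | f x ∈ x} ∈ W := by
    filter_upwards [hf] with x hx
    exact ScP_mem_of_lt hx
  obtain ⟨ξ, _, h2⟩ := press_x hW f h1
  obtain ⟨x, ⟨hx1, hx2⟩, hx3⟩ := W.nonempty_of_mem
    (Filter.inter_mem (Filter.inter_mem hf h2) (kx_lt hW hκ))
  refine ⟨ξ, ?_, h2⟩
  have h3 : f x = ξ := hx2
  have h4 : f x < kx x := hx1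
  rw [h3] at h4
  exact lt_trans h4 hx3

theorem diag_k (hW : IsSupercompactMeasure κ lam W) (hκ : κ ≤ lam)
    (X : Ordinal.{u} → Set (Set Ordinal.{u})) (hX : ∀ ξ < κ, X ξ ∈ W) :
    {x | ∀ ξ < kx x, x ∈ X ξ} ∈ W := by
  have h1 := hW.normal (fun ξ => {x | ξ < κ → x ∈ X ξ}) fun ξ _ => by
    by_cases hξ : ξ < κ
    · filter_upwards [hX ξ hξ] with x hx
      exact fun _ => hx
    · filter_upwards [] with x
      exact fun h => absurd h hξ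
  filter_upwards [h1, kx_lt hW hκ] with x hx hx' ξ hξ
  exact hx ξ (ScP_mem_of_lt hξ) (lt_trans hξ hx')

/-- limits of sets -/
theorem lim_set (hW : IsSupercompactMeasure κ lam W) (hκ : κ ≤ lam)
    (A : Set Ordinal.{u} → Set Ordinal.{u}) :
    ∃ B ⊆ Iio κ, {x | ∀ ξ < kx x, ξ ∈ A x ↔ ξ ∈ B} ∈ W := by
  refine ⟨{ξ | ξ < κ ∧ {x | ξ ∈ A x} ∈ W}, fun ξ hξ => hξ.1, ?_⟩
  refine diag_k hW hκ (fun ξ => {x | ξ ∈ A x ↔ ξ ∈ {ξ | ξ < κ ∧ {x | ξ ∈ A x} ∈ W}}) ?_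
  intro ξ hξ
  by_cases h : {x | ξ ∈ A x} ∈ W
  · filter_upwards [h] with x hx
    exact ⟨fun _ => ⟨hξ, h⟩, fun _ => hx⟩
  · filter_upwards [ScP_not h] with x hx
    exact ⟨fun h' => absurd h' hx, fun h' => absurd h'.2 h⟩

/-- limits of functions -/
theorem lim_fun (hW : IsSupercompactMeasure κ lam W) (hκ : κ ≤ lam)
    (g : Set Ordinal.{u} → Ordinal.{u} → Ordinal.{u}) (bd : Ordinal.{u} → Ordinal.{u})
    (hbd : ∀ ν < κ, bd ν < κ) (hg : {x | ∀ ν < kx x, g x ν ≤ bd ν} ∈ W) :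
    ∃ G : Ordinal.{u} → Ordinal.{u}, {x | ∀ ν < kx x, g x ν = G ν} ∈ W := by
  have h1 : ∀ ν : Ordinal.{u}, ∃ ξ : Ordinal.{u}, ν < κ → {x | g x ν = ξ} ∈ W := by
    intro ν
    by_cases hν : ν < κ
    · have h2 : {x | g x ν ≤ bd ν} ∈ W := by
        filter_upwards [hg, kx_tail hW hκ hν] with x hx hx'
        exact hx ν hx'
      obtain ⟨ξ, _, h3⟩ := const_lt hW (hbd ν hν) (fun x => g x ν) h2
      exact ⟨ξ, fun _ => h3⟩
    · exact ⟨0, fun h => absurd h hν⟩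
  choose G hG using h1
  exact ⟨G, diag_k hW hκ (fun ν => {x | g x ν = G ν}) hG⟩

/-- the normal measure on `κ` -/
theorem dm_normal (hW : IsSupercompactMeasure κ lam W) (hκ : κ ≤ lam) :
    IsNormalMeasure κ (W.map kx) := by
  refine ⟨?_, ?_, ?_⟩
  · exact kx_lt hW hκ
  · intro ξ hξ
    exact kx_tail hW hκ hξ
  · intro X hX
    exact diag_k hW hκ (fun ξ => kx ⁻¹' (X ξ)) hX

end Pool.SND
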