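import Pool.Agent.SND.Ro

set_option autoImplicit false

namespace Pool.SND

open Pool.Agent.Helper23.CK
open Pool.Agent.Helper23.CK.Gen
open Pool.Agent.Helper23.WT (iffV ZM ZF opair bElim bOr bMP bImp bNot bAbs bAll bEx bIff bIff_mp bIff_mpr bLeft bRight bCases bContra eq_of_forall iffV_self iffV_eq_top IsFun App IsOmega)

variable {P : Type 1} [Preorder P] {S : Set (Nm P)} {U : Set (RO P)} (hG : Gen S U)

/-! ### formulas -/

theorem trn_reg : hG.Tr (n := 1) (fun v => RegS (v 0))
    (fun v => ⨅ a, ⨅ f, (Nm.mem a (v 0) ⊓ (FunB f ⊓ ⨅ x, Nm.mem x a ⇨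
      ⨆ y, Nm.mem y (v 0) ⊓ Nm.mem (Nm.opair x y) f)) ⇨
      ⨆ b, Nm.mem b (v 0) ⊓ ⨅ x, Nm.mem x a ⇨ ⨅ y, Nm.mem (Nm.opair x y) f ⇨ Nm.mem y b) := by
  unfold RegS FunS FunB
  (repeat' first
      | with_reducible exact TrF.var _
      | with_reducible apply TrF.opair
      | with_reducible apply Tr.mem | with_reducible apply Tr.eq
      | with_reducible apply Tr.and | with_reducible apply Tr.not
      | with_reducible apply Tr.imp | with_reducible apply Tr.iff
      | with_reducible apply Tr.ex | with_reducible apply Tr.all)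

theorem trn_pow : hG.Tr (n := 1) (fun v => PowS (v 0))
    (fun v => ⨅ a, Nm.mem a (v 0) ⇨ ⨆ b, Nm.mem b (v 0) ⊓ ⨆ c, FunB c ⊓ ⨅ x, SubB x a ⇨
      ⨆ n, Nm.mem n b ⊓ Nm.mem (Nm.opair n x) c) := by
  unfold PowS SubS SubB FunS FunB
  (repeat' first
      | with_reducible exact TrF.var _
      | with_reducible apply TrF.opair
      | with_reducible apply Tr.mem | with_reducible apply Tr.eq
      | with_reducible apply Tr.and | with_reducible apply Tr.not
      | with_reducible apply Tr.imp | with_reducible apply Tr.iff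
      | with_reducible apply Tr.ex | with_reducible apply Tr.all)

theorem trn_sub : hG.Tr (n := 2) (fun v => ∀ x, ZM.E x (v 1) → SubS x (v 0))
    (fun v => ⨅ x, Nm.mem x (v 1) ⇨ SubB x (v 0)) := by
  unfold SubS SubB
  (repeat' first
      | with_reducible exact TrF.var _
      | with_reducible apply TrF.opair
      | with_reducible apply Tr.mem | with_reducible apply Tr.eq
      | with_reducible apply Tr.and | with_reducible apply Tr.not
      | with_reducible apply Tr.imp | with_reducible apply Tr.iff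
      | with_reducible apply Tr.ex | with_reducible apply Tr.all)

theorem trn_down : hG.Tr (n := 2) (fun v => ∀ x y, (ZM.E x (v 1) ∧ SubS y x) → ZM.E y (v 1))
    (fun v => ⨅ x, ⨅ y, (Nm.mem x (v 1) ⊓ SubB y x) ⇨ Nm.mem y (v 1)) := by
  unfold SubS SubB
  (repeat' first
      | with_reducible exact TrF.var _
      | with_reducible apply TrF.opair
      | with_reducible apply Tr.mem | with_reducible apply Tr.eq
      | with_reducible apply Tr.and | with_reducible apply Tr.not
      | with_reducible apply Tr.imp | with_reducible apply Tr.iff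
      | with_reducible apply Tr.ex | with_reducible apply Tr.all)

theorem trn_bdd : hG.Tr (n := 2) (fun v => ∀ a, ZM.E a (v 0) → ZM.E a (v 1))
    (fun v => ⨅ a, Nm.mem a (v 0) ⇨ Nm.mem a (v 1)) := by
  (repeat' first
      | with_reducible exact TrF.var _
      | with_reducible apply TrF.opair
      | with_reducible apply Tr.mem | with_reducible apply Tr.eq
      | with_reducible apply Tr.and | with_reducible apply Tr.not
      | with_reducible apply Tr.imp | with_reducible apply Tr.iff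
      | with_reducible apply Tr.ex | with_reducible apply Tr.all)

theorem trn_union : hG.Tr (n := 2) (fun v => ∀ a f u, (ZM.E a (v 0) ∧ (FunS f ∧
    ((∀ x, ZM.E x a → ∃ y, ZM.E y (v 1) ∧ ZM.E (opair x y) f) ∧
      ∀ z, ZM.E z u ↔ ∃ x, ZM.E x a ∧ ∃ y, ZM.E (opair x y) f ∧ ZM.E z y))) → ZM.E u (v 1))
    (fun v => ⨅ a, ⨅ f, ⨅ u, (Nm.mem a (v 0) ⊓ (FunB f ⊓
    ((⨅ x, Nm.mem x a ⇨ ⨆ y, Nm.mem y (v 1) ⊓ Nm.mem (Nm.opair x y) f) ⊓
      ⨅ z, iffV (Nm.mem z u)
        (⨆ x, Nm.mem x a ⊓ ⨆ y, Nm.mem (Nm.opair x y) f ⊓ Nm.mem z y)))) ⇨ Nm.mem u (v 1)) := by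
  unfold FunS FunB
  (repeat' first
      | with_reducible exact TrF.var _
      | with_reducible apply TrF.opair
      | with_reducible apply Tr.mem | with_reducible apply Tr.eq
      | with_reducible apply Tr.and | with_reducible apply Tr.not
      | with_reducible apply Tr.iff
      | with_reducible apply Tr.imp
      | with_reducible apply Tr.ex | with_reducible apply Tr.all)

theorem trn_sat : hG.Tr (n := 2) (fun v => SatS (v 0) (v 1))
    (fun v => ⨅ F, ((⨅ x, Nm.mem x F ⇨ SubB x (v 0) ⊓ (Nm.mem x (v 1))ᶜ) ⊓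
    (⨅ x, Nm.mem x F ⇨ ⨅ y, Nm.mem y F ⇨ ((Nm.eq x y)ᶜ ⇨
      ⨅ z, (⨅ w, iffV (Nm.mem w z) (Nm.mem w x ⊓ Nm.mem w y)) ⇨ Nm.mem z (v 1)))) ⇨
    ⨆ c, FunB c ⊓ ⨅ x, Nm.mem x F ⇨ ⨆ n, Nm.mem n (v 0) ⊓ Nm.mem (Nm.opair n x) c) := by
  unfold SatS SubS SubB FunS FunB
  (repeat' first
      | with_reducible exact TrF.var _
      | with_reducible apply TrF.opair
      | with_reducible apply Tr.mem | with_reducible apply Tr.eq
      | with_reducible apply Tr.and | with_reducible apply Tr.not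
      | with_reducible apply Tr.iff
      | with_reducible apply Tr.imp
      | with_reducible apply Tr.ex | with_reducible apply Tr.all)

theorem trn_noDia : hG.Tr (n := 1) (fun v => NoDiaS (v 0))
    (fun v => ⨅ A, FunB A ⇨ ⨆ X, ⨆ C, SubB X (v 0) ⊓ (ClubB (v 0) C ⊓
  ⨅ a, Nm.mem a C ⇨ ⨅ x, Nm.mem (Nm.opair a x) A ⇨
    (⨅ z, iffV (Nm.mem z x) (Nm.mem z X ⊓ Nm.mem z a))ᶜ)) := by
  unfold NoDiaS ClubS ClubB SubS SubB FunS FunB
  (repeat' first
      | with_reducible exact TrF.var _
      | with_reducible apply TrF.opair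
      | with_reducible apply Tr.mem | with_reducible apply Tr.eq
      | with_reducible apply Tr.and | with_reducible apply Tr.not
      | with_reducible apply Tr.iff
      | with_reducible apply Tr.imp
      | with_reducible apply Tr.ex | with_reducible apply Tr.all)

private theorem trn_le {a b : RO P} (h : a ≤ b) : ⊤ ≤ a ⇨ b := by
  rw [le_himp_iff, top_inf_eq]
  exact h

theorem regS_of {t : Nm P} (ht : t ∈ S) (h : RegN t) : RegS (hG.el t ht) := by
  refine ((trn_reg hG).iff_mem ![t] (by intro i; fin_cases i; assumption)).2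
    (hG.up _ hG.top _ ?_)
  exact le_iInf fun a => le_iInf fun f => trn_le (h a f)

theorem powS_of {t : Nm P} (ht : t ∈ S) (h : PowN t) : PowS (hG.el t ht) := by
  refine ((trn_pow hG).iff_mem ![t] (by intro i; fin_cases i; assumption)).2
    (hG.up _ hG.top _ ?_)
  exact le_iInf fun a => trn_le (h a)

theorem idS_of {t I : Nm P} (ht : t ∈ S) (hI : I ∈ S) (h : IdN t I) :
    IdS (hG.el t ht) (hG.el I hI) where
  sub := by
    refine ((trn_sub hG).iff_mem ![t, I] (by intro i; fin_cases i <;> assumption)).2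
      (hG.up _ hG.top _ ?_)
    exact le_iInf fun x => trn_le (h.sub x)
  down := by
    refine ((trn_down hG).iff_mem ![t, I] (by intro i; fin_cases i <;> assumption)).2
      (hG.up _ hG.top _ ?_)
    exact le_iInf fun x => le_iInf fun y => trn_le (h.down x y)
  proper := by
    have h1 := (Tr.memV (hG := hG) (n := 2) 0 1).iff_mem ![t, I]
      (by intro i; fin_cases i <;> assumption)
    intro h2
    have h3 : Nm.mem t I ∈ U := h1.1 h2
    rw [h.proper] at h3
    exact hG.bot h3
  bdd := by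
    refine ((trn_bdd hG).iff_mem ![t, I] (by intro i; fin_cases i <;> assumption)).2
      (hG.up _ hG.top _ ?_)
    exact le_iInf fun x => trn_le (h.bdd x)
  union := by
    refine ((trn_union hG).iff_mem ![t, I] (by intro i; fin_cases i <;> assumption)).2
      (hG.up _ hG.top _ ?_)
    exact le_iInf fun a => le_iInf fun f => le_iInf fun u => trn_le (h.union a f u)

theorem satS_of {t I : Nm P} (ht : t ∈ S) (hI : I ∈ S) (h : SatN t I) :
    SatS (hG.el t ht) (hG.el I hI) := by
  refine ((trn_sat hG).iff_mem ![t, I] (by intro i; fin_cases i <;> assumption)).2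
    (hG.up _ hG.top _ ?_)
  exact le_iInf fun F => trn_le (h F)

theorem noDiaS_of {t : Nm P} (ht : t ∈ S) (h : NoDiaN t) : NoDiaS (hG.el t ht) := by
  refine ((trn_noDia hG).iff_mem ![t] (by intro i; fin_cases i; assumption)).2
    (hG.up _ hG.top _ ?_)
  exact le_iInf fun A => trn_le (h A)

private theorem trn_eq {x y z : Nm P} (h : Nm.eq y z = ⊤) : Nm.eq x y = Nm.eq x z :=
  le_antisymm (Nm.bTrans le_rfl (le_top.trans h.ge))
    (Nm.bTrans le_rfl (Nm.bSymm (le_top.trans h.ge)))

private theorem trn_nat (n : ℕ) (x : Nm P) : Nm.mem x (Nm.nat n) = Nm.mem x (ordn (n : Ordinal.{0})) := by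
  induction n generalizing x with
  | zero =>
    rw [mem_ordn]
    have h1 : Nm.mem x (Nm.nat 0 : Nm P) = ⊥ := Nm.mem_emp x
    rw [h1, eq_comm, iSup_eq_bot]
    rintro ⟨β, hβ⟩
    have hβ' : β < ((0 : ℕ) : Ordinal.{0}) := hβ
    rw [Nat.cast_zero] at hβ'
    exact absurd hβ' not_lt_bot
  | succ n ih =>
    have hn : (n : Ordinal.{0}) < ((n + 1 : ℕ) : Ordinal.{0}) := Nat.cast_lt.2 n.lt_succ_self
    rw [Nm.mem_nat_succ, ih x, trn_eq (x := x) (Nm.eq_of_mem ih)]
    refine le_antisymm (sup_le ?_ ?_) ?_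
    · rw [mem_ordn _ (((n + 1 : ℕ) : Ordinal.{0}))]
      refine le_iSup_of_le (⟨(n : Ordinal.{0}), ?_⟩ : Set.Iio (((n + 1 : ℕ) : Ordinal.{0}))) le_rfl
      exact hn
    · rw [mem_ordn, mem_ordn]
      refine iSup_le fun β => ?_
      refine le_iSup_of_le (⟨β.1, ?_⟩ : Set.Iio (((n + 1 : ℕ) : Ordinal.{0}))) le_rfl
      exact lt_trans (show β.1 < (n : Ordinal.{0}) from β.2) hn
    · rw [mem_ordn]
      refine iSup_le fun ⟨β, hβ'⟩ => ?_
      have hβ : β < ((n + 1 : ℕ) : Ordinal.{0}) := hβ'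
      show Nm.eq x (ordn β) ≤ _
      clear hβ'
      rw [Nat.cast_succ, ← Order.succ_eq_add_one, Order.lt_succ_iff] at hβ
      rcases hβ.lt_or_eq with h | h
      · refine le_sup_of_le_right ?_
        rw [mem_ordn]
        exact le_iSup_of_le (⟨β, h⟩ : Set.Iio (n : Ordinal.{0})) le_rfl
      · rw [h]
        exact le_sup_left

theorem omg_mem_ordn {κ : Ordinal.{0}} (h : Ordinal.omega0 < κ) :
    Nm.mem Nm.omg (ordn κ : Nm P) = ⊤ := by
  have h1 : (Nm.eq Nm.omg (ordn Ordinal.omega0) : RO P) = ⊤ := by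
    refine Nm.eq_of_mem fun x => ?_
    rw [Nm.mem_omg, mem_ordn]
    refine le_antisymm (iSup_le fun n => ?_) (iSup_le fun β => ?_)
    · rw [trn_eq (x := x) (Nm.eq_of_mem (trn_nat n))]
      exact le_iSup_of_le (⟨(n : Ordinal.{0}), Ordinal.natCast_lt_omega0 n⟩ :
        Set.Iio Ordinal.omega0.{0}) le_rfl
    · obtain ⟨β, hβ⟩ := β
      obtain ⟨n, rfl⟩ := Ordinal.lt_omega0.1 hβ
      refine le_iSup_of_le n ?_
      rw [trn_eq (x := x) (Nm.eq_of_mem (trn_nat n))]
  rw [mem_ordn, eq_top_iff, ← h1]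
  exact le_iSup_of_le (⟨Ordinal.omega0, h⟩ : Set.Iio κ) le_rfl

end Pool.SND
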